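import Mathlib

/-!
Global existence for ordinary differential equations with an energy estimate.
-/

set_option linter.unusedSectionVars false

open MeasureTheory Set Filter Topology Metric
open scoped InnerProductSpace NNReal

namespace H772R2.NSR

variable {E : Type*} [NormedAddCommGroup E] [InnerProductSpace ℝ E] [CompleteSpace E]

/-- the cutoff function -/
noncomputable def cut (R : ℝ) (x : E) : ℝ := max 0 (min 1 (2 - ‖x‖ / R))

theorem cut_nonneg (R : ℝ) (x : E) : 0 ≤ cut R x := le_max_left _ _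

theorem cut_le_one (R : ℝ) (x : E) : cut R x ≤ 1 := max_le (by norm_num) (min_le_left _ _)

theorem cut_eq_one {R : ℝ} (hR : 0 < R) {x : E} (hx : ‖x‖ ≤ R) : cut R x = 1 := by
  have h1 : ‖x‖ / R ≤ 1 := (div_le_one hR).mpr hx
  unfold cut
  rw [min_eq_left (by linarith), max_eq_right (by norm_num)]

theorem cut_eq_zero {R : ℝ} (hR : 0 < R) {x : E} (hx : 2 * R ≤ ‖x‖) : cut R x = 0 := by
  have h1 : 2 ≤ ‖x‖ / R := by rw [le_div_iff₀ hR]; exact hx
  unfold cut
  exact max_eq_left (le_trans (min_le_right _ _) (by linarith))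

theorem abs_cut_sub_le {R : ℝ} (hR : 0 < R) (x y : E) : |cut R x - cut R y| ≤ ‖x - y‖ / R := by
  have h1 : |cut R x - cut R y| ≤ |(2 - ‖x‖ / R) - (2 - ‖y‖ / R)| := by
    unfold cut
    refine (abs_max_sub_max_le_max _ _ _ _).trans ?_
    rw [sub_self, abs_zero]
    refine max_le (abs_nonneg _) ((abs_min_sub_min_le_max _ _ _ _).trans ?_)
    rw [sub_self, abs_zero]
    exact max_le (abs_nonneg _) le_rfl
  refine h1.trans ?_
  have h2 : (2 - ‖x‖ / R) - (2 - ‖y‖ / R) = (‖y‖ - ‖x‖) / R := by ring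
  rw [h2, abs_div, abs_of_pos hR]
  gcongr
  rw [norm_sub_rev]
  exact abs_norm_sub_norm_le y x

/-- Global existence under a one sided bound. -/
theorem exists_global (X : ℝ → E → E) {T : ℝ} (hT : 0 ≤ T)
    (hlip : ∀ R : ℝ, ∃ C : ℝ≥0, ∀ t ∈ Icc 0 T, LipschitzOnWith C (X t) (closedBall 0 R))
    (hcont : ∀ x, ContinuousOn (fun t => X t x) (Icc 0 T)) (x0 : E) {c : ℝ} (hc : 0 ≤ c)
    (hen : ∀ t ∈ Icc 0 T, ∀ x, ⟪X t x, x⟫_ℝ ≤ c) :
    ∃ x : ℝ → E, x 0 = x0 ∧ (∀ t ∈ Icc 0 T, HasDerivWithinAt x (X t (x t)) (Icc 0 T) t) ∧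
      ∀ t ∈ Icc 0 T, ‖x t‖ ^ 2 ≤ ‖x0‖ ^ 2 + 2 * c * t := by
  set R : ℝ := Real.sqrt (‖x0‖ ^ 2 + 2 * c * T + 1) with hRdef
  have hRpos : 0 < ‖x0‖ ^ 2 + 2 * c * T + 1 := by positivity
  have hR : 0 < R := Real.sqrt_pos.mpr hRpos
  have hR2 : R ^ 2 = ‖x0‖ ^ 2 + 2 * c * T + 1 := Real.sq_sqrt hRpos.le
  -- bound of X t 0
  obtain ⟨B0, hB0⟩ : ∃ B0 : ℝ, ∀ t ∈ Icc 0 T, ‖X t 0‖ ≤ B0 := by
    obtain ⟨B0, h⟩ := (isCompact_Icc.image_of_continuousOn (hcont 0)).isBounded.exists_norm_le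
    exact ⟨B0, fun t ht => h _ ⟨t, ht, rfl⟩⟩
  have hB00 : 0 ≤ B0 := (norm_nonneg _).trans (hB0 0 ⟨le_rfl, hT⟩)
  have hXle : ∀ (R' : ℝ) (C : ℝ≥0), 0 ≤ R' →
      (∀ t ∈ Icc 0 T, LipschitzOnWith C (X t) (closedBall 0 R')) →
      ∀ t ∈ Icc 0 T, ∀ x ∈ closedBall (0 : E) R', ‖X t x‖ ≤ B0 + C * R' := by
    intro R' C hR' hC t ht x hx
    have h1 := (hC t ht).dist_le_mul x hx 0 (by simp [hR'])
    rw [dist_eq_norm, dist_zero_right] at h1
    have h2 : ‖x‖ ≤ R' := by simpa using hx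
    calc ‖X t x‖ = ‖X t 0 + (X t x - X t 0)‖ := by congr 1; abel
      _ ≤ ‖X t 0‖ + ‖X t x - X t 0‖ := norm_add_le _ _
      _ ≤ B0 + C * ‖x‖ := add_le_add (hB0 t ht) h1
      _ ≤ B0 + C * R' := by gcongr
  obtain ⟨C2, hC2⟩ := hlip (2 * R)
  set L : ℝ := B0 + C2 * (2 * R) with hLdef
  have hL0 : 0 ≤ L := by positivity
  let Y : ℝ → E → E := fun t x => cut R x • X t x
  have hYle : ∀ t ∈ Icc 0 T, ∀ x, ‖Y t x‖ ≤ L := by
    intro t ht x
    simp only [Y, norm_smul, Real.norm_eq_abs, abs_of_nonneg (cut_nonneg R x)]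
    rcases le_total ‖x‖ (2 * R) with h | h
    · calc cut R x * ‖X t x‖ ≤ 1 * ‖X t x‖ := by gcongr; exact cut_le_one R x
        _ = ‖X t x‖ := one_mul _
        _ ≤ L := hXle (2 * R) C2 (by positivity) hC2 t ht x (by simpa using h)
    · rw [cut_eq_zero hR h, zero_mul]; exact hL0
  -- Picard-Lindelof
  set a : ℝ := L * T with hadef
  have ha0 : 0 ≤ a := by positivity
  obtain ⟨C3, hC3⟩ := hlip (‖x0‖ + a)
  have hb3 := hXle (‖x0‖ + a) C3 (by positivity) hC3
  set B3 : ℝ := B0 + C3 * (‖x0‖ + a) with hB3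
  have hB30 : 0 ≤ B3 := by positivity
  have hsub : closedBall x0 a ⊆ closedBall (0 : E) (‖x0‖ + a) := by
    intro x hx
    rw [mem_closedBall_iff_norm] at hx
    rw [mem_closedBall_zero_iff]
    calc ‖x‖ = ‖x0 + (x - x0)‖ := by congr 1; abel
      _ ≤ ‖x0‖ + ‖x - x0‖ := norm_add_le _ _
      _ ≤ ‖x0‖ + a := by gcongr
  have hL' : ((Real.toNNReal L : ℝ≥0) : ℝ) = L := Real.coe_toNNReal _ hL0
  have ha' : ((Real.toNNReal a : ℝ≥0) : ℝ) = a := Real.coe_toNNReal _ ha0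
  have hk0 : 0 ≤ B3 / R + C3 := by positivity
  have hk' : ((Real.toNNReal (B3 / R + C3) : ℝ≥0) : ℝ) = B3 / R + C3 := Real.coe_toNNReal _ hk0
  have hpl : IsPicardLindelof Y (⟨0, ⟨le_rfl, hT⟩⟩ : Icc 0 T) x0 (Real.toNNReal a) 0
      (Real.toNNReal L) (Real.toNNReal (B3 / R + C3)) := by
    constructor
    · intro t ht
      rw [ha']
      refine LipschitzOnWith.of_dist_le_mul ?_
      intro x hx y hy
      rw [hk']
      have hx' := hsub hx
      have hy' := hsub hy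
      have h1 := (hC3 t ht).dist_le_mul x hx' y hy'
      rw [dist_eq_norm, dist_eq_norm] at h1
      rw [dist_eq_norm, dist_eq_norm]
      have e1 : Y t x - Y t y = (cut R x - cut R y) • X t x + cut R y • (X t x - X t y) := by
        simp only [Y, sub_smul, smul_sub]; abel
      rw [e1]
      calc ‖(cut R x - cut R y) • X t x + cut R y • (X t x - X t y)‖
          ≤ |cut R x - cut R y| * ‖X t x‖ + |cut R y| * ‖X t x - X t y‖ := by
            refine (norm_add_le _ _).trans (le_of_eq ?_)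
            rw [norm_smul, norm_smul]; rfl
        _ ≤ (‖x - y‖ / R) * B3 + 1 * (C3 * ‖x - y‖) := by
            gcongr
            · exact abs_cut_sub_le hR x y
            · exact hb3 t ht x hx'
            · rw [abs_of_nonneg (cut_nonneg R y)]; exact cut_le_one R y
        _ = (B3 / R + C3) * ‖x - y‖ := by ring
    · intro x _
      exact continuousOn_const.smul (hcont x)
    · intro t ht x _
      rw [hL']
      exact hYle t ht x
    · rw [hL', ha']
      show L * max (T - 0) (0 - 0) ≤ a - 0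
      rw [sub_zero, sub_zero, sub_zero, max_eq_left hT]
  obtain ⟨x, hx0, hx⟩ := hpl.exists_eq_forall_mem_Icc_hasDerivWithinAt₀
  have hx0' : x 0 = x0 := hx0
  -- the energy estimate
  have hq : ∀ t ∈ Icc 0 T, HasDerivWithinAt (fun t => ‖x t‖ ^ 2) (2 * ⟪x t, Y t (x t)⟫_ℝ)
      (Icc 0 T) t := fun t ht => (hx t ht).norm_sq
  have hmono : MonotoneOn (fun t => 2 * c * t - ‖x t‖ ^ 2) (Icc 0 T) := by
    have hd : ∀ t ∈ Icc 0 T, HasDerivWithinAt (fun t => 2 * c * t - ‖x t‖ ^ 2)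
        (2 * c * 1 - 2 * ⟪x t, Y t (x t)⟫_ℝ) (Icc 0 T) t := fun t ht =>
      ((hasDerivWithinAt_id t _).const_mul (2 * c)).sub (hq t ht)
    refine monotoneOn_of_deriv_nonneg (convex_Icc 0 T)
      (fun t ht => (hd t ht).continuousWithinAt) ?_ ?_
    · intro t ht
      rw [interior_Icc] at ht
      exact ((hd t (Ioo_subset_Icc_self ht)).hasDerivAt
        (Icc_mem_nhds ht.1 ht.2)).differentiableAt.differentiableWithinAt
    · intro t ht
      rw [interior_Icc] at ht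
      rw [((hd t (Ioo_subset_Icc_self ht)).hasDerivAt (Icc_mem_nhds ht.1 ht.2)).deriv]
      have h1 := hen t (Ioo_subset_Icc_self ht) (x t)
      have h2 : ⟪x t, Y t (x t)⟫_ℝ = cut R (x t) * ⟪X t (x t), x t⟫_ℝ := by
        simp only [Y, inner_smul_right, real_inner_comm]
      rw [h2]
      have h3 : cut R (x t) * ⟪X t (x t), x t⟫_ℝ ≤ c := by
        rcases le_total 0 ⟪X t (x t), x t⟫_ℝ with h | h
        · calc cut R (x t) * ⟪X t (x t), x t⟫_ℝ ≤ 1 * ⟪X t (x t), x t⟫_ℝ := by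
                gcongr; exact cut_le_one _ _
            _ ≤ c := by linarith
        · have := mul_nonpos_of_nonneg_of_nonpos (cut_nonneg R (x t)) h
          linarith
      linarith
  have hen' : ∀ t ∈ Icc 0 T, ‖x t‖ ^ 2 ≤ ‖x0‖ ^ 2 + 2 * c * t := by
    intro t ht
    have := hmono ⟨le_rfl, hT⟩ ht ht.1
    simp only [mul_zero, zero_sub, hx0'] at this
    linarith
  refine ⟨x, hx0', ?_, hen'⟩
  intro t ht
  have h1 := hen' t ht
  have h2 : ‖x t‖ ≤ R := by
    have h3 : ‖x t‖ ^ 2 ≤ R ^ 2 := by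
      rw [hR2]
      have : 2 * c * t ≤ 2 * c * T := by gcongr; exact ht.2
      linarith
    exact (pow_le_pow_iff_left₀ (norm_nonneg _) hR.le (by norm_num)).mp h3
  have h3 := hx t ht
  simp only [Y, cut_eq_one hR h2, one_smul] at h3
  exact h3

end H772R2.NSR
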