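import Mathlib
import Pool.Agent.H772R2.NSR.Ode

/-!
Abstract frame for the Navier-Stokes equations and Galerkin trajectories.
-/

set_option linter.unusedSectionVars false

open MeasureTheory Set Filter Topology Metric
open scoped InnerProductSpace NNReal

namespace H772R2.NSR

variable {H K : Type*} [NormedAddCommGroup H] [InnerProductSpace ℝ H] [CompleteSpace H]
  [NormedAddCommGroup K] [InnerProductSpace ℝ K] [CompleteSpace K]

/-- The abstract frame: `W` is the graph of the gradient, `m` is the map `v ↦ v ⊗ v`. -/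
structure Frame (W : Submodule ℝ (H × K)) (m : H → K) (C : ℝ) : Prop where
  C0 : 0 < C
  closedW : IsClosed (W : Set (H × K))
  uniq : ∀ p ∈ W, p.1 = 0 → p.2 = 0
  poinc : ∀ p ∈ W, ‖p.1‖ ≤ C * ‖p.2‖
  ortho : ∀ p ∈ W, ⟪m p.1, p.2⟫_ℝ = 0
  anti : ∀ p ∈ W, ∀ q ∈ W, ⟪m p.1 - m q.1, p.2 - q.2⟫_ℝ = -⟪m (p.1 - q.1), q.2⟫_ℝ
  quart : ∀ p ∈ W, ‖m p.1‖ ^ 2 ≤ C * (‖p.1‖ * ‖p.2‖ ^ 3)
  lips : ∀ p ∈ W, ∀ q ∈ W, ‖m p.1 - m q.1‖ ^ 4
    ≤ C * (‖p.1 - q.1‖ * ‖p.2 - q.2‖ ^ 3 * (‖p.2‖ + ‖q.2‖) ^ 4)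

/-- The nonlinear part of the viscosity. -/
structure Visc (ν : ℝ) (μ : ℝ → ℝ) (A M : ℝ) : Prop where
  A0 : 0 ≤ A
  M0 : 0 ≤ M
  nonneg : ∀ s, 0 ≤ s → 0 ≤ μ s
  mono : ∀ s t, 0 ≤ s → s ≤ t → μ s ≤ μ t
  lip : ∀ s t, 0 ≤ s → 0 ≤ t → |μ s - μ t| ≤ M * |s - t|
  key : ∀ s, 0 ≤ s → s ^ 4 ≤ A * (ν + μ s) ^ 3 * (1 + μ s * s ^ 2)

/-- A Galerkin trajectory in the finite dimensional space `E`. -/
structure Traj (W : Submodule ℝ (H × K)) (m : H → K) (μ : ℝ → ℝ) (ν T : ℝ) (F : ℝ → K)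
    (E : Submodule ℝ H) (x x' : ℝ → H) (z : ℝ → K) : Prop where
  mem : ∀ t ∈ Icc 0 T, (x t, z t) ∈ W
  memE : ∀ t ∈ Icc 0 T, x t ∈ E
  memE' : ∀ t ∈ Icc 0 T, x' t ∈ E
  deriv : ∀ t ∈ Icc 0 T, HasDerivWithinAt x (x' t) (Icc 0 T) t
  contx' : ContinuousOn x' (Icc 0 T)
  contz : ContinuousOn z (Icc 0 T)
  eqn : ∀ t ∈ Icc 0 T, ∀ φ ∈ E, ∀ ψ, (φ, ψ) ∈ W →
    ⟪x' t, φ⟫_ℝ = ⟪F t - (ν + μ ‖z t‖) • z t + m (x t), ψ⟫_ℝ

/-- Lipschitz bound for the stress. -/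
theorem stress_lip {ν A M : ℝ} {μ : ℝ → ℝ} (V : Visc ν μ A M) (hν : 0 ≤ ν) (z w : K) {R : ℝ}
    (hz : ‖z‖ ≤ R) (hw : ‖w‖ ≤ R) :
    ‖(ν + μ ‖z‖) • z - (ν + μ ‖w‖) • w‖ ≤ (ν + μ R + M * R) * ‖z - w‖ := by
  have e1 : (ν + μ ‖z‖) • z - (ν + μ ‖w‖) • w
      = (ν + μ ‖z‖) • (z - w) + (μ ‖z‖ - μ ‖w‖) • w := by
    simp only [smul_sub, add_smul, sub_smul]; abel
  have h1 : 0 ≤ μ ‖z‖ := V.nonneg _ (norm_nonneg _)
  have h2 : μ ‖z‖ ≤ μ R := V.mono _ _ (norm_nonneg _) hz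
  have h3 : |μ ‖z‖ - μ ‖w‖| ≤ M * ‖z - w‖ :=
    (V.lip _ _ (norm_nonneg _) (norm_nonneg _)).trans
      (mul_le_mul_of_nonneg_left (abs_norm_sub_norm_le z w) V.M0)
  have hM := V.M0
  have hR : 0 ≤ R := (norm_nonneg _).trans hz
  rw [e1]
  calc ‖(ν + μ ‖z‖) • (z - w) + (μ ‖z‖ - μ ‖w‖) • w‖
      ≤ (ν + μ ‖z‖) * ‖z - w‖ + |μ ‖z‖ - μ ‖w‖| * ‖w‖ := by
        refine (norm_add_le _ _).trans (le_of_eq ?_)
        rw [norm_smul, norm_smul, Real.norm_eq_abs, Real.norm_eq_abs,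
          abs_of_nonneg (by linarith : 0 ≤ ν + μ ‖z‖)]
    _ ≤ (ν + μ R) * ‖z - w‖ + (M * ‖z - w‖) * R := by gcongr
    _ = _ := by ring

section galerkin

variable {W : Submodule ℝ (H × K)} {m : H → K} {C : ℝ} {E : Submodule ℝ H}

/-- The gradient on a finite dimensional subspace. -/
noncomputable def gradE (W : Submodule ℝ (H × K)) (E : Submodule ℝ H) [FiniteDimensional ℝ E]
    (hE : E ≤ W.map (LinearMap.fst ℝ H K)) : E →L[ℝ] K :=
  LinearMap.toContinuousLinearMap (W.toLinearPMap.toFun ∘ₗ Submodule.inclusion hE)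

theorem gradE_mem (Fr : Frame W m C) [FiniteDimensional ℝ E]
    (hE : E ≤ W.map (LinearMap.fst ℝ H K)) (x : E) : ((x : H), gradE W E hE x) ∈ W :=
  Submodule.mem_graph_toLinearPMap (fun p hp h => Fr.uniq p hp h) (Submodule.inclusion hE x)

theorem grad_unique (Fr : Frame W m C) {v : H} {z z' : K} (h : (v, z) ∈ W) (h' : (v, z') ∈ W) :
    z = z' := by
  have h1 : ((0 : H), z - z') ∈ W := by
    have := W.sub_mem h h'
    simpa using this
  exact sub_eq_zero.mp (Fr.uniq _ h1 rfl)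

/-- Fourth root Lipschitz bound of `m` on bounded sets of a finite dimensional space. -/
theorem m_lip (Fr : Frame W m C) [FiniteDimensional ℝ E]
    (hE : E ≤ W.map (LinearMap.fst ℝ H K)) (R : ℝ) (_hR : 0 ≤ R) :
    ∃ c : ℝ, 0 ≤ c ∧ ∀ x y : E, ‖x‖ ≤ R → ‖y‖ ≤ R → ‖m x - m y‖ ≤ c * ‖x - y‖ := by
  set L := gradE W E hE with hL
  set c4 : ℝ := C * (‖L‖ ^ 3 * (2 * (‖L‖ * R)) ^ 4) with hc4
  have hc40 : 0 ≤ c4 := by have := Fr.C0; positivity
  refine ⟨Real.sqrt (Real.sqrt c4), Real.sqrt_nonneg _, ?_⟩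
  intro x y hx hy
  have h1 := Fr.lips _ (gradE_mem Fr hE x) _ (gradE_mem Fr hE y)
  simp only at h1
  have e1 : gradE W E hE x - gradE W E hE y = L (x - y) := by rw [map_sub]
  rw [e1] at h1
  have e2 : ‖(x : H) - y‖ = ‖x - y‖ := by rw [← Submodule.coe_sub]; rfl
  rw [e2] at h1
  have h2 : ‖L (x - y)‖ ≤ ‖L‖ * ‖x - y‖ := L.le_opNorm _
  have h3 : ‖L x‖ ≤ ‖L‖ * R := (L.le_opNorm _).trans (by gcongr)
  have h4 : ‖L y‖ ≤ ‖L‖ * R := (L.le_opNorm _).trans (by gcongr)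
  have hC := Fr.C0
  have h5 : ‖m x - m y‖ ^ 4 ≤ c4 * ‖x - y‖ ^ 4 := by
    calc ‖m x - m y‖ ^ 4
        ≤ C * (‖x - y‖ * ‖L (x - y)‖ ^ 3 * (‖L x‖ + ‖L y‖) ^ 4) := h1
      _ ≤ C * (‖x - y‖ * (‖L‖ * ‖x - y‖) ^ 3 * (‖L‖ * R + ‖L‖ * R) ^ 4) := by gcongr
      _ = c4 * ‖x - y‖ ^ 4 := by rw [hc4]; ring
  have h6 : (Real.sqrt (Real.sqrt c4)) ^ 4 = c4 := by
    have : (Real.sqrt (Real.sqrt c4)) ^ 4 = ((Real.sqrt (Real.sqrt c4)) ^ 2) ^ 2 := by ring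
    rw [this, Real.sq_sqrt (Real.sqrt_nonneg _), Real.sq_sqrt hc40]
  have h7 : ‖m x - m y‖ ^ 4 ≤ (Real.sqrt (Real.sqrt c4) * ‖x - y‖) ^ 4 := by
    rw [mul_pow, h6]; exact h5
  exact (pow_le_pow_iff_left₀ (norm_nonneg _) (by positivity) (by norm_num)).mp h7

/-- The Galerkin vector field. -/
noncomputable def vf (W : Submodule ℝ (H × K)) (m : H → K) (μ : ℝ → ℝ) (ν : ℝ) (F : ℝ → K)
    (E : Submodule ℝ H) [FiniteDimensional ℝ E] (hE : E ≤ W.map (LinearMap.fst ℝ H K))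
    (t : ℝ) (x : E) : E :=
  (gradE W E hE).adjoint (F t - (ν + μ ‖gradE W E hE x‖) • gradE W E hE x + m x)

theorem exists_traj (Fr : Frame W m C) {ν A M T : ℝ} {μ : ℝ → ℝ} (V : Visc ν μ A M) (hν : 0 < ν)
    (hT : 0 ≤ T) {F : ℝ → K} (hF : ContinuousOn F (Icc 0 T)) [FiniteDimensional ℝ E]
    (hE : E ≤ W.map (LinearMap.fst ℝ H K)) {x0 : H} (hx0 : x0 ∈ E) :
    ∃ (x x' : ℝ → H) (z : ℝ → K), Traj W m μ ν T F E x x' z ∧ x 0 = x0 := by
  set L := gradE W E hE with hL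
  have hLmem : ∀ x : E, ((x : H), L x) ∈ W := fun x => gradE_mem Fr hE x
  have hadj : ∀ (t : ℝ) (x y : E), ⟪vf W m μ ν F E hE t x, y⟫_ℝ
      = ⟪F t - (ν + μ ‖L x‖) • L x + m x, L y⟫_ℝ := by
    intro t x y
    exact ContinuousLinearMap.adjoint_inner_left _ _ _
  obtain ⟨CF, hCF⟩ : ∃ CF : ℝ, ∀ t ∈ Icc 0 T, ‖F t‖ ≤ CF := by
    obtain ⟨B0, h⟩ := (isCompact_Icc.image_of_continuousOn hF).isBounded.exists_norm_le
    exact ⟨B0, fun t ht => h _ ⟨t, ht, rfl⟩⟩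
  have hCF0 : 0 ≤ CF := (norm_nonneg _).trans (hCF 0 ⟨le_rfl, hT⟩)
  have hlip : ∀ R : ℝ, ∃ C : ℝ≥0, ∀ t ∈ Icc 0 T,
      LipschitzOnWith C (vf W m μ ν F E hE t) (closedBall 0 R) := by
    intro R
    rcases lt_or_ge R 0 with hR | hR
    · refine ⟨0, fun t _ => ?_⟩
      rw [closedBall_eq_empty.mpr hR]
      exact LipschitzOnWith.of_dist_le_mul (fun x hx => absurd hx (notMem_empty _))
    obtain ⟨c, hc0, hc⟩ := m_lip Fr hE R hR
    set RL := ‖L‖ * R with hRL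
    have hRL0 : 0 ≤ RL := by positivity
    have hμR : 0 ≤ μ RL := V.nonneg _ hRL0
    have hM := V.M0
    set c1 : ℝ := ‖L.adjoint‖ * ((ν + μ RL + M * RL) * ‖L‖ + c) with hc1
    have hc10 : 0 ≤ c1 := by positivity
    refine ⟨Real.toNNReal c1, fun t _ => LipschitzOnWith.of_dist_le_mul ?_⟩
    intro x hx y hy
    rw [Real.coe_toNNReal _ hc10, dist_eq_norm, dist_eq_norm]
    rw [mem_closedBall_zero_iff] at hx hy
    have e1 : vf W m μ ν F E hE t x - vf W m μ ν F E hE t y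
        = L.adjoint (-((ν + μ ‖L x‖) • L x - (ν + μ ‖L y‖) • L y) + (m x - m y)) := by
      simp only [vf, ← hL]
      rw [← map_sub]
      congr 1
      abel
    have h1 : ‖(ν + μ ‖L x‖) • L x - (ν + μ ‖L y‖) • L y‖
        ≤ (ν + μ RL + M * RL) * (‖L‖ * ‖x - y‖) := by
      refine (stress_lip V hν.le (L x) (L y) (R := RL) ((L.le_opNorm _).trans (by rw [hRL]; gcongr))
        ((L.le_opNorm _).trans (by rw [hRL]; gcongr))).trans ?_
      rw [← map_sub]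
      gcongr
      exact L.le_opNorm _
    rw [e1]
    calc ‖L.adjoint (-((ν + μ ‖L x‖) • L x - (ν + μ ‖L y‖) • L y) + (m x - m y))‖
        ≤ ‖L.adjoint‖ * ‖-((ν + μ ‖L x‖) • L x - (ν + μ ‖L y‖) • L y) + (m x - m y)‖ :=
          ContinuousLinearMap.le_opNorm _ _
      _ ≤ ‖L.adjoint‖ * ((ν + μ RL + M * RL) * (‖L‖ * ‖x - y‖) + c * ‖x - y‖) := by
          gcongr
          refine (norm_add_le _ _).trans ?_
          rw [norm_neg]
          exact add_le_add h1 (hc x y hx hy)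
      _ = c1 * ‖x - y‖ := by rw [hc1]; ring
  have hcont : ∀ x, ContinuousOn (fun t => vf W m μ ν F E hE t x) (Icc 0 T) := by
    intro x
    exact (gradE W E hE).adjoint.continuous.comp_continuousOn
      ((hF.sub continuousOn_const).add continuousOn_const)
  have hen : ∀ t ∈ Icc 0 T, ∀ x, ⟪vf W m μ ν F E hE t x, x⟫_ℝ ≤ CF ^ 2 / (4 * ν) := by
    intro t ht x
    rw [hadj]
    have h1 : ⟪m x, L x⟫_ℝ = 0 := Fr.ortho _ (hLmem x)
    rw [inner_add_left, h1, add_zero, inner_sub_left, inner_smul_left, real_inner_self_eq_norm_sq]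
    simp only [conj_trivial]
    have h2 : ⟪F t, L x⟫_ℝ ≤ CF * ‖L x‖ :=
      (real_inner_le_norm _ _).trans (by gcongr; exact hCF t ht)
    have h3 : 0 ≤ μ ‖L x‖ * ‖L x‖ ^ 2 := mul_nonneg (V.nonneg _ (norm_nonneg _)) (by positivity)
    have h4 : CF * ‖L x‖ - ν * ‖L x‖ ^ 2 ≤ CF ^ 2 / (4 * ν) := by
      rw [le_div_iff₀ (by positivity)]
      nlinarith [sq_nonneg (CF - 2 * ν * ‖L x‖)]
    linarith
  obtain ⟨x, hx0', hx, -⟩ := exists_global (vf W m μ ν F E hE) hT hlip hcont ⟨x0, hx0⟩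
    (by positivity : (0 : ℝ) ≤ CF ^ 2 / (4 * ν)) hen
  have hxc : ContinuousOn x (Icc 0 T) := fun t ht => (hx t ht).continuousWithinAt
  refine ⟨fun t => x t, fun t => vf W m μ ν F E hE t (x t), fun t => L (x t), ?_, ?_⟩
  · constructor
    · intro t _; exact hLmem (x t)
    · intro t _; exact (x t).2
    · intro t _; exact (vf W m μ ν F E hE t (x t)).2
    · intro t ht
      exact (E.subtypeL.hasFDerivAt.comp_hasDerivWithinAt t (hx t ht))
    · -- continuity of the derivative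
      have hzc : ContinuousOn (fun t => L (x t)) (Icc 0 T) := L.continuous.comp_continuousOn hxc
      have hmc : ContinuousOn (fun t => m (x t)) (Icc 0 T) := by
        intro t ht
        obtain ⟨B, hB⟩ := (isCompact_Icc.image_of_continuousOn hxc).isBounded.exists_norm_le
        have hB' : ∀ s ∈ Icc 0 T, ‖x s‖ ≤ B := fun s hs => hB _ ⟨s, hs, rfl⟩
        obtain ⟨c, hc0, hc⟩ := m_lip Fr hE B ((norm_nonneg _).trans (hB' t ht))
        rw [ContinuousWithinAt, tendsto_iff_norm_sub_tendsto_zero]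
        have h1 : Tendsto (fun s => c * ‖x s - x t‖) (𝓝[Icc 0 T] t) (𝓝 (c * 0)) :=
          ((tendsto_iff_norm_sub_tendsto_zero.mp (hxc t ht))).const_mul c
        rw [mul_zero] at h1
        refine squeeze_zero' (Eventually.of_forall fun s => norm_nonneg _) ?_ h1
        filter_upwards [self_mem_nhdsWithin] with s hs
        exact hc _ _ (hB' s hs) (hB' t ht)
      have hμc : ContinuousOn (fun t => μ ‖L (x t)‖) (Icc 0 T) := by
        intro t ht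
        rw [ContinuousWithinAt, tendsto_iff_norm_sub_tendsto_zero]
        have h1 : Tendsto (fun s => M * ‖L (x s) - L (x t)‖) (𝓝[Icc 0 T] t) (𝓝 (M * 0)) :=
          ((tendsto_iff_norm_sub_tendsto_zero.mp (hzc t ht))).const_mul M
        rw [mul_zero] at h1
        refine squeeze_zero' (Eventually.of_forall fun s => norm_nonneg _) ?_ h1
        filter_upwards [self_mem_nhdsWithin] with s hs
        exact (V.lip _ _ (norm_nonneg _) (norm_nonneg _)).trans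
          (mul_le_mul_of_nonneg_left (abs_norm_sub_norm_le _ _) V.M0)
      have h1 : ContinuousOn (fun t => F t - (ν + μ ‖L (x t)‖) • L (x t) + m (x t)) (Icc 0 T) :=
        (hF.sub ((continuousOn_const.add hμc).smul hzc)).add hmc
      exact E.subtypeL.continuous.comp_continuousOn
        ((gradE W E hE).adjoint.continuous.comp_continuousOn h1)
    · exact L.continuous.comp_continuousOn hxc
    · intro t ht φ hφ ψ hψ
      have h1 := hadj t (x t) ⟨φ, hφ⟩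
      have h2 : L ⟨φ, hφ⟩ = ψ := grad_unique Fr (hLmem ⟨φ, hφ⟩) hψ
      rw [h2] at h1
      exact h1
  · show ((x 0 : E) : H) = x0
    rw [hx0']

end galerkin

end H772R2.NSR
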