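import Mathlib

/-!
Integrated differential inequalities.
-/

set_option linter.unusedSectionVars false

open MeasureTheory Set Filter Topology Metric
open scoped InnerProductSpace NNReal

namespace H772R2.NSR

theorem int_le {a b : ℝ} (hab : a ≤ b) {q q' g : ℝ → ℝ}
    (hq : ∀ t ∈ Icc a b, HasDerivWithinAt q (q' t) (Icc a b) t) (hg : ContinuousOn g (Icc a b))
    (hle : ∀ t ∈ Icc a b, q' t ≤ g t) : q b - q a ≤ ∫ t in a..b, g t := by
  refine intervalIntegral.sub_le_integral_of_hasDeriv_right_of_le hab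
    (fun t ht => (hq t ht).continuousWithinAt) (g' := q') ?_ hg.integrableOn_Icc
    (fun t ht => hle t (Ioo_subset_Icc_self ht))
  intro t ht
  exact ((hq t (Ioo_subset_Icc_self ht)).hasDerivAt (Icc_mem_nhds ht.1 ht.2)).hasDerivWithinAt

theorem int_ge {a b : ℝ} (hab : a ≤ b) {q q' g : ℝ → ℝ}
    (hq : ∀ t ∈ Icc a b, HasDerivWithinAt q (q' t) (Icc a b) t) (hg : ContinuousOn g (Icc a b))
    (hle : ∀ t ∈ Icc a b, g t ≤ q' t) : ∫ t in a..b, g t ≤ q b - q a := by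
  have := int_le hab (q := fun t => -q t) (q' := fun t => -q' t) (g := fun t => -g t)
    (fun t ht => (hq t ht).neg) hg.neg (fun t ht => neg_le_neg (hle t ht))
  rw [intervalIntegral.integral_neg] at this
  linarith

theorem int_eq {a b : ℝ} (hab : a ≤ b) {q g : ℝ → ℝ}
    (hq : ∀ t ∈ Icc a b, HasDerivWithinAt q (g t) (Icc a b) t) (hg : ContinuousOn g (Icc a b)) :
    ∫ t in a..b, g t = q b - q a :=
  le_antisymm (int_ge hab hq hg fun _ _ => le_rfl) (int_le hab hq hg fun _ _ => le_rfl)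

theorem hasDerivAt_prim {T : ℝ} {β : ℝ → ℝ} (hβ : ContinuousOn β (Icc 0 T)) {t : ℝ}
    (ht : t ∈ Ioo 0 T) : HasDerivAt (fun t => ∫ s in (0 : ℝ)..t, β s) (β t) t := by
  refine intervalIntegral.integral_hasDerivAt_right ?_ ?_
    (hβ.continuousAt (Icc_mem_nhds ht.1 ht.2))
  · refine ContinuousOn.intervalIntegrable ?_
    rw [uIcc_of_le ht.1.le]
    exact hβ.mono (Icc_subset_Icc_right ht.2.le)
  · exact ContinuousOn.stronglyMeasurableAtFilter isOpen_Ioo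
      (hβ.mono Ioo_subset_Icc_self) t ht

theorem prim_continuousOn {T : ℝ} (hT : 0 ≤ T) {β : ℝ → ℝ} (hβ : ContinuousOn β (Icc 0 T)) :
    ContinuousOn (fun t => ∫ s in (0 : ℝ)..t, β s) (Icc 0 T) := by
  have h := intervalIntegral.continuousOn_primitive_interval (f := β) (μ := volume) (a := 0)
    (b := T) (by rw [uIcc_of_le hT]; exact hβ.integrableOn_Icc)
  rwa [uIcc_of_le hT] at h

theorem ii_of_cont {T : ℝ} {β : ℝ → ℝ} (hβ : ContinuousOn β (Icc 0 T)) {a b : ℝ} (ha : 0 ≤ a)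
    (hab : a ≤ b) (hb : b ≤ T) : IntervalIntegrable β volume a b := by
  refine ContinuousOn.intervalIntegrable ?_
  rw [uIcc_of_le hab]
  exact hβ.mono (Icc_subset_Icc ha hb)

theorem ii_mono {T : ℝ} {β : ℝ → ℝ} (hβ : ContinuousOn β (Icc 0 T)) (h0 : ∀ t ∈ Icc 0 T, 0 ≤ β t)
    {t : ℝ} (ht : t ∈ Icc 0 T) : ∫ s in (0 : ℝ)..t, β s ≤ ∫ s in (0 : ℝ)..T, β s := by
  rw [← intervalIntegral.integral_add_adjacent_intervals (ii_of_cont hβ le_rfl ht.1 ht.2)
    (ii_of_cont hβ ht.1 ht.2 le_rfl)]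
  have : 0 ≤ ∫ s in t..T, β s := intervalIntegral.integral_nonneg ht.2
    (fun s hs => h0 s ⟨ht.1.trans hs.1, hs.2⟩)
  linarith

theorem ii_nonneg {T : ℝ} {β : ℝ → ℝ} (h0 : ∀ t ∈ Icc 0 T, 0 ≤ β t)
    {t : ℝ} (ht : t ∈ Icc 0 T) : 0 ≤ ∫ s in (0 : ℝ)..t, β s :=
  intervalIntegral.integral_nonneg ht.1 (fun s hs => h0 s ⟨hs.1, hs.2.trans ht.2⟩)

/-- Gronwall inequality with a gain. -/
theorem gron {T : ℝ} (hT : 0 ≤ T) {q q' β p r : ℝ → ℝ}
    (hq : ∀ t ∈ Icc 0 T, HasDerivWithinAt q (q' t) (Icc 0 T) t) (hq0 : ∀ t ∈ Icc 0 T, 0 ≤ q t)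
    (hβ : ContinuousOn β (Icc 0 T)) (hβ0 : ∀ t ∈ Icc 0 T, 0 ≤ β t)
    (hp : ContinuousOn p (Icc 0 T)) (hp0 : ∀ t ∈ Icc 0 T, 0 ≤ p t)
    (hr : ContinuousOn r (Icc 0 T)) (hr0 : ∀ t ∈ Icc 0 T, 0 ≤ r t)
    (hle : ∀ t ∈ Icc 0 T, q' t + r t ≤ β t * q t + p t) :
    ∀ t ∈ Icc 0 T, q t + ∫ s in (0 : ℝ)..t, r s
      ≤ Real.exp (∫ s in (0 : ℝ)..T, β s) * (q 0 + ∫ s in (0 : ℝ)..T, p s) := by
  intro t ht
  set B : ℝ → ℝ := fun t => ∫ s in (0 : ℝ)..t, β s with hB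
  have hBc : ContinuousOn B (Icc 0 T) := prim_continuousOn hT hβ
  have hBT : ∀ s ∈ Icc 0 T, B s ≤ B T := fun s hs => ii_mono hβ hβ0 hs
  have hB0 : ∀ s ∈ Icc 0 T, 0 ≤ B s := fun s hs => ii_nonneg hβ0 hs
  have hqc : ContinuousOn q (Icc 0 T) := fun s hs => (hq s hs).continuousWithinAt
  have hsub : Icc 0 t ⊆ Icc 0 T := Icc_subset_Icc_right ht.2
  -- the product
  have key : Real.exp (-B t) * q t - Real.exp (-B 0) * q 0
      ≤ ∫ s in (0 : ℝ)..t, (p s - Real.exp (-B T) * r s) := by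
    refine intervalIntegral.sub_le_integral_of_hasDeriv_right_of_le ht.1
      (g := fun s => Real.exp (-B s) * q s)
      (g' := fun s => Real.exp (-B s) * (-β s) * q s + Real.exp (-B s) * q' s) ?_ ?_ ?_ ?_
    · exact ((Real.continuous_exp.comp_continuousOn hBc.neg).mul hqc).mono hsub
    · intro s hs
      have hs' : s ∈ Ioo 0 T := ⟨hs.1, hs.2.trans_le ht.2⟩
      have h1 : HasDerivAt B (β s) s := hasDerivAt_prim hβ hs'
      have h2 : HasDerivAt q (q' s) s :=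
        (hq s (Ioo_subset_Icc_self hs')).hasDerivAt (Icc_mem_nhds hs'.1 hs'.2)
      exact (h1.neg.exp.mul h2).hasDerivWithinAt
    · exact ((hp.sub (continuousOn_const.mul hr)).mono hsub).integrableOn_Icc
    · intro s hs
      have hs' : s ∈ Icc 0 T := hsub (Ioo_subset_Icc_self hs)
      have h1 := hle s hs'
      have e0 : 0 < Real.exp (-B s) := Real.exp_pos _
      have e1 : Real.exp (-B s) ≤ 1 := Real.exp_le_one_iff.mpr (by linarith [hB0 s hs'])
      have e2 : Real.exp (-B T) ≤ Real.exp (-B s) := Real.exp_le_exp.mpr (by linarith [hBT s hs'])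
      have h2 : Real.exp (-B s) * (q' s - β s * q s) ≤ Real.exp (-B s) * (p s - r s) :=
        mul_le_mul_of_nonneg_left (by linarith) e0.le
      have h3 : Real.exp (-B s) * p s ≤ 1 * p s := by gcongr; exact hp0 s hs'
      have h4 : Real.exp (-B T) * r s ≤ Real.exp (-B s) * r s := by gcongr; exact hr0 s hs'
      nlinarith
  have hBz : B 0 = 0 := by simp [hB]
  rw [hBz, neg_zero, Real.exp_zero, one_mul, intervalIntegral.integral_sub
    (ii_of_cont hp le_rfl ht.1 ht.2) ((ii_of_cont hr le_rfl ht.1 ht.2).const_mul _),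
    intervalIntegral.integral_const_mul] at key
  have h5 := ii_mono hp hp0 ht
  have h6 : Real.exp (-B T) * q t ≤ Real.exp (-B t) * q t := by
    gcongr
    · exact hq0 t ht
    · exact hBT t ht
  have h7 : Real.exp (-B T) * (q t + ∫ s in (0 : ℝ)..t, r s)
      ≤ q 0 + ∫ s in (0 : ℝ)..T, p s := by linarith
  calc q t + ∫ s in (0 : ℝ)..t, r s
      = Real.exp (B T) * (Real.exp (-B T) * (q t + ∫ s in (0 : ℝ)..t, r s)) := by
        rw [← mul_assoc, ← Real.exp_add, add_neg_cancel, Real.exp_zero, one_mul]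
    _ ≤ Real.exp (B T) * (q 0 + ∫ s in (0 : ℝ)..T, p s) := by gcongr

end H772R2.NSR
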