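import Mathlib
import Pool.Agent.H772R2.NSR.Gal
import Pool.Agent.H772R2.NSR.Gron

/-!
Uniform estimates for Galerkin trajectories.
-/

set_option linter.unusedSectionVars false

open MeasureTheory Set Filter Topology Metric
open scoped InnerProductSpace NNReal

namespace H772R2.NSR

variable {H K : Type*} [NormedAddCommGroup H] [InnerProductSpace ℝ H] [CompleteSpace H]
  [NormedAddCommGroup K] [InnerProductSpace ℝ K] [CompleteSpace K]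

variable {W : Submodule ℝ (H × K)} {m : H → K} {C : ℝ} {E : Submodule ℝ H}
  {ν A M T : ℝ} {μ : ℝ → ℝ} {F : ℝ → K} {x x' : ℝ → H} {z : ℝ → K}

/-- Weighted Young inequality. -/
theorem young4 {D X Y κ θ : ℝ} (hD : 0 ≤ D) (hX : 0 ≤ X) (hY : 0 ≤ Y) (hκ : 0 ≤ κ) (hθ : 0 < θ)
    (h : D ^ 4 ≤ κ * X ^ 3 * Y) : D ≤ θ * X + κ * Y / θ ^ 3 := by
  set a := θ * X with ha
  set b := κ * Y / θ ^ 3 with hb
  have ha0 : 0 ≤ a := by positivity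
  have hb0 : 0 ≤ b := by positivity
  have h1 : κ * X ^ 3 * Y = a ^ 3 * b := by rw [ha, hb]; field_simp
  rw [h1] at h
  have h2 : a ^ 3 * b ≤ (a + b) ^ 4 := by
    calc a ^ 3 * b ≤ (a + b) ^ 3 * (a + b) := by gcongr <;> linarith
      _ = (a + b) ^ 4 := by ring
  exact (pow_le_pow_iff_left₀ hD (by positivity) (by norm_num)).mp (h.trans h2)

/-- The monotonicity of the stress. -/
theorem stress_mono (V : Visc ν μ A M) (z w : K) :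
    (ν + μ ‖w‖ / 2) * ‖z - w‖ ^ 2
      ≤ ⟪(ν + μ ‖z‖) • z - (ν + μ ‖w‖) • w, z - w⟫_ℝ := by
  have h1 : 0 ≤ μ ‖z‖ := V.nonneg _ (norm_nonneg _)
  have h2 : 0 ≤ (μ ‖z‖ - μ ‖w‖) * (‖z‖ ^ 2 - ‖w‖ ^ 2) := by
    rcases le_total ‖z‖ ‖w‖ with h | h
    · have := V.mono _ _ (norm_nonneg z) h
      have h3 : ‖z‖ ^ 2 ≤ ‖w‖ ^ 2 := by gcongr
      exact mul_nonneg_of_nonpos_of_nonpos (by linarith) (by linarith)
    · have := V.mono _ _ (norm_nonneg w) h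
      have h3 : ‖w‖ ^ 2 ≤ ‖z‖ ^ 2 := by gcongr
      exact mul_nonneg (by linarith) (by linarith)
  have e1 : ‖z - w‖ ^ 2 = ‖z‖ ^ 2 - 2 * ⟪z, w⟫_ℝ + ‖w‖ ^ 2 := norm_sub_sq_real z w
  have e2 : ⟪(ν + μ ‖z‖) • z - (ν + μ ‖w‖) • w, z - w⟫_ℝ
      = (ν + μ ‖z‖) * ‖z‖ ^ 2 - (ν + μ ‖z‖) * ⟪z, w⟫_ℝ - (ν + μ ‖w‖) * ⟪z, w⟫_ℝ
        + (ν + μ ‖w‖) * ‖w‖ ^ 2 := by
    simp only [inner_sub_left, inner_sub_right, real_inner_smul_left, real_inner_self_eq_norm_sq]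
    rw [real_inner_comm z w]
    ring
  have h4 : 0 ≤ μ ‖z‖ / 2 * ‖z - w‖ ^ 2 := by positivity
  rw [e2]
  rw [e1] at h4 ⊢
  nlinarith

/-- the coefficient in the Gronwall inequality -/
noncomputable def bet (C A : ℝ) (μ : ℝ → ℝ) (s : ℝ) : ℝ := 8 * C ^ 2 * A * (1 + μ s * s ^ 2)

/-- The difference of a Galerkin trajectory at two times. -/
theorem Traj.diff (Fr : Frame W m C) (V : Visc ν μ A M) (hν : 0 < ν)
    (S : Traj W m μ ν T F E x x' z) {a b : ℝ} (ha : a ∈ Icc 0 T) (hb : b ∈ Icc 0 T) :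
    ⟪x' a - x' b, x a - x b⟫_ℝ + ν / 4 * ‖z a - z b‖ ^ 2
      ≤ ‖F a - F b‖ ^ 2 / ν + bet C A μ ‖z b‖ * ‖x a - x b‖ ^ 2 := by
  have hC := Fr.C0
  set w := x a - x b with hw
  set ζ := z a - z b with hζ
  have hwζ : (w, ζ) ∈ W := W.sub_mem (S.mem a ha) (S.mem b hb)
  have hwE : w ∈ E := E.sub_mem (S.memE a ha) (S.memE b hb)
  have e1 := S.eqn a ha w hwE ζ hwζ
  have e2 := S.eqn b hb w hwE ζ hwζ
  have e3 : ⟪x' a - x' b, w⟫_ℝ = ⟪F a - F b, ζ⟫_ℝ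
      - ⟪(ν + μ ‖z a‖) • z a - (ν + μ ‖z b‖) • z b, ζ⟫_ℝ + ⟪m (x a) - m (x b), ζ⟫_ℝ := by
    rw [inner_sub_left, e1, e2]
    simp only [inner_sub_left, inner_add_left]
    ring
  have e4 : ⟪m (x a) - m (x b), ζ⟫_ℝ = -⟪m w, z b⟫_ℝ := Fr.anti _ (S.mem a ha) _ (S.mem b hb)
  have h1 := stress_mono V (z a) (z b)
  rw [← hζ] at h1
  have h2 : ⟪F a - F b, ζ⟫_ℝ ≤ ‖F a - F b‖ * ‖ζ‖ := real_inner_le_norm _ _
  have h3 : ‖F a - F b‖ * ‖ζ‖ ≤ ν / 4 * ‖ζ‖ ^ 2 + ‖F a - F b‖ ^ 2 / ν := by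
    have h : 0 ≤ (ν * ‖ζ‖ / 2 - ‖F a - F b‖) ^ 2 / ν := by positivity
    have e : (ν * ‖ζ‖ / 2 - ‖F a - F b‖) ^ 2 / ν
        = ν / 4 * ‖ζ‖ ^ 2 - ‖F a - F b‖ * ‖ζ‖ + ‖F a - F b‖ ^ 2 / ν := by
      field_simp; ring
    linarith
  have h4 : -⟪m w, z b⟫_ℝ ≤ ‖m w‖ * ‖z b‖ := by
    have := abs_real_inner_le_norm (m w) (z b)
    exact (neg_le_abs _).trans this
  have hμ : 0 ≤ μ ‖z b‖ := V.nonneg _ (norm_nonneg _)
  have h5 : ‖m w‖ * ‖z b‖ ≤ (ν + μ ‖z b‖) / 2 * ‖ζ‖ ^ 2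
      + (C ^ 2 * ‖z b‖ ^ 4) * ‖w‖ ^ 2 / ((ν + μ ‖z b‖) / 2) ^ 3 := by
    refine young4 (by positivity) (by positivity) (by positivity) (by positivity)
      (by positivity) ?_
    have hq := Fr.quart _ hwζ
    simp only at hq
    calc (‖m w‖ * ‖z b‖) ^ 4 = (‖m w‖ ^ 2) ^ 2 * ‖z b‖ ^ 4 := by ring
      _ ≤ (C * (‖w‖ * ‖ζ‖ ^ 3)) ^ 2 * ‖z b‖ ^ 4 := by gcongr
      _ = C ^ 2 * ‖z b‖ ^ 4 * (‖ζ‖ ^ 2) ^ 3 * ‖w‖ ^ 2 := by ring
  have h6 : (C ^ 2 * ‖z b‖ ^ 4) * ‖w‖ ^ 2 / ((ν + μ ‖z b‖) / 2) ^ 3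
      ≤ bet C A μ ‖z b‖ * ‖w‖ ^ 2 := by
    have hk := V.key _ (norm_nonneg (z b))
    have hpos : 0 < (ν + μ ‖z b‖) ^ 3 := by positivity
    have e : (C ^ 2 * ‖z b‖ ^ 4) * ‖w‖ ^ 2 / ((ν + μ ‖z b‖) / 2) ^ 3
        = 8 * C ^ 2 * ‖w‖ ^ 2 * (‖z b‖ ^ 4 / (ν + μ ‖z b‖) ^ 3) := by
      field_simp; ring
    rw [e]
    have h7 : ‖z b‖ ^ 4 / (ν + μ ‖z b‖) ^ 3 ≤ A * (1 + μ ‖z b‖ * ‖z b‖ ^ 2) := by
      rw [div_le_iff₀ hpos]
      calc ‖z b‖ ^ 4 ≤ _ := hk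
        _ = _ := by ring
    calc 8 * C ^ 2 * ‖w‖ ^ 2 * (‖z b‖ ^ 4 / (ν + μ ‖z b‖) ^ 3)
        ≤ 8 * C ^ 2 * ‖w‖ ^ 2 * (A * (1 + μ ‖z b‖ * ‖z b‖ ^ 2)) := by gcongr
      _ = bet C A μ ‖z b‖ * ‖w‖ ^ 2 := by unfold bet; ring
  rw [e3, e4]
  nlinarith

/-- the power balance. -/
theorem Traj.power (Fr : Frame W m C) (S : Traj W m μ ν T F E x x' z) {t : ℝ} (ht : t ∈ Icc 0 T) :
    ⟪x' t, x t⟫_ℝ = ⟪F t, z t⟫_ℝ - (ν + μ ‖z t‖) * ‖z t‖ ^ 2 := by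
  rw [S.eqn t ht _ (S.memE t ht) _ (S.mem t ht), inner_add_left, inner_sub_left,
    Fr.ortho _ (S.mem t ht), real_inner_smul_left, real_inner_self_eq_norm_sq]
  ring

theorem Traj.μcont (V : Visc ν μ A M) (S : Traj W m μ ν T F E x x' z) :
    ContinuousOn (fun t => μ ‖z t‖) (Icc 0 T) := by
  intro t ht
  rw [ContinuousWithinAt, tendsto_iff_norm_sub_tendsto_zero]
  have h1 : Tendsto (fun s => M * ‖z s - z t‖) (𝓝[Icc 0 T] t) (𝓝 (M * 0)) :=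
    ((tendsto_iff_norm_sub_tendsto_zero.mp (S.contz t ht))).const_mul M
  rw [mul_zero] at h1
  refine squeeze_zero' (Eventually.of_forall fun s => norm_nonneg _) ?_ h1
  filter_upwards [self_mem_nhdsWithin] with s hs
  exact (V.lip _ _ (norm_nonneg _) (norm_nonneg _)).trans
    (mul_le_mul_of_nonneg_left (abs_norm_sub_norm_le _ _) V.M0)

theorem Traj.contx (S : Traj W m μ ν T F E x x' z) : ContinuousOn x (Icc 0 T) :=
  fun t ht => (S.deriv t ht).continuousWithinAt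

/-- the energy estimate. -/
theorem Traj.energy (Fr : Frame W m C) (V : Visc ν μ A M) (hν : 0 < ν)
    (hF : ContinuousOn F (Icc 0 T)) (S : Traj W m μ ν T F E x x' z) {t : ℝ} (ht : t ∈ Icc 0 T) :
    ‖x t‖ ^ 2 / 2 + ∫ s in (0 : ℝ)..t, (ν / 2 * ‖z s‖ ^ 2 + μ ‖z s‖ * ‖z s‖ ^ 2)
      ≤ ‖x 0‖ ^ 2 / 2 + (∫ s in (0 : ℝ)..T, ‖F s‖ ^ 2) / (2 * ν) := by
  have hμc := S.μcont V
  have hg : ContinuousOn (fun s => ‖F s‖ ^ 2 / (2 * ν)
      - (ν / 2 * ‖z s‖ ^ 2 + μ ‖z s‖ * ‖z s‖ ^ 2)) (Icc 0 T) :=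
    ((hF.norm.pow 2).div_const _).sub ((continuousOn_const.mul (S.contz.norm.pow 2)).add
      (hμc.mul (S.contz.norm.pow 2)))
  have hsub : Icc 0 t ⊆ Icc 0 T := Icc_subset_Icc_right ht.2
  have h1 := int_le ht.1 (q := fun s => ‖x s‖ ^ 2 / 2) (q' := fun s => ⟪x' s, x s⟫_ℝ)
    (fun s hs => by
      have := ((S.deriv s (hsub hs)).mono hsub).norm_sq.div_const 2
      convert! this using 1
      rw [real_inner_comm]; ring)
    (hg.mono hsub) (fun s hs => by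
      rw [S.power Fr (hsub hs)]
      have h2 : ⟪F s, z s⟫_ℝ ≤ ‖F s‖ * ‖z s‖ := real_inner_le_norm _ _
      have h3 : ‖F s‖ * ‖z s‖ ≤ ν / 2 * ‖z s‖ ^ 2 + ‖F s‖ ^ 2 / (2 * ν) := by
        have h : 0 ≤ (ν * ‖z s‖ - ‖F s‖) ^ 2 / (2 * ν) := by positivity
        have e : (ν * ‖z s‖ - ‖F s‖) ^ 2 / (2 * ν)
            = ν / 2 * ‖z s‖ ^ 2 - ‖F s‖ * ‖z s‖ + ‖F s‖ ^ 2 / (2 * ν) := by
          field_simp; ring
        linarith
      linarith)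
  have hF2 : ContinuousOn (fun s => ‖F s‖ ^ 2) (Icc 0 T) := hF.norm.pow 2
  have hdis : ContinuousOn (fun s => ν / 2 * ‖z s‖ ^ 2 + μ ‖z s‖ * ‖z s‖ ^ 2) (Icc 0 T) :=
    (continuousOn_const.mul (S.contz.norm.pow 2)).add (hμc.mul (S.contz.norm.pow 2))
  rw [intervalIntegral.integral_sub ((ii_of_cont hF2 le_rfl ht.1 ht.2).div_const _)
    (ii_of_cont hdis le_rfl ht.1 ht.2), intervalIntegral.integral_div] at h1
  have h4 := ii_mono hF2 (fun s _ => by positivity) ht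
  have h5 : (∫ s in (0 : ℝ)..t, ‖F s‖ ^ 2) / (2 * ν)
      ≤ (∫ s in (0 : ℝ)..T, ‖F s‖ ^ 2) / (2 * ν) := by gcongr
  linarith

/-- the energy constant. -/
noncomputable def ec (ν T a : ℝ) (F : ℝ → K) : ℝ :=
  a ^ 2 / 2 + (∫ s in (0 : ℝ)..T, ‖F s‖ ^ 2) / (2 * ν)

theorem ec_nonneg (hν : 0 < ν) (hT : 0 ≤ T) (a : ℝ) : 0 ≤ ec ν T a F := by
  unfold ec
  have : 0 ≤ ∫ s in (0 : ℝ)..T, ‖F s‖ ^ 2 :=
    intervalIntegral.integral_nonneg hT (fun s _ => by positivity)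
  positivity

theorem Traj.dissip (Fr : Frame W m C) (V : Visc ν μ A M) (hν : 0 < ν) (hT : 0 ≤ T)
    (hF : ContinuousOn F (Icc 0 T)) (S : Traj W m μ ν T F E x x' z) :
    ∫ s in (0 : ℝ)..T, μ ‖z s‖ * ‖z s‖ ^ 2 ≤ ec ν T ‖x 0‖ F := by
  have hμc := S.μcont V
  have h1 := S.energy Fr V hν hF (t := T) ⟨hT, le_rfl⟩
  have h2 : ∫ s in (0 : ℝ)..T, μ ‖z s‖ * ‖z s‖ ^ 2
      ≤ ∫ s in (0 : ℝ)..T, (ν / 2 * ‖z s‖ ^ 2 + μ ‖z s‖ * ‖z s‖ ^ 2) := by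
    refine intervalIntegral.integral_mono_on hT
      (ii_of_cont (hμc.mul (S.contz.norm.pow 2)) le_rfl hT le_rfl)
      (ii_of_cont ((continuousOn_const.mul (S.contz.norm.pow 2)).add
        (hμc.mul (S.contz.norm.pow 2))) le_rfl hT le_rfl) ?_
    intro s _
    have : 0 ≤ ν / 2 * ‖z s‖ ^ 2 := by positivity
    linarith
  unfold ec
  have : 0 ≤ ‖x T‖ ^ 2 / 2 := by positivity
  linarith

theorem Traj.xbound (Fr : Frame W m C) (V : Visc ν μ A M) (hν : 0 < ν)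
    (hF : ContinuousOn F (Icc 0 T)) (S : Traj W m μ ν T F E x x' z) {t : ℝ} (ht : t ∈ Icc 0 T) :
    ‖x t‖ ^ 2 ≤ 2 * ec ν T ‖x 0‖ F := by
  have h1 := S.energy Fr V hν hF ht
  have h2 : 0 ≤ ∫ s in (0 : ℝ)..t, (ν / 2 * ‖z s‖ ^ 2 + μ ‖z s‖ * ‖z s‖ ^ 2) := by
    refine intervalIntegral.integral_nonneg ht.1 (fun s _ => ?_)
    have := V.nonneg _ (norm_nonneg (z s))
    positivity
  unfold ec
  linarith

/-- the Gronwall constant. -/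
noncomputable def gc (C A T e : ℝ) : ℝ := Real.exp (16 * C ^ 2 * A * (T + e))

/-- The shifted trajectory. -/
theorem Traj.shift (Fr : Frame W m C) (V : Visc ν μ A M) (hν : 0 < ν) (hT : 0 ≤ T)
    (hF : ContinuousOn F (Icc 0 T)) (S : Traj W m μ ν T F E x x' z) {h : ℝ} (hh : 0 < h)
    (hhT : h < T) {t : ℝ} (ht : t ∈ Icc 0 (T - h)) :
    ‖x (t + h) - x t‖ ^ 2 + ∫ s in (0 : ℝ)..t, ν / 2 * ‖z (s + h) - z s‖ ^ 2
      ≤ gc C A T (ec ν T ‖x 0‖ F) * (‖x h - x 0‖ ^ 2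
        + ∫ s in (0 : ℝ)..(T - h), 2 / ν * ‖F (s + h) - F s‖ ^ 2) := by
  have hμc := S.μcont V
  have hTh : 0 ≤ T - h := by linarith
  have hs0 : Icc 0 (T - h) ⊆ Icc 0 T := Icc_subset_Icc_right (by linarith)
  have hs1 : MapsTo (fun s => s + h) (Icc 0 (T - h)) (Icc 0 T) :=
    fun s hs => ⟨by linarith [hs.1], by linarith [hs.2]⟩
  have hzs : ContinuousOn (fun s => z (s + h)) (Icc 0 (T - h)) :=
    S.contz.comp (by fun_prop) hs1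
  have hFs : ContinuousOn (fun s => F (s + h)) (Icc 0 (T - h)) :=
    hF.comp (by fun_prop) hs1
  have hbc : ContinuousOn (fun s => 2 * bet C A μ ‖z s‖) (Icc 0 (T - h)) := by
    unfold bet
    exact (continuousOn_const.mul (continuousOn_const.mul (continuousOn_const.add
      (hμc.mul (S.contz.norm.pow 2))))).mono hs0
  have hC := Fr.C0
  have hA := V.A0
  have hμ0 : ∀ s, 0 ≤ μ ‖z s‖ * ‖z s‖ ^ 2 := fun s =>
    mul_nonneg (V.nonneg _ (norm_nonneg _)) (by positivity)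
  have hbn : ∀ s, 0 ≤ bet C A μ ‖z s‖ := fun s => by
    unfold bet; have := hμ0 s; positivity
  have hg := gron hTh (q := fun s => ‖x (s + h) - x s‖ ^ 2)
    (q' := fun s => 2 * ⟪x (s + h) - x s, x' (s + h) - x' s⟫_ℝ)
    (β := fun s => 2 * bet C A μ ‖z s‖) (p := fun s => 2 / ν * ‖F (s + h) - F s‖ ^ 2)
    (r := fun s => ν / 2 * ‖z (s + h) - z s‖ ^ 2)
    (fun s hs => by
      have d1 : HasDerivWithinAt (fun s => x (s + h)) (x' (s + h)) (Icc 0 (T - h)) s := by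
        have := (S.deriv (s + h) (hs1 hs)).scomp s
          ((hasDerivWithinAt_id s (Icc 0 (T - h))).add_const h) hs1
        rw [one_smul] at this
        exact this
      exact (d1.sub ((S.deriv s (hs0 hs)).mono hs0)).norm_sq)
    (fun s _ => by positivity) hbc (fun s _ => by have := hbn s; positivity)
    (continuousOn_const.mul (((hFs.sub (hF.mono hs0)).norm).pow 2))
    (fun s _ => by positivity)
    (continuousOn_const.mul (((hzs.sub (S.contz.mono hs0)).norm).pow 2))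
    (fun s _ => by positivity)
    (fun s hs => by
      have := S.diff Fr V hν (hs1 hs) (hs0 hs)
      rw [real_inner_comm] at this
      have e1 : 2 / ν * ‖F (s + h) - F s‖ ^ 2 = 2 * (‖F (s + h) - F s‖ ^ 2 / ν) := by ring
      rw [e1]
      linarith) t ht
  simp only [zero_add] at hg
  refine hg.trans ?_
  have hI : ∫ s in (0 : ℝ)..(T - h), 2 * bet C A μ ‖z s‖
      ≤ 16 * C ^ 2 * A * (T + ec ν T ‖x 0‖ F) := by
    have hbc' : ContinuousOn (fun s => 2 * bet C A μ ‖z s‖) (Icc 0 T) := by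
      unfold bet
      exact (continuousOn_const.mul (continuousOn_const.mul (continuousOn_const.add
        (hμc.mul (S.contz.norm.pow 2)))))
    have h1 := ii_mono hbc' (fun s _ => by have := hbn s; positivity) (t := T - h)
      ⟨hTh, by linarith⟩
    have h2 : ∫ s in (0 : ℝ)..T, 2 * bet C A μ ‖z s‖
        = 16 * C ^ 2 * A * (T + ∫ s in (0 : ℝ)..T, μ ‖z s‖ * ‖z s‖ ^ 2) := by
      have e : (fun s => 2 * bet C A μ ‖z s‖)
          = fun s => 16 * C ^ 2 * A * (1 + μ ‖z s‖ * ‖z s‖ ^ 2) := by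
        funext s; unfold bet; ring
      have hii : IntervalIntegrable (fun s => μ ‖z s‖ * ‖z s‖ ^ 2) volume 0 T :=
        ii_of_cont (hμc.mul (S.contz.norm.pow 2)) le_rfl hT le_rfl
      rw [e, intervalIntegral.integral_const_mul, intervalIntegral.integral_add
        intervalIntegrable_const hii]
      simp
    have h3 := S.dissip Fr V hν hT hF
    rw [h2] at h1
    refine h1.trans ?_
    gcongr
  unfold gc
  have hP : 0 ≤ ∫ s in (0 : ℝ)..(T - h), 2 / ν * ‖F (s + h) - F s‖ ^ 2 :=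
    intervalIntegral.integral_nonneg hTh (fun s _ => by positivity)
  gcongr

end H772R2.NSR
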