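import Mathlib
import Pool.Agent.H772R2.NSR.Est

/-!
Uniform estimates for Galerkin trajectories: velocity, gradient, equicontinuity.
-/

set_option linter.unusedSectionVars false

open MeasureTheory Set Filter Topology Metric
open scoped InnerProductSpace NNReal

namespace H772R2.NSR

variable {H K : Type*} [NormedAddCommGroup H] [InnerProductSpace ℝ H] [CompleteSpace H]
  [NormedAddCommGroup K] [InnerProductSpace ℝ K] [CompleteSpace K]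

variable {W : Submodule ℝ (H × K)} {m : H → K} {C : ℝ} {E : Submodule ℝ H}
  {ν A M T : ℝ} {μ : ℝ → ℝ} {F : ℝ → K} {x x' : ℝ → H} {z : ℝ → K}

theorem Traj.slope_tendsto (S : Traj W m μ ν T F E x x' z) {t : ℝ} (ht : t ∈ Ico 0 T) :
    Tendsto (fun h : ℝ => ‖x (t + h) - x t‖ ^ 2 / h ^ 2) (𝓝[>] 0) (𝓝 (‖x' t‖ ^ 2)) := by
  have h1 : HasDerivWithinAt x (x' t) (Ioi t) t :=
    (S.deriv t ⟨ht.1, ht.2.le⟩).mono_of_mem_nhdsWithin (Icc_mem_nhdsGT_of_mem ht)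
  have h2 : Tendsto (slope x t) (𝓝[>] t) (𝓝 (x' t)) :=
    (hasDerivWithinAt_iff_tendsto_slope' (by simp)).mp h1
  have h3 : Tendsto (fun h : ℝ => t + h) (𝓝[>] 0) (𝓝[>] t) := by
    refine tendsto_nhdsWithin_of_tendsto_nhds_of_eventually_within _ ?_ ?_
    · have : Tendsto (fun h : ℝ => t + h) (𝓝 0) (𝓝 (t + 0)) := by
        exact (continuous_const.add continuous_id).tendsto 0
      rw [add_zero] at this
      exact this.mono_left nhdsWithin_le_nhds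
    · filter_upwards [self_mem_nhdsWithin] with h hh
      simp only [mem_Ioi] at hh ⊢
      linarith
  have h4 := ((h2.comp h3).norm.pow 2)
  refine h4.congr' ?_
  filter_upwards [self_mem_nhdsWithin] with h hh
  have hh' : (0 : ℝ) < h := hh
  simp only [Function.comp, _root_.slope, vsub_eq_sub, add_sub_cancel_left, norm_smul, norm_inv,
    Real.norm_eq_abs, abs_of_pos hh']
  rw [mul_pow, inv_pow]
  ring

/-- The velocity bound. -/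
theorem Traj.vel (Fr : Frame W m C) (V : Visc ν μ A M) (hν : 0 < ν) (hT : 0 < T)
    (hF : ContinuousOn F (Icc 0 T)) {Φ : ℝ}
    (hΦ : ∀ h, 0 < h → h < T → ∫ s in (0 : ℝ)..(T - h), ‖F (s + h) - F s‖ ^ 2 ≤ Φ * h ^ 2)
    (S : Traj W m μ ν T F E x x' z) {t : ℝ} (ht : t ∈ Icc 0 T) :
    ‖x' t‖ ^ 2 ≤ gc C A T (ec ν T ‖x 0‖ F) * (‖x' 0‖ ^ 2 + 2 / ν * Φ) := by
  have hgc : 0 < gc C A T (ec ν T ‖x 0‖ F) := Real.exp_pos _
  -- on the half-open interval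
  have hIco : ∀ t ∈ Ico 0 T, ‖x' t‖ ^ 2
      ≤ gc C A T (ec ν T ‖x 0‖ F) * (‖x' 0‖ ^ 2 + 2 / ν * Φ) := by
    intro t ht
    have l1 := S.slope_tendsto ht
    have l2 : Tendsto (fun h : ℝ => gc C A T (ec ν T ‖x 0‖ F)
        * (‖x (0 + h) - x 0‖ ^ 2 / h ^ 2 + 2 / ν * Φ)) (𝓝[>] 0)
        (𝓝 (gc C A T (ec ν T ‖x 0‖ F) * (‖x' 0‖ ^ 2 + 2 / ν * Φ))) :=
      ((S.slope_tendsto (t := 0) ⟨le_rfl, hT⟩).add_const _).const_mul _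
    refine le_of_tendsto_of_tendsto l1 l2 ?_
    have hlt : ∀ᶠ h : ℝ in 𝓝[>] 0, h < T - t := by
      have : Iio (T - t) ∈ 𝓝 (0 : ℝ) := Iio_mem_nhds (by linarith [ht.2])
      exact mem_nhdsWithin_of_mem_nhds this
    filter_upwards [hlt, self_mem_nhdsWithin] with h hh1 hh2
    have hh : (0 : ℝ) < h := hh2
    have hhT : h < T := by linarith [ht.1]
    have k1 := S.shift Fr V hν hT.le hF hh hhT (t := t) ⟨ht.1, by linarith⟩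
    have k2 : 0 ≤ ∫ s in (0 : ℝ)..t, ν / 2 * ‖z (s + h) - z s‖ ^ 2 :=
      intervalIntegral.integral_nonneg ht.1 (fun s _ => by positivity)
    have k3 : ∫ s in (0 : ℝ)..(T - h), 2 / ν * ‖F (s + h) - F s‖ ^ 2 ≤ 2 / ν * (Φ * h ^ 2) := by
      rw [intervalIntegral.integral_const_mul]
      gcongr
      exact hΦ h hh hhT
    rw [zero_add, div_le_iff₀ (by positivity)]
    calc ‖x (t + h) - x t‖ ^ 2
        ≤ gc C A T (ec ν T ‖x 0‖ F) * (‖x h - x 0‖ ^ 2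
          + ∫ s in (0 : ℝ)..(T - h), 2 / ν * ‖F (s + h) - F s‖ ^ 2) := by linarith
      _ ≤ gc C A T (ec ν T ‖x 0‖ F) * (‖x h - x 0‖ ^ 2 + 2 / ν * (Φ * h ^ 2)) := by gcongr
      _ = gc C A T (ec ν T ‖x 0‖ F) * (‖x h - x 0‖ ^ 2 / h ^ 2 + 2 / ν * Φ) * h ^ 2 := by
          field_simp
  rcases eq_or_lt_of_le ht.2 with h | h
  · subst h
    have hc : Tendsto (fun s => ‖x' s‖ ^ 2) (𝓝[<] t) (𝓝 (‖x' t‖ ^ 2)) := by
      have := (S.contx' t ⟨hT.le, le_rfl⟩).norm.pow 2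
      exact this.mono_left (nhdsWithin_le_of_mem (Icc_mem_nhdsLT hT))
    refine le_of_tendsto hc ?_
    filter_upwards [Ioo_mem_nhdsLT hT] with s hs
    exact hIco s ⟨hs.1.le, hs.2⟩
  · exact hIco t ⟨ht.1, h⟩

theorem Traj.vel0 (hE : E ≤ W.map (LinearMap.fst ℝ H K)) (hT : 0 ≤ T)
    (S : Traj W m μ ν T F E x x' z) {h0 : H}
    (hc : ∀ p ∈ W, ⟪F 0 - (ν + μ ‖z 0‖) • z 0 + m (x 0), p.2⟫_ℝ = ⟪h0, p.1⟫_ℝ) :
    ‖x' 0‖ ≤ ‖h0‖ := by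
  have h0T : (0 : ℝ) ∈ Icc 0 T := ⟨le_rfl, hT⟩
  obtain ⟨p, hp, hp1⟩ := hE (S.memE' 0 h0T)
  have hp1' : p.1 = x' 0 := hp1
  have h1 := S.eqn 0 h0T (x' 0) (S.memE' 0 h0T) p.2 (by rw [← hp1']; exact hp)
  rw [hc p hp, hp1', real_inner_self_eq_norm_sq] at h1
  have h2 : ⟪h0, x' 0⟫_ℝ ≤ ‖h0‖ * ‖x' 0‖ := real_inner_le_norm _ _
  rcases eq_or_lt_of_le (norm_nonneg (x' 0)) with h | h
  · rw [← h]; exact norm_nonneg _
  · have : ‖x' 0‖ * ‖x' 0‖ ≤ ‖h0‖ * ‖x' 0‖ := by nlinarith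
    exact le_of_mul_le_mul_right this h

theorem Traj.zbound (Fr : Frame W m C) (V : Visc ν μ A M) (hν : 0 < ν)
    (S : Traj W m μ ν T F E x x' z) {t CF c1 X0 : ℝ} (ht : t ∈ Icc 0 T) (hF : ‖F t‖ ≤ CF)
    (h1 : ‖x' t‖ ≤ c1) (h2 : ‖x t‖ ≤ X0) :
    ‖z t‖ ^ 2 ≤ CF ^ 2 / ν ^ 2 + 2 * (c1 * X0) / ν := by
  have hp := S.power Fr ht
  have k1 : ⟪F t, z t⟫_ℝ ≤ CF * ‖z t‖ :=
    (real_inner_le_norm _ _).trans (by gcongr)
  have k2 : -(c1 * X0) ≤ ⟪x' t, x t⟫_ℝ := by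
    have := abs_real_inner_le_norm (x' t) (x t)
    have h3 : ‖x' t‖ * ‖x t‖ ≤ c1 * X0 := by
      have : 0 ≤ c1 := (norm_nonneg _).trans h1
      gcongr
    have h4 := neg_abs_le ⟪x' t, x t⟫_ℝ
    linarith
  have k3 : 0 ≤ μ ‖z t‖ * ‖z t‖ ^ 2 := mul_nonneg (V.nonneg _ (norm_nonneg _)) (by positivity)
  have k4 : ν * ‖z t‖ ^ 2 ≤ CF * ‖z t‖ + c1 * X0 := by nlinarith
  have k5 : CF * ‖z t‖ ≤ ν / 2 * ‖z t‖ ^ 2 + CF ^ 2 / (2 * ν) := by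
    have h : 0 ≤ (ν * ‖z t‖ - CF) ^ 2 / (2 * ν) := by positivity
    have e : (ν * ‖z t‖ - CF) ^ 2 / (2 * ν)
        = ν / 2 * ‖z t‖ ^ 2 - CF * ‖z t‖ + CF ^ 2 / (2 * ν) := by field_simp; ring
    linarith
  have e : CF ^ 2 / ν ^ 2 + 2 * (c1 * X0) / ν = (CF ^ 2 / (2 * ν) + c1 * X0) / (ν / 2) := by
    field_simp
  rw [e, le_div_iff₀ (by positivity)]
  linarith

theorem Traj.lipx (S : Traj W m μ ν T F E x x' z) {c1 : ℝ} (h1 : ∀ t ∈ Icc 0 T, ‖x' t‖ ≤ c1)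
    {a b : ℝ} (ha : a ∈ Icc 0 T) (hb : b ∈ Icc 0 T) : ‖x a - x b‖ ≤ c1 * |a - b| := by
  wlog hab : b ≤ a generalizing a b
  · rw [norm_sub_rev, abs_sub_comm]
    exact this hb ha (le_of_not_ge hab)
  have hsub : Icc b a ⊆ Icc 0 T := Icc_subset_Icc hb.1 ha.2
  have := norm_image_sub_le_of_norm_deriv_le_segment' (f := x) (f' := x') (C := c1)
    (fun s hs => (S.deriv s (hsub hs)).mono hsub) (fun s hs => h1 s (hsub (Ico_subset_Icc_self hs)))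
    a ⟨hab, le_rfl⟩
  rwa [abs_of_nonneg (by linarith)]

theorem bet_mono (V : Visc ν μ A M) {s t : ℝ} (hs : 0 ≤ s) (hst : s ≤ t) :
    bet C A μ s ≤ bet C A μ t := by
  have hA := V.A0
  have h1 := V.mono s t hs hst
  have h2 := V.nonneg s hs
  have h3 : 0 ≤ μ t := h2.trans h1
  unfold bet
  gcongr

/-- Equicontinuity of the gradient. -/
theorem Traj.holder (Fr : Frame W m C) (V : Visc ν μ A M) (hν : 0 < ν)
    (S : Traj W m μ ν T F E x x' z) {c1 s1 : ℝ} (h1 : ∀ t ∈ Icc 0 T, ‖x' t‖ ≤ c1)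
    (h2 : ∀ t ∈ Icc 0 T, ‖z t‖ ≤ s1) {a b : ℝ} (ha : a ∈ Icc 0 T) (hb : b ∈ Icc 0 T) :
    ‖z a - z b‖ ^ 2 ≤ 4 / ν * (‖F a - F b‖ ^ 2 / ν + bet C A μ s1 * (c1 * |a - b|) ^ 2
      + 2 * c1 * (c1 * |a - b|)) := by
  have hd := S.diff Fr V hν ha hb
  have hl := S.lipx h1 ha hb
  have k1 : bet C A μ ‖z b‖ * ‖x a - x b‖ ^ 2 ≤ bet C A μ s1 * (c1 * |a - b|) ^ 2 := by
    have hb1 := bet_mono (C := C) V (norm_nonneg _) (h2 b hb)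
    have hb0 : 0 ≤ bet C A μ ‖z b‖ := by
      have := V.nonneg _ (norm_nonneg (z b))
      have hA := V.A0
      unfold bet; positivity
    have hb2 : 0 ≤ bet C A μ s1 := hb0.trans hb1
    gcongr
  have hc1 : 0 ≤ c1 := (norm_nonneg _).trans (h1 a ha)
  have k2 : -(2 * c1 * (c1 * |a - b|)) ≤ ⟪x' a - x' b, x a - x b⟫_ℝ := by
    have h3 := neg_abs_le ⟪x' a - x' b, x a - x b⟫_ℝ
    have h4 := abs_real_inner_le_norm (x' a - x' b) (x a - x b)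
    have h5 : ‖x' a - x' b‖ ≤ 2 * c1 := by
      have := norm_sub_le (x' a) (x' b)
      linarith [h1 a ha, h1 b hb]
    have h6 : ‖x' a - x' b‖ * ‖x a - x b‖ ≤ 2 * c1 * (c1 * |a - b|) := by gcongr
    linarith
  have k3 : ν / 4 * ‖z a - z b‖ ^ 2 ≤ ‖F a - F b‖ ^ 2 / ν + bet C A μ s1 * (c1 * |a - b|) ^ 2
      + 2 * c1 * (c1 * |a - b|) := by linarith
  have e : 4 / ν * (‖F a - F b‖ ^ 2 / ν + bet C A μ s1 * (c1 * |a - b|) ^ 2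
      + 2 * c1 * (c1 * |a - b|)) = (‖F a - F b‖ ^ 2 / ν + bet C A μ s1 * (c1 * |a - b|) ^ 2
      + 2 * c1 * (c1 * |a - b|)) / (ν / 4) := by field_simp
  rw [e, le_div_iff₀ (by positivity)]
  linarith

/-- Time regularity of the gradient. -/
theorem Traj.zshift (Fr : Frame W m C) (V : Visc ν μ A M) (hν : 0 < ν) (hT : 0 < T)
    (hF : ContinuousOn F (Icc 0 T)) {Φ : ℝ}
    (hΦ : ∀ h, 0 < h → h < T → ∫ s in (0 : ℝ)..(T - h), ‖F (s + h) - F s‖ ^ 2 ≤ Φ * h ^ 2)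
    (S : Traj W m μ ν T F E x x' z) {c1 : ℝ} (h1 : ∀ t ∈ Icc 0 T, ‖x' t‖ ≤ c1)
    {h : ℝ} (hh : 0 < h) (hhT : h < T) :
    ∫ s in (0 : ℝ)..(T - h), ‖z (s + h) - z s‖ ^ 2
      ≤ 2 / ν * (gc C A T (ec ν T ‖x 0‖ F) * (c1 ^ 2 + 2 / ν * Φ)) * h ^ 2 := by
  have hgc : 0 < gc C A T (ec ν T ‖x 0‖ F) := Real.exp_pos _
  have k1 := S.shift Fr V hν hT.le hF hh hhT (t := T - h) ⟨by linarith, le_rfl⟩
  have k2 : ∫ s in (0 : ℝ)..(T - h), 2 / ν * ‖F (s + h) - F s‖ ^ 2 ≤ 2 / ν * (Φ * h ^ 2) := by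
    rw [intervalIntegral.integral_const_mul]
    gcongr
    exact hΦ h hh hhT
  have k3 : ‖x h - x 0‖ ^ 2 ≤ (c1 * h) ^ 2 := by
    have := S.lipx h1 (a := h) (b := 0) ⟨hh.le, hhT.le⟩ ⟨le_rfl, hT.le⟩
    rw [sub_zero, abs_of_pos hh] at this
    gcongr
  rw [intervalIntegral.integral_const_mul] at k1
  have k4 : ν / 2 * ∫ s in (0 : ℝ)..(T - h), ‖z (s + h) - z s‖ ^ 2
      ≤ gc C A T (ec ν T ‖x 0‖ F) * ((c1 * h) ^ 2 + 2 / ν * (Φ * h ^ 2)) := by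
    have h2 : 0 ≤ ‖x (T - h + h) - x (T - h)‖ ^ 2 := by positivity
    calc ν / 2 * ∫ s in (0 : ℝ)..(T - h), ‖z (s + h) - z s‖ ^ 2
        ≤ gc C A T (ec ν T ‖x 0‖ F) * (‖x h - x 0‖ ^ 2
          + ∫ s in (0 : ℝ)..(T - h), 2 / ν * ‖F (s + h) - F s‖ ^ 2) := by linarith
      _ ≤ _ := by gcongr
  have e : 2 / ν * (gc C A T (ec ν T ‖x 0‖ F) * (c1 ^ 2 + 2 / ν * Φ)) * h ^ 2
      = gc C A T (ec ν T ‖x 0‖ F) * ((c1 * h) ^ 2 + 2 / ν * (Φ * h ^ 2)) / (ν / 2) := by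
    field_simp
  rw [e, le_div_iff₀ (by positivity)]
  linarith

end H772R2.NSR
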