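import Mathlib
import Pool.Agent.H772R2.NSR.Gron

/-!
Functions with a derivative in `L²`: continuity and difference quotients.
-/

set_option linter.unusedSectionVars false

open MeasureTheory Set Filter Topology Metric
open scoped InnerProductSpace NNReal ENNReal

namespace H772R2.NSR

variable {Y : Type*} [NormedAddCommGroup Y] [InnerProductSpace ℝ Y] [CompleteSpace Y]

theorem int_sq_le {a b : ℝ} (hab : a < b) {g : ℝ → ℝ} (hg : IntervalIntegrable g volume a b)
    (hg2 : IntervalIntegrable (fun s => g s ^ 2) volume a b) :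
    (∫ s in a..b, g s) ^ 2 ≤ (b - a) * ∫ s in a..b, g s ^ 2 := by
  set I := ∫ s in a..b, g s with hI
  set c := I / (b - a) with hc
  have hba : 0 < b - a := by linarith
  have h1 : ∫ s in a..b, (2 * c * g s - c ^ 2) ≤ ∫ s in a..b, g s ^ 2 := by
    refine intervalIntegral.integral_mono_on hab.le ?_ hg2 ?_
    · exact (hg.const_mul _).sub intervalIntegrable_const
    · intro s _
      nlinarith [sq_nonneg (g s - c)]
  rw [intervalIntegral.integral_sub (hg.const_mul _) intervalIntegrable_const,
    intervalIntegral.integral_const_mul, intervalIntegral.integral_const, ← hI, smul_eq_mul] at h1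
  have h2 : 2 * c * I - (b - a) * c ^ 2 = I ^ 2 / (b - a) := by
    rw [hc]; field_simp; ring
  rw [h2, div_le_iff₀ hba] at h1
  linarith

theorem shift_le {T h : ℝ} (hh : 0 < h) {a : ℝ → ℝ} (ha0 : ∀ s, 0 ≤ a s)
    (ha : Integrable a volume) :
    ∫ s in (0 : ℝ)..(T - h), (∫ r in s..(s + h), a r) ≤ h * ∫ r in (0 : ℝ)..T, a r := by
  have hii : ∀ x y, IntervalIntegrable a volume x y := fun x y => ha.intervalIntegrable
  set P : ℝ → ℝ := fun t => ∫ r in (0 : ℝ)..t, a r with hP
  have hPc : Continuous P := intervalIntegral.continuous_primitive hii 0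
  have hPm : ∀ x y, x ≤ y → P x ≤ P y := by
    intro x y hxy
    have : P y - P x = ∫ r in x..y, a r := intervalIntegral.integral_interval_sub_left (hii _ _) (hii _ _)
    have h2 : 0 ≤ ∫ r in x..y, a r := intervalIntegral.integral_nonneg hxy (fun r _ => ha0 r)
    linarith
  have hP0 : P 0 = 0 := by simp [hP]
  have hPi : ∀ x y, IntervalIntegrable P volume x y := fun x y => hPc.intervalIntegrable _ _
  have e1 : ∀ s, ∫ r in s..(s + h), a r = P (s + h) - P s := fun s =>
    (intervalIntegral.integral_interval_sub_left (hii _ _) (hii _ _)).symm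
  have hPs : Continuous (fun s => P (s + h)) := by fun_prop
  simp_rw [e1]
  rw [intervalIntegral.integral_sub (hPs.intervalIntegrable _ _) (hPi _ _),
    intervalIntegral.integral_comp_add_right (fun s => P s), zero_add, sub_add_cancel]
  have e2 : (∫ s in h..T, P s) - ∫ s in (0 : ℝ)..(T - h), P s
      = (∫ s in (T - h)..T, P s) - ∫ s in (0 : ℝ)..h, P s := by
    have k1 := intervalIntegral.integral_add_adjacent_intervals (hPi 0 h) (hPi h T)
    have k2 := intervalIntegral.integral_add_adjacent_intervals (hPi 0 (T - h)) (hPi (T - h) T)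
    linarith
  rw [e2]
  have k3 : ∫ s in (T - h)..T, P s ≤ ∫ s in (T - h)..T, P T := by
    refine intervalIntegral.integral_mono_on (by linarith) (hPi _ _) intervalIntegrable_const ?_
    intro s hs
    exact hPm _ _ hs.2
  have k4 : 0 ≤ ∫ s in (0 : ℝ)..h, P s := by
    refine intervalIntegral.integral_nonneg hh.le (fun s hs => ?_)
    have := hPm 0 s hs.1
    rwa [hP0] at this
  rw [intervalIntegral.integral_const, smul_eq_mul] at k3
  have e3 : T - (T - h) = h := by ring
  rw [e3] at k3
  linarith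

theorem prim_cont {T : ℝ} {F F1 : ℝ → Y}
    (hF1 : MemLp F1 2 (volume.restrict (Ioc 0 T)))
    (hF : ∀ a b, 0 ≤ a → a ≤ b → b ≤ T → F b - F a = ∫ s in a..b, F1 s) :
    ContinuousOn F (Icc 0 T) := by
  have hint : IntegrableOn F1 (Ioc 0 T) volume := by
    have : IsFiniteMeasure (volume.restrict (Ioc 0 T) : Measure ℝ) := by
      rw [isFiniteMeasure_restrict]; simp
    exact hF1.integrable (by norm_num)
  rcases lt_or_ge T 0 with hT | hT
  · rw [Icc_eq_empty (not_le.mpr hT)]; exact continuousOn_empty _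
  have h1 : ContinuousOn (fun t => ∫ s in (0 : ℝ)..t, F1 s) (Icc 0 T) := by
    have hi : IntegrableOn F1 (uIcc 0 T) volume := by
      rw [uIcc_of_le hT, integrableOn_Icc_iff_integrableOn_Ioc]
      exact hint
    have := intervalIntegral.continuousOn_primitive_interval hi
    rwa [uIcc_of_le hT] at this
  refine (h1.add (continuousOn_const (c := F 0))).congr ?_
  intro t ht
  have := hF 0 t le_rfl ht.1 ht.2
  show F t = (∫ s in (0 : ℝ)..t, F1 s) + F 0
  rw [← this]; abel

theorem prim_shift {T : ℝ} {F F1 : ℝ → Y}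
    (hF1 : MemLp F1 2 (volume.restrict (Ioc 0 T)))
    (hF : ∀ a b, 0 ≤ a → a ≤ b → b ≤ T → F b - F a = ∫ s in a..b, F1 s)
    (h : ℝ) (hh : 0 < h) (hhT : h < T) :
    ∫ s in (0 : ℝ)..(T - h), ‖F (s + h) - F s‖ ^ 2
      ≤ (∫ s in (0 : ℝ)..T, ‖F1 s‖ ^ 2) * h ^ 2 := by
  have hT : 0 < T := hh.trans hhT
  have hint : IntegrableOn F1 (Ioc 0 T) volume := by
    have : IsFiniteMeasure (volume.restrict (Ioc 0 T) : Measure ℝ) := by
      rw [isFiniteMeasure_restrict]; simp
    exact hF1.integrable (by norm_num)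
  have hint2 : IntegrableOn (fun s => ‖F1 s‖ ^ 2) (Ioc 0 T) volume :=
    (memLp_two_iff_integrable_sq_norm hF1.aestronglyMeasurable).mp hF1
  set a : ℝ → ℝ := (Ioc 0 T).indicator (fun s => ‖F1 s‖ ^ 2) with ha
  have ha0 : ∀ s, 0 ≤ a s := fun s => indicator_nonneg (fun s _ => by positivity) s
  have hai : Integrable a volume := (integrable_indicator_iff measurableSet_Ioc).mpr hint2
  have hsub : ∀ x y, 0 ≤ x → x ≤ y → y ≤ T → ∫ r in x..y, a r = ∫ r in x..y, ‖F1 r‖ ^ 2 := by
    intro x y hx hxy hy
    rw [intervalIntegral.integral_of_le hxy, intervalIntegral.integral_of_le hxy]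
    refine setIntegral_congr_fun measurableSet_Ioc (fun s hs => ?_)
    simp only [ha]
    rw [indicator_of_mem (Ioc_subset_Ioc hx hy hs)]
  have hFc := prim_cont hF1 hF
  have hs0 : Icc 0 (T - h) ⊆ Icc 0 T := Icc_subset_Icc_right (by linarith)
  have hs1 : MapsTo (fun s => s + h) (Icc 0 (T - h)) (Icc 0 T) :=
    fun s hs => ⟨by linarith [hs.1], by linarith [hs.2]⟩
  have hFs : ContinuousOn (fun s => F (s + h)) (Icc 0 (T - h)) :=
    hFc.comp (by fun_prop) hs1
  have hTh : 0 ≤ T - h := by linarith
  have hL : IntervalIntegrable (fun s => ‖F (s + h) - F s‖ ^ 2) volume 0 (T - h) := by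
    refine ContinuousOn.intervalIntegrable ?_
    rw [uIcc_of_le hTh]
    exact ((hFs.sub (hFc.mono hs0)).norm).pow 2
  have hii : ∀ x y, IntervalIntegrable a volume x y := fun x y => hai.intervalIntegrable
  have hPc : Continuous (fun t => ∫ r in (0 : ℝ)..t, a r) :=
    intervalIntegral.continuous_primitive hii 0
  have e1 : ∀ s, ∫ r in s..(s + h), a r
      = (∫ r in (0 : ℝ)..(s + h), a r) - ∫ r in (0 : ℝ)..s, a r := fun s =>
    (intervalIntegral.integral_interval_sub_left (hii _ _) (hii _ _)).symm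
  have hR : IntervalIntegrable (fun s => h * ∫ r in s..(s + h), a r) volume 0 (T - h) := by
    simp_rw [e1]
    have : Continuous (fun s => h * ((∫ r in (0 : ℝ)..(s + h), a r)
        - ∫ r in (0 : ℝ)..s, a r)) := by
      have h2 : Continuous (fun s => ∫ r in (0 : ℝ)..(s + h), a r) :=
        hPc.comp (by fun_prop : Continuous (fun s : ℝ => s + h))
      exact continuous_const.mul (h2.sub hPc)
    exact this.intervalIntegrable _ _
  calc ∫ s in (0 : ℝ)..(T - h), ‖F (s + h) - F s‖ ^ 2
      ≤ ∫ s in (0 : ℝ)..(T - h), h * ∫ r in s..(s + h), a r := by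
        refine intervalIntegral.integral_mono_on hTh hL hR ?_
        intro s hs
        have hs2 : s + h ≤ T := by linarith [hs.2]
        rw [hsub s (s + h) hs.1 (by linarith) hs2, hF s (s + h) hs.1 (by linarith) hs2]
        have k1 : ‖∫ r in s..(s + h), F1 r‖ ≤ ∫ r in s..(s + h), ‖F1 r‖ :=
          intervalIntegral.norm_integral_le_integral_norm (by linarith)
        have hi1 : IntervalIntegrable (fun r => ‖F1 r‖) volume s (s + h) := by
          rw [intervalIntegrable_iff_integrableOn_Ioc_of_le (by linarith)]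
          exact (hint.mono_set (Ioc_subset_Ioc hs.1 hs2)).norm
        have hi2 : IntervalIntegrable (fun r => ‖F1 r‖ ^ 2) volume s (s + h) := by
          rw [intervalIntegrable_iff_integrableOn_Ioc_of_le (by linarith)]
          exact hint2.mono_set (Ioc_subset_Ioc hs.1 hs2)
        have k2 := int_sq_le (by linarith : s < s + h) hi1 hi2
        rw [add_sub_cancel_left] at k2
        calc ‖∫ r in s..(s + h), F1 r‖ ^ 2 ≤ (∫ r in s..(s + h), ‖F1 r‖) ^ 2 := by gcongr
          _ ≤ _ := k2
    _ = h * ∫ s in (0 : ℝ)..(T - h), ∫ r in s..(s + h), a r := by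
        rw [intervalIntegral.integral_const_mul]
    _ ≤ h * (h * ∫ r in (0 : ℝ)..T, a r) := by
        gcongr
        exact shift_le hh ha0 hai
    _ = (∫ s in (0 : ℝ)..T, ‖F1 s‖ ^ 2) * h ^ 2 := by
        rw [hsub 0 T le_rfl hT.le le_rfl]; ring

end H772R2.NSR
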