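import Mathlib

/-!
Weak limits along ultrafilters, uniform convergence of equicontinuous families.
-/

set_option linter.unusedSectionVars false

open MeasureTheory Set Filter Topology
open scoped InnerProductSpace

namespace H772R2.NSR

variable {H K : Type*} [NormedAddCommGroup H] [InnerProductSpace ℝ H] [CompleteSpace H]
  [NormedAddCommGroup K] [InnerProductSpace ℝ K] [CompleteSpace K] {ι : Type*}

/-- Ultrafilter form of weak compactness of balls in a Hilbert space. -/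
theorem exists_weak_limit (F : Ultrafilter ι) (z : ι → K) (h : ℝ) (hz : ∀ᶠ i in F, ‖z i‖ ≤ h) :
    ∃ z0 : K, ‖z0‖ ≤ h ∧ ∀ y : K, Tendsto (fun i => ⟪z i, y⟫_ℝ) F (𝓝 ⟪z0, y⟫_ℝ) := by
  have hcomp := WeakDual.isCompact_closedBall (𝕜 := ℝ) (E := K) 0 h
  let g : ι → WeakDual ℝ K := fun t => StrongDual.toWeakDual (InnerProductSpace.toDual ℝ K (z t))
  have hmem : (WeakDual.toStrongDual ⁻¹' Metric.closedBall (0 : StrongDual ℝ K) h) ∈ F.map g := by
    rw [Ultrafilter.mem_map]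
    filter_upwards [hz] with t ht
    simp only [mem_preimage, Metric.mem_closedBall, dist_zero_right, g]
    have : ‖InnerProductSpace.toDual ℝ K (z t)‖ = ‖z t‖ := by simp
    simpa using ht
  obtain ⟨x, hx, hFx⟩ := hcomp.ultrafilter_le_nhds (F.map g) (by simpa using hmem)
  refine ⟨(InnerProductSpace.toDual ℝ K).symm (WeakDual.toStrongDual x), ?_, ?_⟩
  · have := hx
    simp only [mem_preimage, Metric.mem_closedBall, dist_zero_right] at this
    simpa using this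
  · intro y
    have h1 : Tendsto g F (𝓝 x) := by
      have : ((F.map g : Ultrafilter (WeakDual ℝ K)) : Filter (WeakDual ℝ K)) ≤ 𝓝 x := hFx
      simpa [Tendsto, Ultrafilter.coe_map] using this
    have h2 : Tendsto (fun t => g t y) F (𝓝 (x y)) := by
      have := (WeakBilin.eval_continuous (topDualPairing ℝ K) y).tendsto x
      exact this.comp h1
    have h3 : x y = ⟪(InnerProductSpace.toDual ℝ K).symm (WeakDual.toStrongDual x), y⟫_ℝ := by
      rw [InnerProductSpace.toDual_symm_apply]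
      rfl
    rw [← h3]
    refine h2.congr (fun t => ?_)
    simp [g, InnerProductSpace.toDual_apply_apply]

/-- A closed subspace of `H × K` is stable under weak limits. -/
theorem mem_of_weak_limit (W : Submodule ℝ (H × K)) (hW : IsClosed (W : Set (H × K)))
    (F : Filter ι) [F.NeBot] (u : ι → H) (z : ι → K) (u0 : H) (z0 : K)
    (hz : ∀ᶠ i in F, (u i, z i) ∈ W)
    (hu : ∀ y : H, Tendsto (fun t => ⟪u t, y⟫_ℝ) F (𝓝 ⟪u0, y⟫_ℝ))
    (hzz : ∀ y : K, Tendsto (fun t => ⟪z t, y⟫_ℝ) F (𝓝 ⟪z0, y⟫_ℝ)) :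
    (u0, z0) ∈ W := by
  by_contra hcon
  obtain ⟨f, c, hfc, hfW⟩ := geometric_hahn_banach_point_closed (W.convex) hW
    (show (u0, z0) ∉ (W : Set (H × K)) from hcon)
  have hf0 : ∀ p ∈ W, f p = 0 := by
    intro p hp
    by_contra hne
    have h1 := hfW (((c - 1) / f p) • p) (W.smul_mem _ hp)
    rw [map_smul, smul_eq_mul, div_mul_cancel₀ _ hne] at h1
    linarith
  have hc0 : c < 0 := by
    have := hfW 0 W.zero_mem
    simpa using this
  let f1 : StrongDual ℝ H := f.comp (ContinuousLinearMap.inl ℝ H K)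
  let f2 : StrongDual ℝ K := f.comp (ContinuousLinearMap.inr ℝ H K)
  let p1 := (InnerProductSpace.toDual ℝ H).symm f1
  let p2 := (InnerProductSpace.toDual ℝ K).symm f2
  have hdec : ∀ (a : H) (b : K), f (a, b) = ⟪a, p1⟫_ℝ + ⟪b, p2⟫_ℝ := by
    intro a b
    have h1 : ⟪a, p1⟫_ℝ = f (a, 0) := by
      rw [real_inner_comm, InnerProductSpace.toDual_symm_apply]
      simp [f1]
    have h2 : ⟪b, p2⟫_ℝ = f (0, b) := by
      rw [real_inner_comm, InnerProductSpace.toDual_symm_apply]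
      simp [f2]
    rw [h1, h2, ← map_add]
    simp
  have hlim : Tendsto (fun t => ⟪u t, p1⟫_ℝ + ⟪z t, p2⟫_ℝ) F (𝓝 (f (u0, z0))) := by
    rw [hdec]
    exact (hu p1).add (hzz p2)
  have hzero : Tendsto (fun t => ⟪u t, p1⟫_ℝ + ⟪z t, p2⟫_ℝ) F (𝓝 0) := by
    refine (tendsto_congr' ?_).mpr (tendsto_const_nhds (x := (0 : ℝ)))
    filter_upwards [hz] with t ht
    rw [← hdec]
    exact hf0 _ ht
  have : f (u0, z0) = 0 := tendsto_nhds_unique hlim hzero
  rw [this] at hfc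
  linarith

/-- weak times strong convergence of inner products. -/
theorem tendsto_inner_weak_strong {F : Filter ι} {a b : ι → K} {a0 b0 : K} {c : ℝ}
    (ha : ∀ᶠ i in F, ‖a i‖ ≤ c) (haw : ∀ y : K, Tendsto (fun i => ⟪a i, y⟫_ℝ) F (𝓝 ⟪a0, y⟫_ℝ))
    (hb : Tendsto b F (𝓝 b0)) : Tendsto (fun i => ⟪a i, b i⟫_ℝ) F (𝓝 ⟪a0, b0⟫_ℝ) := by
  have h1 : Tendsto (fun i => ⟪a i, b i - b0⟫_ℝ) F (𝓝 0) := by
    have h2 : Tendsto (fun i => c * ‖b i - b0‖) F (𝓝 (c * 0)) :=
      (tendsto_iff_norm_sub_tendsto_zero.mp hb).const_mul c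
    rw [mul_zero] at h2
    refine squeeze_zero_norm' ?_ h2
    filter_upwards [ha] with i hi
    calc ‖⟪a i, b i - b0⟫_ℝ‖ ≤ ‖a i‖ * ‖b i - b0‖ := norm_inner_le_norm _ _
      _ ≤ c * ‖b i - b0‖ := by gcongr
  have h3 := h1.add (haw b0)
  rw [zero_add] at h3
  refine h3.congr (fun i => ?_)
  rw [inner_sub_right]; ring

/-- weak convergence and convergence of the norms give strong convergence. -/
theorem tendsto_of_weak_norm {F : Filter ι} {a : ι → K} {a0 : K}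
    (haw : ∀ y : K, Tendsto (fun i => ⟪a i, y⟫_ℝ) F (𝓝 ⟪a0, y⟫_ℝ))
    (hn : Tendsto (fun i => ‖a i‖) F (𝓝 ‖a0‖)) : Tendsto a F (𝓝 a0) := by
  rw [tendsto_iff_norm_sub_tendsto_zero]
  have h1 : Tendsto (fun i => ‖a i - a0‖ ^ 2) F (𝓝 0) := by
    have h2 : Tendsto (fun i => ‖a i‖ ^ 2 - 2 * ⟪a i, a0⟫_ℝ + ‖a0‖ ^ 2) F
        (𝓝 (‖a0‖ ^ 2 - 2 * ⟪a0, a0⟫_ℝ + ‖a0‖ ^ 2)) :=
      ((hn.pow 2).sub ((haw a0).const_mul 2)).add_const _
    have e : ‖a0‖ ^ 2 - 2 * ⟪a0, a0⟫_ℝ + ‖a0‖ ^ 2 = 0 := by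
      rw [real_inner_self_eq_norm_sq]; ring
    rw [e] at h2
    refine h2.congr (fun i => ?_)
    rw [norm_sub_sq_real]
  have h3 := (Real.continuous_sqrt.tendsto 0).comp h1
  rw [Real.sqrt_zero] at h3
  refine h3.congr (fun i => ?_)
  simp only [Function.comp]
  rw [Real.sqrt_sq (norm_nonneg _)]

/-- A uniformly equicontinuous, pointwise convergent family converges uniformly on `[0,T]`. -/
theorem unif {Y : Type*} [NormedAddCommGroup Y] {F : Filter ι} [F.NeBot] {T : ℝ}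
    {f : ι → ℝ → Y} {g : ℝ → Y}
    (heq : ∀ ε : ℝ, 0 < ε → ∃ δ : ℝ, 0 < δ ∧ ∀ i, ∀ a ∈ Icc 0 T, ∀ b ∈ Icc 0 T, |a - b| < δ →
      ‖f i a - f i b‖ ≤ ε)
    (hlim : ∀ t ∈ Icc 0 T, Tendsto (fun i => f i t) F (𝓝 (g t))) :
    (∀ ε : ℝ, 0 < ε → ∀ᶠ i in F, ∀ t ∈ Icc 0 T, ‖f i t - g t‖ ≤ ε) ∧ ContinuousOn g (Icc 0 T) := by
  have hg : ∀ ε : ℝ, 0 < ε → ∃ δ : ℝ, 0 < δ ∧ ∀ a ∈ Icc 0 T, ∀ b ∈ Icc 0 T, |a - b| < δ →
      ‖g a - g b‖ ≤ ε := by
    intro ε hε
    obtain ⟨δ, hδ, h⟩ := heq ε hε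
    refine ⟨δ, hδ, fun a ha b hb hab => ?_⟩
    exact le_of_tendsto ((hlim a ha).sub (hlim b hb)).norm
      (Eventually.of_forall fun i => h i a ha b hb hab)
  constructor
  · intro ε hε
    obtain ⟨δ1, hδ1, h1⟩ := heq (ε / 3) (by positivity)
    obtain ⟨δ2, hδ2, h2⟩ := hg (ε / 3) (by positivity)
    set δ := min δ1 δ2 with hδ
    have hδ0 : 0 < δ := lt_min hδ1 hδ2
    obtain ⟨t, htI, htfin, htcov⟩ : ∃ t ⊆ Icc (0 : ℝ) T, t.Finite ∧
        Icc (0 : ℝ) T ⊆ ⋃ y ∈ t, Metric.ball y δ :=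
      (isCompact_Icc (a := (0 : ℝ)) (b := T)).finite_cover_balls hδ0
    have hev : ∀ᶠ i in F, ∀ s ∈ t, ‖f i s - g s‖ ≤ ε / 3 := by
      rw [eventually_all_finite htfin]
      intro s hs
      have := (tendsto_iff_norm_sub_tendsto_zero.mp (hlim s (htI hs)))
      have h3 := this.eventually (gt_mem_nhds (show (0 : ℝ) < ε / 3 by positivity))
      filter_upwards [h3] with i hi using hi.le
    filter_upwards [hev] with i hi s hs
    obtain ⟨y, hy, hsy⟩ := mem_iUnion₂.mp (htcov hs)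
    have hd : |s - y| < δ := by rwa [Metric.mem_ball, Real.dist_eq] at hsy
    have k1 := h1 i s hs y (htI hy) (hd.trans_le (min_le_left _ _))
    have k2 := h2 s hs y (htI hy) (hd.trans_le (min_le_right _ _))
    have k3 := hi y hy
    calc ‖f i s - g s‖ = ‖(f i s - f i y) + (f i y - g y) - (g s - g y)‖ := by congr 1; abel
      _ ≤ ‖(f i s - f i y) + (f i y - g y)‖ + ‖g s - g y‖ := norm_sub_le _ _
      _ ≤ ‖f i s - f i y‖ + ‖f i y - g y‖ + ‖g s - g y‖ := by gcongr; exact norm_add_le _ _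
      _ ≤ ε / 3 + ε / 3 + ε / 3 := by gcongr
      _ = ε := by ring
  · intro t ht
    rw [Metric.continuousWithinAt_iff]
    intro ε hε
    obtain ⟨δ, hδ, h⟩ := hg (ε / 2) (by positivity)
    refine ⟨δ, hδ, fun s hs hst => ?_⟩
    rw [dist_eq_norm]
    rw [Real.dist_eq] at hst
    have := h s hs t ht hst
    linarith

/-- Convergence of the integrals of uniformly convergent functions. -/
theorem tendsto_int {F : Filter ι} {a b : ℝ} (hab : a ≤ b) {f : ι → ℝ → ℝ} {g : ℝ → ℝ}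
    (hf : ∀ i, ContinuousOn (f i) (Icc a b)) (hg : ContinuousOn g (Icc a b))
    (hu : ∀ ε : ℝ, 0 < ε → ∀ᶠ i in F, ∀ t ∈ Icc a b, |f i t - g t| ≤ ε) :
    Tendsto (fun i => ∫ t in a..b, f i t) F (𝓝 (∫ t in a..b, g t)) := by
  rw [Metric.tendsto_nhds]
  intro ε hε
  have hpos : 0 < ε / (2 * (b - a + 1)) := by
    have : 0 < b - a + 1 := by linarith
    positivity
  filter_upwards [hu _ hpos] with i hi
  have ii : ∀ {k : ℝ → ℝ}, ContinuousOn k (Icc a b) → IntervalIntegrable k volume a b :=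
    fun hk => ContinuousOn.intervalIntegrable (by rwa [uIcc_of_le hab])
  rw [Real.dist_eq, ← intervalIntegral.integral_sub (ii (hf i)) (ii hg)]
  have h1 := intervalIntegral.norm_integral_le_of_norm_le_const (a := a) (b := b)
    (f := fun t => f i t - g t) (C := ε / (2 * (b - a + 1))) (fun t ht => by
      rw [uIoc_of_le hab] at ht
      exact hi t (Ioc_subset_Icc_self ht))
  rw [Real.norm_eq_abs, abs_of_nonneg (by linarith : 0 ≤ b - a)] at h1
  refine h1.trans_lt ?_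
  have hb : 0 < b - a + 1 := by linarith
  rw [div_mul_eq_mul_div, div_lt_iff₀ (by positivity)]
  nlinarith

end H772R2.NSR
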