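import Mathlib
import Pool.Agent.H772R2.NSR.Weak

/-!
Joint (continuous) convergence of families of functions.
-/

set_option linter.unusedSectionVars false

open MeasureTheory Set Filter Topology Metric
open scoped InnerProductSpace NNReal

namespace H772R2.NSR

variable {ι : Type*} {F : Filter ι} [F.NeBot]

/-- joint convergence from equicontinuity and pointwise convergence. -/
theorem joint_of_equi {Y : Type*} [NormedAddCommGroup Y] {T : ℝ} {f : ι → ℝ → Y} {g : ℝ → Y}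
    (heq : ∀ ε : ℝ, 0 < ε → ∃ δ : ℝ, 0 < δ ∧ ∀ i, ∀ a ∈ Icc 0 T, ∀ b ∈ Icc 0 T, |a - b| < δ →
      ‖f i a - f i b‖ ≤ ε)
    {t : ℝ} (ht : t ∈ Icc 0 T) (hlim : Tendsto (fun i => f i t) F (𝓝 (g t))) :
    Tendsto (fun p : ι × ℝ => f p.1 p.2) (F ×ˢ 𝓝[Icc 0 T] t) (𝓝 (g t)) := by
  rw [Metric.tendsto_nhds]
  intro ε hε
  obtain ⟨δ, hδ, h1⟩ := heq (ε / 3) (by positivity)
  have h2 : ∀ᶠ i in F, ‖f i t - g t‖ < ε / 3 :=
    (tendsto_iff_norm_sub_tendsto_zero.mp hlim).eventually (gt_mem_nhds (by positivity))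
  have h3 : ∀ᶠ s in 𝓝[Icc 0 T] t, s ∈ Icc 0 T ∧ |s - t| < δ := by
    filter_upwards [self_mem_nhdsWithin, mem_nhdsWithin_of_mem_nhds (Metric.ball_mem_nhds t hδ)]
      with s k1 k2
    exact ⟨k1, by rwa [Metric.mem_ball, Real.dist_eq] at k2⟩
  filter_upwards [h2.prod_mk h3] with p hp
  rw [dist_eq_norm]
  have k1 := h1 p.1 p.2 hp.2.1 t ht hp.2.2
  calc ‖f p.1 p.2 - g t‖ = ‖(f p.1 p.2 - f p.1 t) + (f p.1 t - g t)‖ := by congr 1; abel
    _ ≤ ‖f p.1 p.2 - f p.1 t‖ + ‖f p.1 t - g t‖ := norm_add_le _ _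
    _ < ε := by linarith [hp.1]

theorem joint_cont {Y : Type*} [NormedAddCommGroup Y] {a b : ℝ} {f : ι → ℝ → Y} {g : ℝ → Y}
    (h : ∀ t ∈ Icc a b, Tendsto (fun p : ι × ℝ => f p.1 p.2) (F ×ˢ 𝓝[Icc a b] t) (𝓝 (g t))) :
    ContinuousOn g (Icc a b) := by
  intro t ht
  rw [ContinuousWithinAt, Metric.tendsto_nhds]
  intro ε hε
  have h1 := (Metric.tendsto_nhds.mp (h t ht)) (ε / 2) (by positivity)
  rw [Filter.eventually_prod_iff] at h1
  obtain ⟨p, hp, q, hq, hpq⟩ := h1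
  filter_upwards [hq, self_mem_nhdsWithin] with s hs hsI
  have h2 : Tendsto (fun i => f i s) F (𝓝 (g s)) := by
    have h3 : Tendsto (fun i => (i, s)) F (F ×ˢ 𝓝[Icc a b] s) :=
      tendsto_id.prodMk (tendsto_nhdsWithin_iff.mpr
        ⟨tendsto_const_nhds, Eventually.of_forall fun _ => hsI⟩)
    exact (h s hsI).comp h3
  have h4 : Tendsto (fun i => dist (f i s) (g t)) F (𝓝 (dist (g s) (g t))) :=
    h2.dist tendsto_const_nhds
  have h5 : dist (g s) (g t) ≤ ε / 2 := by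
    refine le_of_tendsto h4 ?_
    filter_upwards [hp] with i hi
    exact (hpq hi hs).le
  linarith

theorem joint_int {a b : ℝ} (hab : a ≤ b) {f : ι → ℝ → ℝ} {g : ℝ → ℝ}
    (h : ∀ t ∈ Icc a b, Tendsto (fun p : ι × ℝ => f p.1 p.2) (F ×ˢ 𝓝[Icc a b] t) (𝓝 (g t)))
    (hf : ∀ i, ContinuousOn (f i) (Icc a b)) :
    Tendsto (fun i => ∫ t in a..b, f i t) F (𝓝 (∫ t in a..b, g t)) := by
  have hg := joint_cont h
  refine tendsto_int hab hf hg ?_
  intro ε hε
  refine (isCompact_Icc (a := a) (b := b)).induction_on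
    (p := fun s => ∀ᶠ i in F, ∀ t ∈ s, |f i t - g t| ≤ ε) (by simp)
    (fun s t hst ht => by
      filter_upwards [ht] with i hi r hr using hi r (hst hr))
    (fun s t hs ht => by
      filter_upwards [hs, ht] with i hi1 hi2 r hr
      rcases hr with hr | hr
      · exact hi1 r hr
      · exact hi2 r hr) ?_
  intro t ht
  have h1 := (Metric.tendsto_nhds.mp (h t ht)) (ε / 2) (by positivity)
  rw [Filter.eventually_prod_iff] at h1
  obtain ⟨p, hp, q, hq, hpq⟩ := h1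
  have h2 : ∀ᶠ s in 𝓝[Icc a b] t, dist (g s) (g t) < ε / 2 :=
    (Metric.tendsto_nhds.mp (hg t ht)) (ε / 2) (by positivity)
  refine ⟨{s | q s ∧ dist (g s) (g t) < ε / 2}, hq.and h2, ?_⟩
  filter_upwards [hp] with i hi s hs
  have k1 := hpq hi hs.1
  have k2 := hs.2
  simp only at k1
  rw [Real.dist_eq] at k1 k2
  calc |f i s - g s| = |(f i s - g t) - (g s - g t)| := by congr 1; ring
    _ ≤ |f i s - g t| + |g s - g t| := abs_sub _ _
    _ ≤ ε := by linarith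

end H772R2.NSR
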