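import Mathlib
import Pool.Agent.H772R2.NSR.Est2
import Pool.Agent.H772R2.NSR.Weak

/-!
The limit of Galerkin trajectories.
-/

set_option linter.unusedSectionVars false

open MeasureTheory Set Filter Topology Metric
open scoped InnerProductSpace NNReal

namespace H772R2.NSR

variable {H K : Type*} [NormedAddCommGroup H] [InnerProductSpace ℝ H] [CompleteSpace H]
  [NormedAddCommGroup K] [InnerProductSpace ℝ K] [CompleteSpace K] {ι : Type*}

variable {W : Submodule ℝ (H × K)} {m : H → K} {C : ℝ} {E : ι → Submodule ℝ H}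
  {ν A M T : ℝ} {μ : ℝ → ℝ} {F : ℝ → K} {X X' : ι → ℝ → H} {Z : ι → ℝ → K}

/-- A family of Galerkin trajectories with uniform bounds. -/
structure Fam (W : Submodule ℝ (H × K)) (m : H → K) (μ : ℝ → ℝ) (ν T : ℝ) (F : ℝ → K)
    (E : ι → Submodule ℝ H) (X X' : ι → ℝ → H) (Z : ι → ℝ → K) (c1 s1 : ℝ) : Prop where
  traj : ∀ i, Traj W m μ ν T F (E i) (X i) (X' i) (Z i)
  vel : ∀ i, ∀ t ∈ Icc 0 T, ‖X' i t‖ ≤ c1
  zb : ∀ i, ∀ t ∈ Icc 0 T, ‖Z i t‖ ≤ s1

/-- continuity of `m` along bounded sets -/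
theorem m_tendsto (Fr : Frame W m C) {G : Filter ι} {v : ι → H} {z : ι → K} {v0 : H} {z0 : K}
    {s1 : ℝ} (hz0 : ‖z0‖ ≤ s1) (h0 : (v0, z0) ∈ W) (hz : ∀ᶠ i in G, ‖z i‖ ≤ s1)
    (hW : ∀ᶠ i in G, (v i, z i) ∈ W) (hv : Tendsto v G (𝓝 v0)) :
    Tendsto (fun i => m (v i)) G (𝓝 (m v0)) := by
  rw [tendsto_iff_norm_sub_tendsto_zero] at hv ⊢
  have hs1 : 0 ≤ s1 := (norm_nonneg _).trans hz0
  have hC := Fr.C0
  have h1 : Tendsto (fun i => C * (‖v i - v0‖ * (2 * s1) ^ 3 * (2 * s1) ^ 4)) G (𝓝 0) := by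
    have := ((hv.mul_const ((2 * s1) ^ 3)).mul_const ((2 * s1) ^ 4)).const_mul C
    simpa using this
  have h2 : Tendsto (fun i => ‖m (v i) - m v0‖ ^ 4) G (𝓝 0) := by
    refine squeeze_zero' (Eventually.of_forall fun i => by positivity) ?_ h1
    filter_upwards [hz, hW] with i k1 k2
    have k3 := Fr.lips _ k2 _ h0
    simp only at k3
    refine k3.trans ?_
    have k4 : ‖z i - z0‖ ≤ 2 * s1 := (norm_sub_le _ _).trans (by linarith)
    have k5 : ‖z i‖ + ‖z0‖ ≤ 2 * s1 := by linarith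
    gcongr
  have h3a := (Real.continuous_sqrt.tendsto 0).comp h2
  rw [Real.sqrt_zero] at h3a
  have h3 := (Real.continuous_sqrt.tendsto 0).comp h3a
  rw [Real.sqrt_zero] at h3
  refine h3.congr (fun i => ?_)
  simp only [Function.comp]
  have : ‖m (v i) - m v0‖ ^ 4 = (‖m (v i) - m v0‖ ^ 2) ^ 2 := by ring
  rw [this, Real.sqrt_sq (by positivity), Real.sqrt_sq (by positivity)]

theorem μ_tendsto (V : Visc ν μ A M) {G : Filter ι} {s : ι → ℝ} {s0 : ℝ} (h0 : 0 ≤ s0)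
    (hs : ∀ i, 0 ≤ s i) (h : Tendsto s G (𝓝 s0)) : Tendsto (fun i => μ (s i)) G (𝓝 (μ s0)) := by
  rw [tendsto_iff_norm_sub_tendsto_zero] at h ⊢
  have h1 : Tendsto (fun i => M * ‖s i - s0‖) G (𝓝 0) := by simpa using h.const_mul M
  exact squeeze_zero (fun i => norm_nonneg _) (fun i => V.lip _ _ (hs i) h0) h1

/-- The limit at a fixed time. -/
theorem Fam.ptwise (Fr : Frame W m C) (V : Visc ν μ A M) (hν : 0 < ν) {c1 s1 : ℝ}
    (S : Fam W m μ ν T F E X X' Z c1 s1) (U : Ultrafilter ι)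
    (hE : ∀ p ∈ W, ∀ᶠ i in U, p.1 ∈ E i)
    (hcomp : ∀ R : ℝ, TotallyBounded {v : H | ∃ z, (v, z) ∈ W ∧ ‖z‖ ≤ R})
    {t : ℝ} (ht : t ∈ Icc 0 T) :
    ∃ (u u' : H) (z : K), (u, z) ∈ W ∧ Tendsto (fun i => X i t) U (𝓝 u) ∧
      Tendsto (fun i => Z i t) U (𝓝 z) ∧ ‖u'‖ ≤ c1 ∧
      (∀ y, Tendsto (fun i => ⟪X' i t, y⟫_ℝ) U (𝓝 ⟪u', y⟫_ℝ)) ∧
      ∀ p ∈ W, ⟪u', p.1⟫_ℝ = ⟪F t - (ν + μ ‖z‖) • z + m u, p.2⟫_ℝ := by
  -- strong limit in `H`
  have hK : IsCompact (closure {v : H | ∃ z, (v, z) ∈ W ∧ ‖z‖ ≤ s1}) :=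
    isCompact_iff_totallyBounded_isComplete.mpr
      ⟨(hcomp s1).closure, isClosed_closure.isComplete⟩
  obtain ⟨u, -, hu⟩ := hK.ultrafilter_le_nhds (U.map (fun i => X i t)) (by
    rw [le_principal_iff]
    show _ ∈ Filter.map (fun i => X i t) (U : Filter ι)
    rw [Filter.mem_map]
    refine Filter.univ_mem' (fun i => ?_)
    exact subset_closure ⟨Z i t, (S.traj i).mem t ht, S.zb i t ht⟩)
  have hu' : Tendsto (fun i => X i t) U (𝓝 u) := hu
  -- weak limits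
  obtain ⟨z, hz0, hz⟩ := exists_weak_limit U (fun i => Z i t) s1
    (Eventually.of_forall fun i => S.zb i t ht)
  obtain ⟨w, hw0, hw⟩ := exists_weak_limit U (fun i => X' i t) c1
    (Eventually.of_forall fun i => S.vel i t ht)
  have huz : (u, z) ∈ W := mem_of_weak_limit W Fr.closedW (U : Filter ι) (fun i => X i t)
    (fun i => Z i t) u z (Eventually.of_forall fun i => (S.traj i).mem t ht)
    (fun y => hu'.inner tendsto_const_nhds) hz
  have hm : Tendsto (fun i => m (X i t)) U (𝓝 (m u)) :=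
    m_tendsto Fr hz0 huz (Eventually.of_forall fun i => S.zb i t ht)
      (Eventually.of_forall fun i => (S.traj i).mem t ht) hu'
  -- limit of the norms
  obtain ⟨s0, hs0, hs⟩ := (isCompact_Icc (a := (0 : ℝ)) (b := s1)).ultrafilter_le_nhds
    (U.map (fun i => ‖Z i t‖)) (by
      rw [le_principal_iff]
      show _ ∈ Filter.map (fun i => ‖Z i t‖) (U : Filter ι)
      rw [Filter.mem_map]
      exact Filter.univ_mem' (fun i => ⟨norm_nonneg _, S.zb i t ht⟩))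
  have hs' : Tendsto (fun i => ‖Z i t‖) U (𝓝 s0) := hs
  have hμ : Tendsto (fun i => μ ‖Z i t‖) U (𝓝 (μ s0)) :=
    μ_tendsto V hs0.1 (fun i => norm_nonneg _) hs'
  -- the equation
  have heq : ∀ p ∈ W, ⟪w, p.1⟫_ℝ = ⟪F t - (ν + μ s0) • z + m u, p.2⟫_ℝ := by
    intro p hp
    have l1 := hw p.1
    have l2 : Tendsto (fun i => ⟪F t - (ν + μ ‖Z i t‖) • Z i t + m (X i t), p.2⟫_ℝ) U
        (𝓝 ⟪F t - (ν + μ s0) • z + m u, p.2⟫_ℝ) := by
      simp only [inner_add_left, inner_sub_left, real_inner_smul_left]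
      exact (tendsto_const_nhds.sub ((tendsto_const_nhds.add hμ).mul (hz p.2))).add
        (hm.inner tendsto_const_nhds)
    refine tendsto_nhds_unique l1 (l2.congr' ?_)
    filter_upwards [hE p hp] with i hi
    exact ((S.traj i).eqn t ht p.1 hi p.2 hp).symm
  -- the norms converge
  have hnorm : s0 = ‖z‖ := by
    have k1 : Tendsto (fun i => ⟪X' i t, X i t⟫_ℝ) U (𝓝 ⟪w, u⟫_ℝ) :=
      tendsto_inner_weak_strong (Eventually.of_forall fun i => S.vel i t ht) hw hu'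
    have k2 : Tendsto (fun i => ⟪F t, Z i t⟫_ℝ - (ν + μ ‖Z i t‖) * ‖Z i t‖ ^ 2) U
        (𝓝 (⟪F t, z⟫_ℝ - (ν + μ s0) * s0 ^ 2)) := by
      have k3 : Tendsto (fun i => ⟪F t, Z i t⟫_ℝ) U (𝓝 ⟪F t, z⟫_ℝ) := by
        have := hz (F t)
        simpa only [real_inner_comm] using this
      exact k3.sub ((tendsto_const_nhds.add hμ).mul (hs'.pow 2))
    have k4 : ⟪w, u⟫_ℝ = ⟪F t, z⟫_ℝ - (ν + μ s0) * s0 ^ 2 :=
      tendsto_nhds_unique k1 (k2.congr fun i => ((S.traj i).power Fr ht).symm)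
    have k5 := heq (u, z) huz
    simp only at k5
    rw [inner_add_left, inner_sub_left, real_inner_smul_left, real_inner_self_eq_norm_sq,
      Fr.ortho (u, z) huz] at k5
    have k6 : (ν + μ s0) * s0 ^ 2 = (ν + μ s0) * ‖z‖ ^ 2 := by linarith
    have k7 : 0 < ν + μ s0 := by have := V.nonneg s0 hs0.1; linarith
    have k8 : s0 ^ 2 = ‖z‖ ^ 2 := mul_left_cancel₀ k7.ne' k6
    exact (pow_left_inj₀ hs0.1 (norm_nonneg _) (by norm_num)).mp k8
  rw [hnorm] at hs' heq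
  exact ⟨u, w, z, huz, hu', tendsto_of_weak_norm hz hs', hw0, hw, heq⟩

end H772R2.NSR
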