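import Mathlib
import Pool.Agent.H772R2.NSR.Lim
import Pool.Agent.H772R2.NSR.Joint

/-!
The limit of Galerkin trajectories is a strong solution of the closed-loop equation.
-/

set_option linter.unusedSectionVars false

open MeasureTheory Set Filter Topology Metric
open scoped InnerProductSpace NNReal

namespace H772R2.NSR

variable {H K : Type*} [NormedAddCommGroup H] [InnerProductSpace ℝ H] [CompleteSpace H]
  [NormedAddCommGroup K] [InnerProductSpace ℝ K] [CompleteSpace K] {ι : Type*}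

variable {W : Submodule ℝ (H × K)} {m : H → K} {C : ℝ} {E : ι → Submodule ℝ H}
  {ν A M T : ℝ} {μ : ℝ → ℝ} {F : ℝ → K} {X X' : ι → ℝ → H} {Z : ι → ℝ → K}

/-- Solutions of the closed-loop equation. -/
structure Sln (W : Submodule ℝ (H × K)) (m : H → K) (μ : ℝ → ℝ) (ν T : ℝ) (F : ℝ → K)
    (u u' : ℝ → H) (z : ℝ → K) (c1 c2 e0 : ℝ) : Prop where
  mem : ∀ t ∈ Icc 0 T, (u t, z t) ∈ W
  vel : ∀ t ∈ Icc 0 T, ‖u' t‖ ≤ c1
  lip : ∀ a ∈ Icc 0 T, ∀ b ∈ Icc 0 T, ‖u a - u b‖ ≤ c1 * |a - b|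
  zc : ContinuousOn z (Icc 0 T)
  point : ∀ t ∈ Icc 0 T, ∀ p ∈ W, ⟪u' t, p.1⟫_ℝ = ⟪F t - (ν + μ ‖z t‖) • z t + m (u t), p.2⟫_ℝ
  weak : ∀ p ∈ W, ∀ a b, 0 ≤ a → a ≤ b → b ≤ T →
    ⟪u b - u a, p.1⟫_ℝ = ∫ s in a..b, ⟪F s - (ν + μ ‖z s‖) • z s + m (u s), p.2⟫_ℝ
  zshift : ∀ h, 0 < h → h < T → ∫ s in (0 : ℝ)..(T - h), ‖z (s + h) - z s‖ ^ 2 ≤ c2 * h ^ 2
  dissip : ∫ s in (0 : ℝ)..T, μ ‖z s‖ * ‖z s‖ ^ 2 ≤ e0
  energy : ∀ t ∈ Icc 0 T, ‖u t‖ ^ 2 / 2 + ∫ s in (0 : ℝ)..t, (ν + μ ‖z s‖) * ‖z s‖ ^ 2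
    = ‖u 0‖ ^ 2 / 2 + ∫ s in (0 : ℝ)..t, ⟪F s, z s⟫_ℝ

theorem Fam.equiX {c1 s1 : ℝ} (hc1 : 0 ≤ c1) (S : Fam W m μ ν T F E X X' Z c1 s1) :
    ∀ ε : ℝ, 0 < ε → ∃ δ : ℝ, 0 < δ ∧ ∀ i, ∀ a ∈ Icc 0 T, ∀ b ∈ Icc 0 T, |a - b| < δ →
      ‖X i a - X i b‖ ≤ ε := by
  intro ε hε
  refine ⟨ε / (c1 + 1), by positivity, ?_⟩
  intro i a ha b hb hab
  have h1 := (S.traj i).lipx (S.vel i) ha hb
  rw [lt_div_iff₀ (by positivity)] at hab
  nlinarith [abs_nonneg (a - b)]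

theorem Fam.equiZ (Fr : Frame W m C) (V : Visc ν μ A M) (hν : 0 < ν)
    (hF : ContinuousOn F (Icc 0 T)) {c1 s1 : ℝ}
    (S : Fam W m μ ν T F E X X' Z c1 s1) :
    ∀ ε : ℝ, 0 < ε → ∃ δ : ℝ, 0 < δ ∧ ∀ i, ∀ a ∈ Icc 0 T, ∀ b ∈ Icc 0 T, |a - b| < δ →
      ‖Z i a - Z i b‖ ≤ ε := by
  intro ε hε
  have hcont : Continuous (fun p : ℝ × ℝ => 4 / ν * (p.1 ^ 2 / ν
      + bet C A μ s1 * (c1 * p.2) ^ 2 + 2 * c1 * (c1 * p.2))) := by fun_prop
  have h0 := hcont.tendsto (0, 0)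
  have h1 := (Metric.tendsto_nhds.mp h0) (ε ^ 2) (by positivity)
  obtain ⟨δ1, hδ1, h2⟩ := Metric.eventually_nhds_iff.mp h1
  have hu := isCompact_Icc.uniformContinuousOn_of_continuous hF
  obtain ⟨δ2, hδ2, h3⟩ := (Metric.uniformContinuousOn_iff.mp hu) δ1 hδ1
  refine ⟨min δ1 δ2, lt_min hδ1 hδ2, ?_⟩
  intro i a ha b hb hab
  have k1 := (S.traj i).holder Fr V hν (S.vel i) (S.zb i) ha hb
  have k2 : ‖F a - F b‖ < δ1 := by
    have := h3 a ha b hb (by rw [Real.dist_eq]; exact hab.trans_le (min_le_right _ _))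
    rwa [dist_eq_norm] at this
  have k3 := @h2 (‖F a - F b‖, |a - b|) (by
    rw [Prod.dist_eq, max_lt_iff]
    constructor
    · rw [Real.dist_eq, sub_zero, abs_of_nonneg (norm_nonneg _)]; exact k2
    · rw [Real.dist_eq, sub_zero, abs_abs]; exact hab.trans_le (min_le_left _ _))
  simp only [Real.dist_eq] at k3
  have k4 := (le_abs_self _).trans_lt k3
  have k5 : ‖Z i a - Z i b‖ ^ 2 ≤ ε ^ 2 := by
    simp at k4
    linarith
  exact (pow_le_pow_iff_left₀ (norm_nonneg _) hε.le (by norm_num)).mp k5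

theorem Fam.limit (Fr : Frame W m C) (V : Visc ν μ A M) (hν : 0 < ν) (hT : 0 < T)
    (hF : ContinuousOn F (Icc 0 T)) {Φ : ℝ}
    (hΦ : ∀ h, 0 < h → h < T → ∫ s in (0 : ℝ)..(T - h), ‖F (s + h) - F s‖ ^ 2 ≤ Φ * h ^ 2)
    {c1 s1 : ℝ} (S : Fam W m μ ν T F E X X' Z c1 s1) (U : Ultrafilter ι)
    (hE : ∀ p ∈ W, ∀ᶠ i in U, p.1 ∈ E i)
    (hcomp : ∀ R : ℝ, TotallyBounded {v : H | ∃ z, (v, z) ∈ W ∧ ‖z‖ ≤ R})
    {x0 : H} (hx0 : ∀ i, X i 0 = x0) :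
    ∃ (u u' : ℝ → H) (z : ℝ → K), u 0 = x0 ∧
      Sln W m μ ν T F u u' z c1 (2 / ν * (gc C A T (ec ν T ‖x0‖ F) * (c1 ^ 2 + 2 / ν * Φ)))
        (ec ν T ‖x0‖ F) := by
  have hex : ∀ t : ℝ, ∃ (u u' : H) (z : K), t ∈ Icc 0 T → ((u, z) ∈ W ∧
      Tendsto (fun i => X i t) U (𝓝 u) ∧
      Tendsto (fun i => Z i t) U (𝓝 z) ∧ ‖u'‖ ≤ c1 ∧
      (∀ y, Tendsto (fun i => ⟪X' i t, y⟫_ℝ) U (𝓝 ⟪u', y⟫_ℝ)) ∧
      ∀ p ∈ W, ⟪u', p.1⟫_ℝ = ⟪F t - (ν + μ ‖z‖) • z + m u, p.2⟫_ℝ) := by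
    intro t
    by_cases ht : t ∈ Icc 0 T
    · obtain ⟨u, u', z, h⟩ := S.ptwise Fr V hν U hE hcomp ht
      exact ⟨u, u', z, fun _ => h⟩
    · exact ⟨0, 0, 0, fun h => absurd h ht⟩
  choose u u' z h using hex
  have h0T : (0 : ℝ) ∈ Icc 0 T := ⟨le_rfl, hT.le⟩
  obtain ⟨i0⟩ : Nonempty ι := (U : Filter ι).nonempty_of_neBot
  have hc1 : 0 ≤ c1 := (norm_nonneg _).trans (S.vel i0 0 h0T)
  have hu0 : u 0 = x0 := by
    refine tendsto_nhds_unique (h 0 h0T).2.1 ?_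
    simp only [hx0]
    exact tendsto_const_nhds
  -- joint convergence
  have jX : ∀ t ∈ Icc 0 T, Tendsto (fun p : ι × ℝ => X p.1 p.2) (U ×ˢ 𝓝[Icc 0 T] t) (𝓝 (u t)) :=
    fun t ht => joint_of_equi (S.equiX hc1) ht (h t ht).2.1
  have jZ : ∀ t ∈ Icc 0 T, Tendsto (fun p : ι × ℝ => Z p.1 p.2) (U ×ˢ 𝓝[Icc 0 T] t) (𝓝 (z t)) :=
    fun t ht => joint_of_equi (S.equiZ Fr V hν hF) ht (h t ht).2.2.1
  have hzc : ContinuousOn z (Icc 0 T) := joint_cont jZ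
  have jIn : ∀ t, ∀ᶠ p : ι × ℝ in (U : Filter ι) ×ˢ 𝓝[Icc 0 T] t, p.2 ∈ Icc 0 T := fun t =>
    Filter.tendsto_snd.eventually self_mem_nhdsWithin
  have jM : ∀ t ∈ Icc 0 T, Tendsto (fun p : ι × ℝ => m (X p.1 p.2)) (U ×ˢ 𝓝[Icc 0 T] t)
      (𝓝 (m (u t))) := by
    intro t ht
    have hzt : ‖z t‖ ≤ s1 := le_of_tendsto (h t ht).2.2.1.norm
      (Eventually.of_forall fun i => S.zb i t ht)
    refine m_tendsto Fr (z := fun p : ι × ℝ => Z p.1 p.2) (s1 := s1) hzt (h t ht).1 ?_ ?_ (jX t ht)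
    · filter_upwards [jIn t] with p hp using S.zb p.1 p.2 hp
    · filter_upwards [jIn t] with p hp using (S.traj p.1).mem p.2 hp
  have jμ : ∀ t ∈ Icc 0 T, Tendsto (fun p : ι × ℝ => μ ‖Z p.1 p.2‖) (U ×ˢ 𝓝[Icc 0 T] t)
      (𝓝 (μ ‖z t‖)) := fun t ht =>
    μ_tendsto V (norm_nonneg _) (fun p => norm_nonneg _) (jZ t ht).norm
  have jF : ∀ t ∈ Icc 0 T, Tendsto (fun p : ι × ℝ => F p.2) (U ×ˢ 𝓝[Icc 0 T] t) (𝓝 (F t)) :=
    fun t ht => (hF t ht).tendsto.comp Filter.tendsto_snd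
  -- sub-intervals
  have jsub : ∀ {Y : Type _} [TopologicalSpace Y] {f : ι → ℝ → Y} {g : ℝ → Y} {a b : ℝ},
      0 ≤ a → b ≤ T → (∀ t ∈ Icc 0 T, Tendsto (fun p : ι × ℝ => f p.1 p.2)
        (U ×ˢ 𝓝[Icc 0 T] t) (𝓝 (g t))) → ∀ t ∈ Icc a b,
      Tendsto (fun p : ι × ℝ => f p.1 p.2) (U ×ˢ 𝓝[Icc a b] t) (𝓝 (g t)) := by
    intro Y _ f g a b ha hb hf t ht
    exact (hf t ⟨ha.trans ht.1, ht.2.trans hb⟩).mono_left
      (Filter.prod_mono le_rfl (nhdsWithin_mono _ (Icc_subset_Icc ha hb)))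
  refine ⟨u, u', z, hu0, ?_⟩
  constructor
  · exact fun t ht => (h t ht).1
  · exact fun t ht => (h t ht).2.2.2.1
  · intro a ha b hb
    exact le_of_tendsto ((h a ha).2.1.sub (h b hb).2.1).norm
      (Eventually.of_forall fun i => (S.traj i).lipx (S.vel i) ha hb)
  · exact hzc
  · exact fun t ht => (h t ht).2.2.2.2.2
  · -- weak formulation
    intro p hp a b ha hab hb
    have hIab : Icc a b ⊆ Icc 0 T := Icc_subset_Icc ha hb
    have l1 : Tendsto (fun i => ⟪X i b - X i a, p.1⟫_ℝ) U (𝓝 ⟪u b - u a, p.1⟫_ℝ) :=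
      ((h b ⟨ha.trans hab, hb⟩).2.1.sub (h a ⟨ha, hab.trans hb⟩).2.1).inner tendsto_const_nhds
    have l2 := joint_int (F := (U : Filter ι)) hab
      (f := fun i s => ⟪F s - (ν + μ ‖Z i s‖) • Z i s + m (X i s), p.2⟫_ℝ)
      (g := fun s => ⟪F s - (ν + μ ‖z s‖) • z s + m (u s), p.2⟫_ℝ)
      (jsub (f := fun i s => ⟪F s - (ν + μ ‖Z i s‖) • Z i s + m (X i s), p.2⟫_ℝ)
        (g := fun s => ⟪F s - (ν + μ ‖z s‖) • z s + m (u s), p.2⟫_ℝ) ha hb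
        (fun t ht => (((jF t ht).sub ((tendsto_const_nhds.add (jμ t ht)).smul (jZ t ht))).add
          (jM t ht)).inner tendsto_const_nhds))
      (fun i => ?_)
    · refine tendsto_nhds_unique l1 (l2.congr' ?_)
      filter_upwards [hE p hp] with i hi
      have e1 : ∀ t ∈ Icc a b, HasDerivWithinAt (fun s => ⟪X i s, p.1⟫_ℝ) ⟪X' i t, p.1⟫_ℝ
          (Icc a b) t := by
        intro t ht
        have := (((S.traj i).deriv t (hIab ht)).mono hIab).inner ℝ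
          (hasDerivWithinAt_const t (Icc a b) p.1)
        simpa using this
      have e2 := int_eq hab e1 (((S.traj i).contx'.mono hIab).inner continuousOn_const)
      rw [inner_sub_left, ← e2]
      refine intervalIntegral.integral_congr (fun s hs => ?_)
      rw [uIcc_of_le hab] at hs
      exact ((S.traj i).eqn s (hIab hs) p.1 hi p.2 hp).symm
    · -- continuity
      have hmc : ContinuousOn (fun s => m (X i s)) (Icc 0 T) := by
        intro t ht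
        refine m_tendsto Fr (z := fun s => Z i s) (s1 := s1) (S.zb i t ht)
          ((S.traj i).mem t ht) ?_ ?_ ((S.traj i).contx t ht)
        · filter_upwards [self_mem_nhdsWithin] with s hs using S.zb i s hs
        · filter_upwards [self_mem_nhdsWithin] with s hs using (S.traj i).mem s hs
      exact (((hF.sub ((continuousOn_const.add ((S.traj i).μcont V)).smul (S.traj i).contz)).add
        hmc).inner continuousOn_const).mono hIab
  · -- time shifts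
    intro r hr hrT
    have hTr : 0 ≤ T - r := by linarith
    have hs1 : MapsTo (fun s => s + r) (Icc 0 (T - r)) (Icc 0 T) :=
      fun s hs => ⟨by linarith [hs.1], by linarith [hs.2]⟩
    have jZr : ∀ t ∈ Icc 0 (T - r), Tendsto (fun p : ι × ℝ => Z p.1 (p.2 + r))
        (U ×ˢ 𝓝[Icc 0 (T - r)] t) (𝓝 (z (t + r))) := by
      intro t ht
      have k1 : Tendsto (fun s : ℝ => s + r) (𝓝[Icc 0 (T - r)] t) (𝓝[Icc 0 T] (t + r)) :=
        tendsto_nhdsWithin_of_tendsto_nhds_of_eventually_within _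
          (((continuous_id.add continuous_const).tendsto t).mono_left nhdsWithin_le_nhds)
          (by filter_upwards [self_mem_nhdsWithin] with s hs using hs1 hs)
      exact (jZ (t + r) (hs1 ht)).comp ((tendsto_id (x := (U : Filter ι))).prodMap k1)
    have jZ2 : ∀ t ∈ Icc 0 (T - r), Tendsto (fun p : ι × ℝ => Z p.1 p.2)
        (U ×ˢ 𝓝[Icc 0 (T - r)] t) (𝓝 (z t)) := fun t ht =>
      (jZ t ⟨ht.1, by linarith [ht.2]⟩).mono_left
        (Filter.prod_mono le_rfl (nhdsWithin_mono _ (Icc_subset_Icc_right (by linarith))))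
    have l1 := joint_int (F := (U : Filter ι)) hTr
      (f := fun i s => ‖Z i (s + r) - Z i s‖ ^ 2) (g := fun s => ‖z (s + r) - z s‖ ^ 2)
      (fun t ht => (((jZr t ht).sub (jZ2 t ht)).norm).pow 2)
      (fun i => ((((S.traj i).contz.comp (by fun_prop) hs1).sub ((S.traj i).contz.mono
        (Icc_subset_Icc_right (by linarith)))).norm).pow 2)
    refine le_of_tendsto l1 (Eventually.of_forall fun i => ?_)
    have := (S.traj i).zshift Fr V hν hT hF hΦ (S.vel i) hr hrT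
    rwa [hx0 i] at this
  · -- dissipation
    have l1 := joint_int (F := (U : Filter ι)) hT.le
      (f := fun i s => μ ‖Z i s‖ * ‖Z i s‖ ^ 2) (g := fun s => μ ‖z s‖ * ‖z s‖ ^ 2)
      (fun t ht => (jμ t ht).mul ((jZ t ht).norm.pow 2))
      (fun i => ((S.traj i).μcont V).mul ((S.traj i).contz.norm.pow 2))
    refine le_of_tendsto l1 (Eventually.of_forall fun i => ?_)
    have := (S.traj i).dissip Fr V hν hT.le hF
    rwa [hx0 i] at this
  · -- energy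
    intro t ht
    have l1 := joint_int (F := (U : Filter ι)) ht.1
      (f := fun i s => (ν + μ ‖Z i s‖) * ‖Z i s‖ ^ 2) (g := fun s => (ν + μ ‖z s‖) * ‖z s‖ ^ 2)
      (jsub (f := fun i s => (ν + μ ‖Z i s‖) * ‖Z i s‖ ^ 2)
        (g := fun s => (ν + μ ‖z s‖) * ‖z s‖ ^ 2) le_rfl ht.2
        (fun t ht => (tendsto_const_nhds.add (jμ t ht)).mul ((jZ t ht).norm.pow 2)))
      (fun i => ((continuousOn_const.add ((S.traj i).μcont V)).mul
        ((S.traj i).contz.norm.pow 2)).mono (Icc_subset_Icc_right ht.2))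
    have l2 := joint_int (F := (U : Filter ι)) ht.1
      (f := fun i s => ⟪F s, Z i s⟫_ℝ) (g := fun s => ⟪F s, z s⟫_ℝ)
      (jsub (f := fun i s => ⟪F s, Z i s⟫_ℝ)
        (g := fun s => ⟪F s, z s⟫_ℝ) le_rfl ht.2
        (fun t ht => (jF t ht).inner (jZ t ht)))
      (fun i => (hF.inner (S.traj i).contz).mono (Icc_subset_Icc_right ht.2))
    have l3 : Tendsto (fun i => ‖X i t‖ ^ 2 / 2) U (𝓝 (‖u t‖ ^ 2 / 2)) :=
      ((h t ht).2.1.norm.pow 2).div_const 2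
    have l4 := l3.add l1
    have l5 := (tendsto_const_nhds (x := ‖x0‖ ^ 2 / 2) (f := (U : Filter ι))).add l2
    rw [hu0]
    refine tendsto_nhds_unique l4 (l5.congr fun i => ?_)
    have hsub : Icc 0 t ⊆ Icc 0 T := Icc_subset_Icc_right ht.2
    have e1 := int_eq ht.1 (q := fun s => ‖X i s‖ ^ 2 / 2)
      (g := fun s => ⟪F s, Z i s⟫_ℝ - (ν + μ ‖Z i s‖) * ‖Z i s‖ ^ 2) (fun s hs => by
        have := (((S.traj i).deriv s (hsub hs)).mono hsub).norm_sq.div_const 2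
        convert! this using 1
        rw [← (S.traj i).power Fr (hsub hs), real_inner_comm]; ring)
      (((hF.inner (S.traj i).contz).sub ((continuousOn_const.add ((S.traj i).μcont V)).mul
        ((S.traj i).contz.norm.pow 2))).mono hsub)
    have i1 : IntervalIntegrable (fun s => ⟪F s, Z i s⟫_ℝ) volume 0 t :=
      ii_of_cont (hF.inner (S.traj i).contz) le_rfl ht.1 ht.2
    have i2 : IntervalIntegrable (fun s => (ν + μ ‖Z i s‖) * ‖Z i s‖ ^ 2) volume 0 t :=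
      ii_of_cont ((continuousOn_const.add ((S.traj i).μcont V)).mul
        ((S.traj i).contz.norm.pow 2)) le_rfl ht.1 ht.2
    rw [intervalIntegral.integral_sub i1 i2, hx0 i] at e1
    linarith

end H772R2.NSR
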