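import Mathlib
import Pool.Agent.H772R2.NSR.Weak

/-!
Functions with bounded difference quotients in `L²` have a derivative in `L²`.
-/

set_option linter.unusedSectionVars false

open MeasureTheory Set Filter Topology
open scoped InnerProductSpace ENNReal

namespace H772R2.NSR

variable {Y : Type*} [NormedAddCommGroup Y] [InnerProductSpace ℝ Y] [CompleteSpace Y]

theorem slope_prim {g : ℝ → Y} (hg : Continuous g) (b : ℝ) {h : ℕ → ℝ} (hpos : ∀ n, 0 < h n)
    (hlim : Tendsto h atTop (𝓝 0)) :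
    Tendsto (fun n => (h n)⁻¹ • ((∫ s in (0 : ℝ)..(b + h n), g s) - ∫ s in (0 : ℝ)..b, g s)) atTop
      (𝓝 (g b)) := by
  have h1 : HasDerivAt (fun t => ∫ s in (0 : ℝ)..t, g s) (g b) b :=
    intervalIntegral.integral_hasDerivAt_right (hg.intervalIntegrable _ _)
      (hg.stronglyMeasurableAtFilter _ _) hg.continuousAt
  have h2 := hasDerivAt_iff_tendsto_slope_zero.mp h1
  have h3 : Tendsto h atTop (𝓝[≠] 0) := tendsto_nhdsWithin_of_tendsto_nhds_of_eventually_within _
    hlim (Eventually.of_forall fun n => (hpos n).ne')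
  exact h2.comp h3

theorem exists_weak_deriv {T : ℝ} (hT : 0 < T) {g : ℝ → Y} (hg : Continuous g) {c : ℝ}
    (hc : ∀ h, 0 < h → h < T → ∫ s in (0 : ℝ)..(T - h), ‖g (s + h) - g s‖ ^ 2 ≤ c * h ^ 2) :
    ∃ D : Lp Y 2 (volume.restrict (Ioc 0 T)), ∀ a b, 0 ≤ a → a ≤ b → b ≤ T →
      g b - g a = ∫ s in a..b, D s := by
  set μ0 : Measure ℝ := volume.restrict (Ioc 0 T) with hμ0
  let h : ℕ → ℝ := fun n => T / (n + 2)
  have hpos : ∀ n, 0 < h n := fun n => by positivity
  have hltT : ∀ n, h n < T := fun n => by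
    show T / ((n : ℝ) + 2) < T
    rw [div_lt_iff₀ (by positivity)]
    nlinarith [(Nat.cast_nonneg n : (0 : ℝ) ≤ n)]
  have hlim : Tendsto h atTop (𝓝 0) := by
    have h1 : Tendsto (fun n : ℕ => (n : ℝ) + 2) atTop atTop :=
      tendsto_atTop_add_const_right _ _ tendsto_natCast_atTop_atTop
    exact h1.const_div_atTop T
  -- difference quotients
  let q : ℕ → ℝ → Y := fun n =>
    (Ioc 0 (T - h n)).indicator (fun s => (h n)⁻¹ • (g (s + h n) - g s))
  have hqc : ∀ n, Continuous (fun s => (h n)⁻¹ • (g (s + h n) - g s)) := fun n => by fun_prop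
  have hmem : ∀ n, MemLp (q n) 2 μ0 := by
    intro n
    refine MemLp.indicator measurableSet_Ioc ?_
    obtain ⟨B, hB⟩ := ((isCompact_Icc (a := (0 : ℝ)) (b := T)).image (hqc n)).isBounded.exists_norm_le
    refine MemLp.of_bound (hqc n).aestronglyMeasurable B ?_
    filter_upwards [ae_restrict_mem measurableSet_Ioc] with s hs
    exact hB _ ⟨s, Ioc_subset_Icc_self hs, rfl⟩
  let D : ℕ → Lp Y 2 μ0 := fun n => (hmem n).toLp
  have hDcoe : ∀ n, D n =ᵐ[μ0] q n := fun n => (hmem n).coeFn_toLp
  have hnorm : ∀ n, ‖D n‖ ≤ Real.sqrt c := by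
    intro n
    refine Real.le_sqrt_of_sq_le ?_
    rw [← real_inner_self_eq_norm_sq, L2.inner_def]
    have e1 : ∫ s, ⟪D n s, D n s⟫_ℝ ∂μ0
        = ∫ s in (0 : ℝ)..(T - h n), ((h n)⁻¹) ^ 2 * ‖g (s + h n) - g s‖ ^ 2 := by
      have e2 : ∫ s, ⟪D n s, D n s⟫_ℝ ∂μ0 = ∫ s, (Ioc 0 (T - h n)).indicator
          (fun s => ((h n)⁻¹) ^ 2 * ‖g (s + h n) - g s‖ ^ 2) s ∂μ0 := by
        refine integral_congr_ae ?_
        filter_upwards [hDcoe n] with s hs
        rw [hs, real_inner_self_eq_norm_sq]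
        by_cases hm : s ∈ Ioc 0 (T - h n)
        · simp only [q, indicator_of_mem hm, norm_smul, mul_pow, Real.norm_eq_abs, sq_abs]
        · simp only [q, indicator_of_notMem hm, norm_zero, ne_eq, OfNat.ofNat_ne_zero,
            not_false_eq_true, zero_pow]
      rw [e2, integral_indicator measurableSet_Ioc, hμ0, Measure.restrict_restrict
        measurableSet_Ioc, inter_eq_self_of_subset_left (Ioc_subset_Ioc_right
        (by linarith [hpos n])), intervalIntegral.integral_of_le (by linarith [hltT n])]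
    rw [e1, intervalIntegral.integral_const_mul]
    calc ((h n)⁻¹) ^ 2 * ∫ s in (0 : ℝ)..(T - h n), ‖g (s + h n) - g s‖ ^ 2
        ≤ ((h n)⁻¹) ^ 2 * (c * h n ^ 2) := by
          gcongr
          exact hc _ (hpos n) (hltT n)
      _ = c := by
          have := (hpos n).ne'
          field_simp
  obtain ⟨D0, -, hD0⟩ := exists_weak_limit (Ultrafilter.of (atTop : Filter ℕ)) D (Real.sqrt c)
    (Eventually.of_forall hnorm)
  have hUle : ((Ultrafilter.of (atTop : Filter ℕ)) : Filter ℕ) ≤ atTop := Ultrafilter.of_le _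
  have hDint : Integrable D0 μ0 := (Lp.memLp D0).integrable (by norm_num)
  -- the identity for `b < T`
  have key : ∀ a b, 0 ≤ a → a ≤ b → b < T → g b - g a = ∫ s in a..b, D0 s := by
    intro a b ha hab hbT
    refine ext_inner_left ℝ (fun y => ?_)
    have hsub : Ioc a b ⊆ Ioc 0 T := Ioc_subset_Ioc ha hbT.le
    have hfin : μ0 (Ioc a b) ≠ ⊤ := (measure_lt_top _ _).ne
    have hres : μ0.restrict (Ioc a b) = volume.restrict (Ioc a b) := by
      rw [hμ0, Measure.restrict_restrict measurableSet_Ioc, inter_eq_self_of_subset_left hsub]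
    have l1 := hD0 (indicatorConstLp 2 measurableSet_Ioc hfin y)
    have e0 : ∀ f : Lp Y 2 μ0, ⟪f, indicatorConstLp 2 measurableSet_Ioc hfin y⟫_ℝ
        = ⟪y, ∫ s in a..b, f s⟫_ℝ := by
      intro f
      rw [real_inner_comm, L2.inner_indicatorConstLp_eq_inner_setIntegral, hres,
        intervalIntegral.integral_of_le hab]
    rw [e0] at l1
    have l2 : Tendsto (fun n => ⟪y, (h n)⁻¹ • ((∫ s in (0 : ℝ)..(b + h n), g s)
        - ∫ s in (0 : ℝ)..b, g s) - (h n)⁻¹ • ((∫ s in (0 : ℝ)..(a + h n), g s)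
        - ∫ s in (0 : ℝ)..a, g s)⟫_ℝ) (Ultrafilter.of (atTop : Filter ℕ)) (𝓝 ⟪y, g b - g a⟫_ℝ) :=
      (tendsto_const_nhds.inner ((slope_prim hg b hpos hlim).sub
        (slope_prim hg a hpos hlim))).mono_left hUle
    refine tendsto_nhds_unique l2 (l1.congr' ?_)
    have hev : ∀ᶠ n in atTop, h n < T - b := hlim.eventually (gt_mem_nhds (by linarith))
    filter_upwards [hUle hev] with n hn
    rw [e0]
    congr 1
    have e2 : ∫ s in a..b, D n s = ∫ s in a..b, (h n)⁻¹ • (g (s + h n) - g s) := by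
      rw [intervalIntegral.integral_of_le hab, intervalIntegral.integral_of_le hab]
      refine integral_congr_ae ?_
      have h1 : ∀ᵐ s ∂(volume.restrict (Ioc a b)), D n s = q n s :=
        ae_mono (Measure.restrict_mono hsub le_rfl) (hDcoe n)
      filter_upwards [h1, ae_restrict_mem measurableSet_Ioc] with s hs1 hs2
      rw [hs1]
      have hm : s ∈ Ioc 0 (T - h n) := ⟨ha.trans_lt hs2.1, by linarith [hs2.2]⟩
      simp only [q, indicator_of_mem hm]
    have ii : ∀ (k : ℝ → Y) (_ : Continuous k) (x y : ℝ), IntervalIntegrable k volume x y :=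
      fun k hk x y => hk.intervalIntegrable _ _
    have hgs : Continuous (fun s => g (s + h n)) := by fun_prop
    rw [e2, intervalIntegral.integral_smul, intervalIntegral.integral_sub (ii _ hgs _ _)
      (ii _ hg _ _), intervalIntegral.integral_comp_add_right (fun s => g s), ← smul_sub]
    congr 1
    rw [← intervalIntegral.integral_interval_sub_left (ii g hg 0 (b + h n)) (ii g hg 0 (a + h n)),
      ← intervalIntegral.integral_interval_sub_left (ii g hg 0 b) (ii g hg 0 a)]
    abel_nf
  refine ⟨D0, ?_⟩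
  intro a b ha hab hb
  rcases eq_or_lt_of_le hb with rfl | hb'
  · rcases eq_or_lt_of_le hab with rfl | hab'
    · simp
    · -- limit from the left
      have hprim : ContinuousOn (fun t => ∫ s in a..t, D0 s) (Icc a b) := by
        have hi : IntegrableOn (fun s => D0 s) (uIcc a b) volume := by
          rw [uIcc_of_le hab, integrableOn_Icc_iff_integrableOn_Ioc]
          exact hDint.mono_measure (Measure.restrict_mono (Ioc_subset_Ioc_left ha) le_rfl)
        have := intervalIntegral.continuousOn_primitive_interval hi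
        rwa [uIcc_of_le hab] at this
      have l1 : Tendsto (fun t => ∫ s in a..t, D0 s) (𝓝[<] b) (𝓝 (∫ s in a..b, D0 s)) :=
        (hprim b ⟨hab, le_rfl⟩).mono_left (nhdsWithin_le_of_mem (Icc_mem_nhdsLT hab'))
      have l2 : Tendsto (fun t => g t - g a) (𝓝[<] b) (𝓝 (g b - g a)) :=
        ((hg.tendsto b).sub_const _).mono_left nhdsWithin_le_nhds
      refine tendsto_nhds_unique l2 (l1.congr' ?_)
      filter_upwards [Ioo_mem_nhdsLT hab'] with t ht
      exact (key a t ha ht.1.le ht.2).symm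
  · exact key a b ha hab hb'

end H772R2.NSR
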