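import Mathlib
import Pool.Agent.H772R2.NSR.Sln
import Pool.Agent.H772R2.NSR.TimeDeriv
import Pool.Agent.H772R2.NSR.Force

/-!
Time derivatives of solutions of the closed-loop equation.
-/

set_option linter.unusedSectionVars false

open MeasureTheory Set Filter Topology Metric
open scoped InnerProductSpace NNReal

namespace H772R2.NSR

variable {H K : Type*} [NormedAddCommGroup H] [InnerProductSpace ℝ H] [CompleteSpace H]
  [NormedAddCommGroup K] [InnerProductSpace ℝ K] [CompleteSpace K]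

variable {Y : Type*} [NormedAddCommGroup Y] [InnerProductSpace ℝ Y] [CompleteSpace Y]

theorem ae_deriv_of_prim {T : ℝ} (hT : 0 < T) {g D : ℝ → Y}
    (hD : IntervalIntegrable D volume 0 T)
    (h : ∀ a b, 0 ≤ a → a ≤ b → b ≤ T → g b - g a = ∫ s in a..b, D s) :
    ∀ᵐ s ∂(volume.restrict (Ioc 0 T)), HasDerivAt g (D s) s := by
  rw [ae_restrict_iff' measurableSet_Ioc]
  have hne : ∀ᵐ s : ℝ, s ≠ T := by simp [ae_iff, measure_singleton]
  filter_upwards [hD.ae_hasDerivAt_integral, hne] with s hs hsT hsm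
  have hs' : s ∈ Ioo 0 T := ⟨hsm.1, lt_of_le_of_ne hsm.2 hsT⟩
  have h1 := hs (by rw [uIcc_of_le hT.le]; exact Ioc_subset_Icc_self hsm) 0
    (by rw [uIcc_of_le hT.le]; exact ⟨le_rfl, hT.le⟩)
  have h2 : HasDerivAt (fun x => g 0 + ∫ t in (0 : ℝ)..x, D t) (D s) s := h1.const_add (g 0)
  refine h2.congr_of_eventuallyEq ?_
  filter_upwards [Icc_mem_nhds hs'.1 hs'.2] with x hx
  rw [← h 0 x le_rfl hx.1 hx.2]
  abel

/-- continuous extension from `[0,T]`. -/
def clip (T : ℝ) (t : ℝ) : ℝ := max 0 (min t T)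

theorem clip_mem {T : ℝ} (hT : 0 ≤ T) (t : ℝ) : clip T t ∈ Icc 0 T :=
  ⟨le_max_left _ _, max_le hT (min_le_right _ _)⟩

theorem clip_of_mem {T t : ℝ} (ht : t ∈ Icc 0 T) : clip T t = t := by
  unfold clip
  rw [min_eq_left ht.2, max_eq_right ht.1]

theorem clip_cont {T : ℝ} (hT : 0 ≤ T) {g : ℝ → Y} (hg : ContinuousOn g (Icc 0 T)) :
    Continuous (fun t => g (clip T t)) := by
  have h1 : Continuous (clip T) := by unfold clip; fun_prop
  exact hg.comp_continuous h1 (clip_mem hT)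

theorem exists_weak_deriv' {T : ℝ} (hT : 0 < T) {g : ℝ → Y} (hg : ContinuousOn g (Icc 0 T))
    {c : ℝ}
    (hc : ∀ h, 0 < h → h < T → ∫ s in (0 : ℝ)..(T - h), ‖g (s + h) - g s‖ ^ 2 ≤ c * h ^ 2) :
    ∃ D : ℝ → Y, MemLp D 2 (volume.restrict (Ioc 0 T)) ∧ ∀ a b, 0 ≤ a → a ≤ b → b ≤ T →
      g b - g a = ∫ s in a..b, D s := by
  obtain ⟨D, hD⟩ := exists_weak_deriv hT (clip_cont hT.le hg) (c := c) (by
    intro h hh hhT
    refine le_trans (le_of_eq ?_) (hc h hh hhT)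
    refine intervalIntegral.integral_congr ?_
    intro s hs
    rw [uIcc_of_le (by linarith)] at hs
    simp only
    rw [clip_of_mem ⟨hs.1, by linarith [hs.2]⟩, clip_of_mem ⟨by linarith [hs.1], by linarith [hs.2]⟩])
  refine ⟨D, Lp.memLp D, fun a b ha hab hb => ?_⟩
  have := hD a b ha hab hb
  rwa [clip_of_mem ⟨ha.trans hab, hb⟩, clip_of_mem ⟨ha, hab.trans hb⟩] at this

theorem memLp_ii {T : ℝ} (hT : 0 ≤ T) {D : ℝ → Y} (hD : MemLp D 2 (volume.restrict (Ioc 0 T))) :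
    IntervalIntegrable D volume 0 T := by
  rw [intervalIntegrable_iff_integrableOn_Ioc_of_le hT]
  have : IsFiniteMeasure (volume.restrict (Ioc 0 T) : Measure ℝ) := by
    rw [isFiniteMeasure_restrict]; simp
  exact hD.integrable (by norm_num)

variable {W : Submodule ℝ (H × K)} {m : H → K} {C : ℝ}
  {ν A M T : ℝ} {μ : ℝ → ℝ} {F : ℝ → K} {u u' : ℝ → H} {z : ℝ → K} {c1 c2 e0 : ℝ}

theorem Sln.ucont (S : Sln W m μ ν T F u u' z c1 c2 e0) : ContinuousOn u (Icc 0 T) := by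
  refine LipschitzOnWith.continuousOn (K := c1.toNNReal) ?_
  refine LipschitzOnWith.of_dist_le_mul fun a ha b hb => ?_
  rw [dist_eq_norm, Real.dist_eq]
  refine (S.lip a ha b hb).trans ?_
  gcongr
  exact Real.le_coe_toNNReal c1

theorem Sln.derivs (hW : IsClosed (W : Set (H × K))) (hT : 0 < T)
    (S : Sln W m μ ν T F u u' z c1 c2 e0) :
    ∃ (u1 : ℝ → H) (z1 : ℝ → K),
      MemLp u1 2 (volume.restrict (Ioc 0 T)) ∧ MemLp z1 2 (volume.restrict (Ioc 0 T)) ∧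
      (∀ a b, 0 ≤ a → a ≤ b → b ≤ T → u b - u a = ∫ s in a..b, u1 s) ∧
      (∀ a b, 0 ≤ a → a ≤ b → b ≤ T → z b - z a = ∫ s in a..b, z1 s) ∧
      ∀ᵐ s ∂(volume.restrict (Ioc 0 T)), (u1 s, z1 s) ∈ W ∧ ‖u1 s‖ ≤ c1 := by
  have hu := S.ucont
  obtain ⟨u1, hu1, hu1'⟩ := exists_weak_deriv' hT hu (c := c1 ^ 2 * T) (by
    intro h hh hhT
    have hTh : 0 ≤ T - h := by linarith
    have hs0 : Icc 0 (T - h) ⊆ Icc 0 T := Icc_subset_Icc_right (by linarith)
    have hs1 : MapsTo (fun s => s + h) (Icc 0 (T - h)) (Icc 0 T) :=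
      fun s hs => ⟨by linarith [hs.1], by linarith [hs.2]⟩
    have hus : ContinuousOn (fun s => u (s + h)) (Icc 0 (T - h)) :=
      hu.comp (by fun_prop) hs1
    have hi : IntervalIntegrable (fun s => ‖u (s + h) - u s‖ ^ 2) volume 0 (T - h) := by
      refine ContinuousOn.intervalIntegrable ?_
      rw [uIcc_of_le hTh]
      exact ((hus.sub (hu.mono hs0)).norm).pow 2
    calc ∫ s in (0 : ℝ)..(T - h), ‖u (s + h) - u s‖ ^ 2
        ≤ ∫ s in (0 : ℝ)..(T - h), (c1 * h) ^ 2 := by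
          refine intervalIntegral.integral_mono_on hTh hi intervalIntegrable_const ?_
          intro s hs
          have k1 := S.lip (s + h) (hs1 hs) s (hs0 hs)
          rw [show s + h - s = h by ring, abs_of_pos hh] at k1
          gcongr
      _ = (T - h) * (c1 * h) ^ 2 := by
          rw [intervalIntegral.integral_const, smul_eq_mul, sub_zero]
      _ ≤ T * (c1 * h) ^ 2 := by gcongr; linarith
      _ = c1 ^ 2 * T * h ^ 2 := by ring)
  obtain ⟨z1, hz1, hz1'⟩ := exists_weak_deriv' hT S.zc S.zshift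
  refine ⟨u1, z1, hu1, hz1, hu1', hz1', ?_⟩
  have k1 := ae_deriv_of_prim hT (memLp_ii hT.le hu1) hu1'
  have k2 := ae_deriv_of_prim hT (memLp_ii hT.le hz1) hz1'
  have hne : ∀ᵐ s ∂(volume.restrict (Ioc 0 T)), s ≠ T := by
    refine ae_restrict_of_ae ?_
    simp [ae_iff, measure_singleton]
  filter_upwards [k1, k2, ae_restrict_mem measurableSet_Ioc, hne] with s h1 h2 h3 h4
  have hs : s ∈ Ioo 0 T := ⟨h3.1, lt_of_le_of_ne h3.2 h4⟩
  have hcl : IsClosed {p : H × K | p ∈ W ∧ ‖p.1‖ ≤ c1} :=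
    hW.inter (isClosed_le (continuous_fst.norm : Continuous fun p : H × K => ‖p.1‖)
      continuous_const)
  have h5 : HasDerivAt (fun t => (u t, z t)) (u1 s, z1 s) s := h1.prodMk h2
  have h6 := (hasDerivAt_iff_tendsto_slope.mp h5)
  refine hcl.mem_of_tendsto h6 ?_
  have h7 : ∀ᶠ t in 𝓝[≠] s, t ∈ Icc 0 T := mem_nhdsWithin_of_mem_nhds (Icc_mem_nhds hs.1 hs.2)
  filter_upwards [h7, self_mem_nhdsWithin] with t ht hts
  have hts' : t ≠ s := hts
  have hsI : s ∈ Icc 0 T := Ioo_subset_Icc_self hs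
  refine ⟨?_, ?_⟩
  · rw [slope_def_module]
    exact W.smul_mem _ (W.sub_mem (S.mem t ht) (S.mem s hsI))
  · rw [slope_def_module]
    have k3 := S.lip t ht s hsI
    have hpos : 0 < |t - s| := abs_pos.mpr (sub_ne_zero.mpr hts')
    show ‖(t - s)⁻¹ • (u t - u s)‖ ≤ c1
    rw [norm_smul, norm_inv, Real.norm_eq_abs, inv_mul_le_iff₀ hpos]
    linarith

/-- the additional stress is in `H¹`. -/
theorem Sln.stress (V : Visc ν μ A M) (hν : 0 < ν) (hT : 0 < T)
    (S : Sln W m μ ν T F u u' z c1 c2 e0) :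
    ContinuousOn (fun t => μ ‖z t‖ • z t) (Icc 0 T) ∧
    ∃ g1 : ℝ → K, MemLp g1 2 (volume.restrict (Ioc 0 T)) ∧
      ∀ a b, 0 ≤ a → a ≤ b → b ≤ T →
        (-(μ ‖z b‖ • z b)) - (-(μ ‖z a‖ • z a)) = ∫ s in a..b, g1 s := by
  obtain ⟨R, hR⟩ : ∃ R : ℝ, ∀ t ∈ Icc 0 T, ‖z t‖ ≤ R := by
    obtain ⟨B0, h⟩ := (isCompact_Icc.image_of_continuousOn S.zc).isBounded.exists_norm_le
    exact ⟨B0, fun t ht => h _ ⟨t, ht, rfl⟩⟩
  have hR0 : 0 ≤ R := (norm_nonneg _).trans (hR 0 ⟨le_rfl, hT.le⟩)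
  set c := 2 * ν + μ R + M * R with hc
  have hc0 : 0 ≤ c := by
    have := V.nonneg R hR0
    have := V.M0
    positivity
  have hlip : ∀ a ∈ Icc 0 T, ∀ b ∈ Icc 0 T, ‖μ ‖z a‖ • z a - μ ‖z b‖ • z b‖ ≤ c * ‖z a - z b‖ := by
    intro a ha b hb
    have h1 := stress_lip V hν.le (z a) (z b) (hR a ha) (hR b hb)
    have e : μ ‖z a‖ • z a - μ ‖z b‖ • z b
        = ((ν + μ ‖z a‖) • z a - (ν + μ ‖z b‖) • z b) - ν • (z a - z b) := by
      simp only [smul_sub, add_smul]; abel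
    rw [e]
    calc ‖((ν + μ ‖z a‖) • z a - (ν + μ ‖z b‖) • z b) - ν • (z a - z b)‖
        ≤ ‖(ν + μ ‖z a‖) • z a - (ν + μ ‖z b‖) • z b‖ + ‖ν • (z a - z b)‖ := norm_sub_le _ _
      _ ≤ (ν + μ R + M * R) * ‖z a - z b‖ + ν * ‖z a - z b‖ := by
          rw [norm_smul, Real.norm_eq_abs, abs_of_pos hν]
          gcongr
      _ = c * ‖z a - z b‖ := by rw [hc]; ring
  have hcont : ContinuousOn (fun t => μ ‖z t‖ • z t) (Icc 0 T) := by
    intro t ht
    rw [ContinuousWithinAt, tendsto_iff_norm_sub_tendsto_zero]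
    have h1 : Tendsto (fun s => c * ‖z s - z t‖) (𝓝[Icc 0 T] t) (𝓝 (c * 0)) :=
      ((tendsto_iff_norm_sub_tendsto_zero.mp (S.zc t ht))).const_mul c
    rw [mul_zero] at h1
    refine squeeze_zero' (Eventually.of_forall fun s => norm_nonneg _) ?_ h1
    filter_upwards [self_mem_nhdsWithin] with s hs
    exact hlip s hs t ht
  refine ⟨hcont, ?_⟩
  have h2 := exists_weak_deriv' hT (g := fun t => -(μ ‖z t‖ • z t)) hcont.neg
    (c := c ^ 2 * c2) (by
    intro h hh hhT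
    have hTh : 0 ≤ T - h := by linarith
    have hs0 : Icc 0 (T - h) ⊆ Icc 0 T := Icc_subset_Icc_right (by linarith)
    have hs1 : MapsTo (fun s => s + h) (Icc 0 (T - h)) (Icc 0 T) :=
      fun s hs => ⟨by linarith [hs.1], by linarith [hs.2]⟩
    have hgs : ContinuousOn (fun s => μ ‖z (s + h)‖ • z (s + h)) (Icc 0 (T - h)) :=
      hcont.comp (by fun_prop) hs1
    have hzs : ContinuousOn (fun s => z (s + h)) (Icc 0 (T - h)) :=
      S.zc.comp (by fun_prop) hs1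
    have hi : IntervalIntegrable (fun s => ‖-(μ ‖z (s + h)‖ • z (s + h))
        - -(μ ‖z s‖ • z s)‖ ^ 2) volume 0 (T - h) := by
      refine ContinuousOn.intervalIntegrable ?_
      rw [uIcc_of_le hTh]
      exact ((hgs.neg.sub (hcont.mono hs0).neg).norm).pow 2
    have hi2 : IntervalIntegrable (fun s => c ^ 2 * ‖z (s + h) - z s‖ ^ 2) volume 0 (T - h) := by
      refine ContinuousOn.intervalIntegrable ?_
      rw [uIcc_of_le hTh]
      exact continuousOn_const.mul (((hzs.sub (S.zc.mono hs0)).norm).pow 2)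
    calc ∫ s in (0 : ℝ)..(T - h), ‖-(μ ‖z (s + h)‖ • z (s + h)) - -(μ ‖z s‖ • z s)‖ ^ 2
        ≤ ∫ s in (0 : ℝ)..(T - h), c ^ 2 * ‖z (s + h) - z s‖ ^ 2 := by
          refine intervalIntegral.integral_mono_on hTh hi hi2 ?_
          intro s hs
          have k1 := hlip (s + h) (hs1 hs) s (hs0 hs)
          rw [← mul_pow, neg_sub_neg, norm_sub_rev]
          gcongr
      _ = c ^ 2 * ∫ s in (0 : ℝ)..(T - h), ‖z (s + h) - z s‖ ^ 2 := by
          rw [intervalIntegral.integral_const_mul]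
      _ ≤ c ^ 2 * (c2 * h ^ 2) := by
          gcongr
          exact S.zshift h hh hhT
      _ = c ^ 2 * c2 * h ^ 2 := by ring)
  exact h2

end H772R2.NSR
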