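import Mathlib
import Pool.Agent.H772R2.NSR.Sln

/-!
Existence of strong solutions of the closed-loop equation.
-/

set_option linter.unusedSectionVars false

open MeasureTheory Set Filter Topology Metric
open scoped InnerProductSpace NNReal

namespace H772R2.NSR

variable {H K : Type*} [NormedAddCommGroup H] [InnerProductSpace ℝ H] [CompleteSpace H]
  [NormedAddCommGroup K] [InnerProductSpace ℝ K] [CompleteSpace K]

variable {W : Submodule ℝ (H × K)} {m : H → K} {C : ℝ}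
  {ν A M T : ℝ} {μ : ℝ → ℝ} {F : ℝ → K}

/-- The Galerkin spaces containing `x0`. -/
def GalSp (W : Submodule ℝ (H × K)) (x0 : H) : Type _ :=
  {E : Submodule ℝ H // FiniteDimensional ℝ E ∧ E ≤ W.map (LinearMap.fst ℝ H K) ∧ x0 ∈ E}

instance (W : Submodule ℝ (H × K)) (x0 : H) : Preorder (GalSp W x0) :=
  Subtype.preorder _

instance (W : Submodule ℝ (H × K)) (x0 : H) : IsDirected (GalSp W x0) (· ≤ ·) where
  directed := by
    rintro ⟨E1, h1, k1, l1⟩ ⟨E2, h2, k2, l2⟩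
    have := h1
    have := h2
    exact ⟨⟨E1 ⊔ E2, inferInstance, sup_le k1 k2, (le_sup_left : E1 ≤ E1 ⊔ E2) l1⟩,
      le_sup_left (a := E1) (b := E2), le_sup_right (a := E1) (b := E2)⟩

theorem mem_dom {W : Submodule ℝ (H × K)} {p : H × K} (hp : p ∈ W) :
    p.1 ∈ W.map (LinearMap.fst ℝ H K) := ⟨p, hp, rfl⟩

theorem exists_galSp {W : Submodule ℝ (H × K)} {x0 y : H} (h0 : x0 ∈ W.map (LinearMap.fst ℝ H K))
    (hy : y ∈ W.map (LinearMap.fst ℝ H K)) : ∃ E : GalSp W x0, y ∈ E.1 := by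
  refine ⟨⟨Submodule.span ℝ {x0, y}, ?_, ?_, ?_⟩, ?_⟩
  · exact FiniteDimensional.span_of_finite ℝ (Set.toFinite _)
  · rw [Submodule.span_le]
    intro w hw
    rcases hw with rfl | hw
    · exact h0
    · rw [mem_singleton_iff] at hw; subst hw; exact hy
  · exact Submodule.subset_span (by simp)
  · exact Submodule.subset_span (by simp)

theorem exists_sln (Fr : Frame W m C) (V : Visc ν μ A M) (hν : 0 < ν) (hT : 0 < T)
    (hF : ContinuousOn F (Icc 0 T)) {Φ : ℝ} (hΦ0 : 0 ≤ Φ)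
    (hΦ : ∀ h, 0 < h → h < T → ∫ s in (0 : ℝ)..(T - h), ‖F (s + h) - F s‖ ^ 2 ≤ Φ * h ^ 2)
    (hcomp : ∀ R : ℝ, TotallyBounded {v : H | ∃ z, (v, z) ∈ W ∧ ‖z‖ ≤ R})
    {x0 : H} {z0 : K} (h0 : (x0, z0) ∈ W) {g0 : H}
    (hc : ∀ p ∈ W, ⟪F 0 - (ν + μ ‖z0‖) • z0 + m x0, p.2⟫_ℝ = ⟪g0, p.1⟫_ℝ) :
    ∃ (u u' : ℝ → H) (z : ℝ → K) (c1 c2 : ℝ), u 0 = x0 ∧
      Sln W m μ ν T F u u' z c1 c2 (ec ν T ‖x0‖ F) := by
  have h0T : (0 : ℝ) ∈ Icc 0 T := ⟨le_rfl, hT.le⟩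
  have hdom : x0 ∈ W.map (LinearMap.fst ℝ H K) := mem_dom h0
  have hex : ∀ i : GalSp W x0, ∃ (x x' : ℝ → H) (z : ℝ → K), Traj W m μ ν T F i.1 x x' z ∧
      x 0 = x0 := by
    rintro ⟨E, h1, h2, h3⟩
    have := h1
    exact exists_traj Fr V hν hT.le hF h2 h3
  choose X X' Z hS hX0 using hex
  have : Nonempty (GalSp W x0) := ⟨(exists_galSp hdom hdom).choose⟩
  set U : Ultrafilter (GalSp W x0) := Ultrafilter.of atTop with hU
  have hE : ∀ p ∈ W, ∀ᶠ i in U, p.1 ∈ (i : GalSp W x0).1 := by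
    intro p hp
    obtain ⟨E0, hE0⟩ := exists_galSp (x0 := x0) hdom (mem_dom hp)
    have h1 : ∀ᶠ i in (atTop : Filter (GalSp W x0)), E0 ≤ i := eventually_ge_atTop E0
    have h2 : ∀ᶠ i in U, E0 ≤ i := (Ultrafilter.of_le atTop) h1
    filter_upwards [h2] with i hi
    exact hi hE0
  -- bounds
  obtain ⟨CF, hCF⟩ : ∃ CF : ℝ, ∀ t ∈ Icc 0 T, ‖F t‖ ≤ CF := by
    obtain ⟨B0, h⟩ := (isCompact_Icc.image_of_continuousOn hF).isBounded.exists_norm_le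
    exact ⟨B0, fun t ht => h _ ⟨t, ht, rfl⟩⟩
  set e := ec ν T ‖x0‖ F with he
  have he0 : 0 ≤ e := ec_nonneg hν hT.le _
  set c1 : ℝ := Real.sqrt (gc C A T e * (‖g0‖ ^ 2 + 2 / ν * Φ)) with hc1
  have hgc : 0 < gc C A T e := Real.exp_pos _
  have hc1sq : c1 ^ 2 = gc C A T e * (‖g0‖ ^ 2 + 2 / ν * Φ) := Real.sq_sqrt (by positivity)
  have hvel : ∀ i, ∀ t ∈ Icc 0 T, ‖X' i t‖ ≤ c1 := by
    intro i t ht
    have k1 := (hS i).vel Fr V hν hT hF hΦ ht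
    rw [hX0 i] at k1
    have hz : Z i 0 = z0 := grad_unique Fr (by
      have := (hS i).mem 0 h0T
      rwa [hX0 i] at this) h0
    have k2 : ‖X' i 0‖ ≤ ‖g0‖ := (hS i).vel0 i.2.2.1 hT.le (by rw [hz, hX0 i]; exact hc)
    have k3 : ‖X' i t‖ ^ 2 ≤ c1 ^ 2 := by
      rw [hc1sq]
      refine k1.trans ?_
      gcongr
    exact (pow_le_pow_iff_left₀ (norm_nonneg _) (Real.sqrt_nonneg _) (by norm_num)).mp k3
  set X0 : ℝ := Real.sqrt (2 * e) with hX0def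
  have hX0sq : X0 ^ 2 = 2 * e := Real.sq_sqrt (by positivity)
  have hxb : ∀ i, ∀ t ∈ Icc 0 T, ‖X i t‖ ≤ X0 := by
    intro i t ht
    have k1 := (hS i).xbound Fr V hν hF ht
    rw [hX0 i] at k1
    have k3 : ‖X i t‖ ^ 2 ≤ X0 ^ 2 := by rw [hX0sq]; exact k1
    exact (pow_le_pow_iff_left₀ (norm_nonneg _) (Real.sqrt_nonneg _) (by norm_num)).mp k3
  have hc10 : 0 ≤ c1 := Real.sqrt_nonneg _
  have hX00 : 0 ≤ X0 := Real.sqrt_nonneg _
  set s1 : ℝ := Real.sqrt (CF ^ 2 / ν ^ 2 + 2 * (c1 * X0) / ν) with hs1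
  have hs1sq : s1 ^ 2 = CF ^ 2 / ν ^ 2 + 2 * (c1 * X0) / ν := Real.sq_sqrt (by positivity)
  have hzb : ∀ i, ∀ t ∈ Icc 0 T, ‖Z i t‖ ≤ s1 := by
    intro i t ht
    have k1 := (hS i).zbound Fr V hν ht (hCF t ht) (hvel i t ht) (hxb i t ht)
    rw [← hs1sq] at k1
    exact (pow_le_pow_iff_left₀ (norm_nonneg _) (Real.sqrt_nonneg _) (by norm_num)).mp k1
  have hfam : Fam W m μ ν T F (fun i : GalSp W x0 => i.1) X X' Z c1 s1 :=
    ⟨hS, hvel, hzb⟩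
  obtain ⟨u, u', z, hu0, hsln⟩ := hfam.limit Fr V hν hT hF hΦ U hE hcomp hX0
  exact ⟨u, u', z, c1, _, hu0, hsln⟩

end H772R2.NSR
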