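import Mathlib
import Pool.Agent.H772R2.NSR.Gal

/-!
The viscosity `μ(s) = κ (√(max s S) - √S)`.
-/

set_option linter.unusedSectionVars false

open MeasureTheory Set Filter Topology Metric
open scoped InnerProductSpace NNReal

namespace H772R2.NSR

/-- the additional viscosity. -/
noncomputable def muf (κ S s : ℝ) : ℝ := κ * (Real.sqrt (max s S) - Real.sqrt S)

theorem muf_nonneg {κ S : ℝ} (hκ : 0 ≤ κ) (s : ℝ) : 0 ≤ muf κ S s :=
  mul_nonneg hκ (sub_nonneg.mpr (Real.sqrt_le_sqrt (le_max_right _ _)))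

theorem muf_zero {κ S s : ℝ} (h : s ≤ S) : muf κ S s = 0 := by
  unfold muf; rw [max_eq_right h]; simp

theorem muf_of_gt {κ S s : ℝ} (h : S ≤ s) : muf κ S s = κ * (Real.sqrt s - Real.sqrt S) := by
  unfold muf; rw [max_eq_left h]

theorem muf_le {κ S s : ℝ} (hκ : 0 ≤ κ) :
    muf κ S s ≤ κ * Real.sqrt s := by
  rcases le_total s S with h | h
  · rw [muf_zero h]; positivity
  · rw [muf_of_gt h]
    have := Real.sqrt_nonneg S
    gcongr
    linarith

theorem sqrt_lip {S a b : ℝ} (hS : 0 < S) (ha : S ≤ a) (hb : S ≤ b) :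
    |Real.sqrt a - Real.sqrt b| ≤ (2 * Real.sqrt S)⁻¹ * |a - b| := by
  have h1 : Real.sqrt S ≤ Real.sqrt a := Real.sqrt_le_sqrt ha
  have h2 : Real.sqrt S ≤ Real.sqrt b := Real.sqrt_le_sqrt hb
  have hS' : 0 < Real.sqrt S := Real.sqrt_pos.mpr hS
  have e1 : a - b = (Real.sqrt a - Real.sqrt b) * (Real.sqrt a + Real.sqrt b) := by
    have ea := Real.sq_sqrt (hS.le.trans ha)
    have eb := Real.sq_sqrt (hS.le.trans hb)
    nlinarith
  rw [e1, abs_mul, abs_of_pos (by linarith : 0 < Real.sqrt a + Real.sqrt b),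
    inv_mul_eq_div, le_div_iff₀ (by positivity)]
  have h0 := abs_nonneg (Real.sqrt a - Real.sqrt b)
  nlinarith

theorem visc_muf {κ S ν : ℝ} (hκ : 0 < κ) (hS : 0 < S) (hν : 0 < ν) :
    Visc ν (muf κ S) (256 * S ^ 4 / ν ^ 3 + 16 / κ ^ 4) (κ * (2 * Real.sqrt S)⁻¹) where
  A0 := by positivity
  M0 := by positivity
  nonneg := fun s _ => muf_nonneg hκ.le s
  mono := fun s t _ hst => by
    unfold muf
    gcongr
  lip := fun s t _ _ => by
    unfold muf
    rw [← mul_sub, abs_mul, abs_of_pos hκ, mul_assoc]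
    gcongr
    have e : Real.sqrt (max s S) - Real.sqrt S - (Real.sqrt (max t S) - Real.sqrt S)
        = Real.sqrt (max s S) - Real.sqrt (max t S) := by ring
    rw [e]
    exact (sqrt_lip hS (le_max_right _ _) (le_max_right _ _)).trans
      (mul_le_mul_of_nonneg_left (abs_max_sub_max_le_abs s t S) (by positivity))
  key := fun s hs => by
    have h0 := muf_nonneg (S := S) hκ.le s
    have hB : 0 ≤ muf κ S s * s ^ 2 := by positivity
    rcases le_total s (4 * S) with h | h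
    · have h1 : s ^ 4 ≤ 256 * S ^ 4 := by
        calc s ^ 4 ≤ (4 * S) ^ 4 := by gcongr
          _ = 256 * S ^ 4 := by ring
      calc s ^ 4 ≤ 256 * S ^ 4 := h1
        _ = (256 * S ^ 4 / ν ^ 3) * ν ^ 3 * 1 := by field_simp
        _ ≤ (256 * S ^ 4 / ν ^ 3 + 16 / κ ^ 4) * (ν + muf κ S s) ^ 3 * (1 + muf κ S s * s ^ 2) := by
          gcongr
          · have : 0 ≤ 16 / κ ^ 4 := by positivity
            linarith
          · linarith
          · linarith
    · have hsS : S ≤ s := by linarith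
      have h1 : κ * Real.sqrt s / 2 ≤ muf κ S s := by
        rw [muf_of_gt hsS]
        have h2 : 2 * Real.sqrt S ≤ Real.sqrt s := by
          have : Real.sqrt (4 * S) = 2 * Real.sqrt S := by
            rw [show (4 : ℝ) * S = 2 ^ 2 * S by norm_num, Real.sqrt_mul (by norm_num),
              Real.sqrt_sq (by norm_num)]
          rw [← this]
          exact Real.sqrt_le_sqrt h
        nlinarith
      have hs4 : (Real.sqrt s) ^ 4 = s ^ 2 := by
        have : (Real.sqrt s) ^ 4 = ((Real.sqrt s) ^ 2) ^ 2 := by ring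
        rw [this, Real.sq_sqrt hs]
      have hpos : 0 ≤ κ * Real.sqrt s / 2 := by positivity
      calc s ^ 4 = (16 / κ ^ 4) * ((κ * Real.sqrt s / 2) ^ 3) * ((κ * Real.sqrt s / 2) * s ^ 2) := by
            have : (16 / κ ^ 4) * ((κ * Real.sqrt s / 2) ^ 3) * ((κ * Real.sqrt s / 2) * s ^ 2)
                = (Real.sqrt s) ^ 4 * s ^ 2 := by
              field_simp; ring
            rw [this, hs4]; ring
        _ ≤ (256 * S ^ 4 / ν ^ 3 + 16 / κ ^ 4) * (ν + muf κ S s) ^ 3 * (1 + muf κ S s * s ^ 2) := by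
          have h3 : κ * Real.sqrt s / 2 ≤ ν + muf κ S s := by linarith
          have h4 : κ * Real.sqrt s / 2 * s ^ 2 ≤ 1 + muf κ S s * s ^ 2 := by
            have : κ * Real.sqrt s / 2 * s ^ 2 ≤ muf κ S s * s ^ 2 := by gcongr
            linarith
          have h5 : 16 / κ ^ 4 ≤ 256 * S ^ 4 / ν ^ 3 + 16 / κ ^ 4 := by
            have : 0 ≤ 256 * S ^ 4 / ν ^ 3 := by positivity
            linarith
          have h6 : 0 ≤ ν + muf κ S s := by linarith
          exact mul_le_mul (mul_le_mul h5 (pow_le_pow_left₀ hpos h3 3) (by positivity)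
            (by positivity)) h4 (by positivity) (by positivity)

/-- the cost in the power `5/3`. -/
theorem cost53 {κ S s : ℝ} (hκ : 0 < κ) (hs : 0 ≤ s) :
    (muf κ S s * s) ^ (5 / 3 : ℝ) ≤ κ ^ (2 / 3 : ℝ) * (muf κ S s * s ^ 2) := by
  have h0 := muf_nonneg (S := S) hκ.le s
  have h1 := muf_le (S := S) (s := s) hκ.le
  have hA : 0 ≤ (muf κ S s * s) ^ (5 / 3 : ℝ) := by positivity
  have hB : 0 ≤ κ ^ (2 / 3 : ℝ) * (muf κ S s * s ^ 2) := by positivity
  refine (pow_le_pow_iff_left₀ hA hB (by norm_num : (3 : ℕ) ≠ 0)).mp ?_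
  have e1 : ((muf κ S s * s) ^ (5 / 3 : ℝ)) ^ 3 = (muf κ S s * s) ^ 5 := by
    rw [← Real.rpow_natCast, ← Real.rpow_mul (by positivity), ← Real.rpow_natCast]
    norm_num
  have e2 : (κ ^ (2 / 3 : ℝ)) ^ 3 = κ ^ 2 := by
    rw [← Real.rpow_natCast, ← Real.rpow_mul (by positivity), ← Real.rpow_natCast]
    norm_num
  rw [mul_pow, e1, e2]
  have h2 : (muf κ S s) ^ 2 ≤ κ ^ 2 * s := by
    calc (muf κ S s) ^ 2 ≤ (κ * Real.sqrt s) ^ 2 := by gcongr
      _ = κ ^ 2 * s := by rw [mul_pow, Real.sq_sqrt hs]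
  calc (muf κ S s * s) ^ 5 = (muf κ S s) ^ 2 * ((muf κ S s) ^ 3 * s ^ 5) := by ring
    _ ≤ (κ ^ 2 * s) * ((muf κ S s) ^ 3 * s ^ 5) := by gcongr
    _ = κ ^ 2 * (muf κ S s * s ^ 2) ^ 3 := by ring

/-- the cost in the fifth power of the viscosity. -/
theorem cost5 {κ S s : ℝ} (hκ : 0 < κ) (hs : 0 ≤ s) :
    (muf κ S s) ^ 5 ≤ κ ^ 4 * (muf κ S s * s ^ 2) := by
  have h0 := muf_nonneg (S := S) hκ.le s
  have h1 := muf_le (S := S) (s := s) hκ.le
  have hs4 : (Real.sqrt s) ^ 4 = s ^ 2 := by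
    have : (Real.sqrt s) ^ 4 = ((Real.sqrt s) ^ 2) ^ 2 := by ring
    rw [this, Real.sq_sqrt hs]
  calc (muf κ S s) ^ 5 = (muf κ S s) ^ 4 * muf κ S s := by ring
    _ ≤ (κ * Real.sqrt s) ^ 4 * muf κ S s := by gcongr
    _ = κ ^ 4 * (muf κ S s * s ^ 2) := by rw [mul_pow, hs4]; ring

end H772R2.NSR
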