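import Mathlib
import Pool.Agent.H772R2.NSR.Exist
import Pool.Agent.H772R2.NSR.Deriv
import Pool.Agent.H772R2.NSR.Mu

/-!
The abstract form of the theorem.
-/

set_option linter.unusedSectionVars false

open MeasureTheory Set Filter Topology Metric
open scoped InnerProductSpace NNReal

namespace H772R2.NSR

variable {H K : Type*} [NormedAddCommGroup H] [InnerProductSpace ℝ H] [CompleteSpace H]
  [NormedAddCommGroup K] [InnerProductSpace ℝ K] [CompleteSpace K]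

variable {W : Submodule ℝ (H × K)} {m : H → K} {C : ℝ}
  {ν T : ℝ}

/-- choice of the constant. -/
theorem exists_kappa {e ε : ℝ} (he : 0 ≤ e) (hε : 0 < ε) :
    ∃ κ : ℝ, 0 < κ ∧ κ ^ (2 / 3 : ℝ) * e ≤ ε ∧ κ ^ 4 * e ≤ ε := by
  set κ : ℝ := min 1 ((ε / (e + 1)) ^ (3 / 2 : ℝ)) with hκ
  have hq : 0 < ε / (e + 1) := by positivity
  have hκ0 : 0 < κ := lt_min one_pos (by positivity)
  have hκ1 : κ ≤ 1 := min_le_left _ _
  have h1 : κ ^ (2 / 3 : ℝ) ≤ ε / (e + 1) := by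
    calc κ ^ (2 / 3 : ℝ) ≤ ((ε / (e + 1)) ^ (3 / 2 : ℝ)) ^ (2 / 3 : ℝ) :=
          Real.rpow_le_rpow hκ0.le (min_le_right _ _) (by norm_num)
      _ = ε / (e + 1) := by
          rw [← Real.rpow_mul hq.le]; norm_num
  have h2 : κ ^ 4 ≤ κ ^ (2 / 3 : ℝ) := by
    have := Real.rpow_le_rpow_of_exponent_ge hκ0 hκ1 (by norm_num : (2 / 3 : ℝ) ≤ ((4 : ℕ) : ℝ))
    rwa [Real.rpow_natCast] at this
  have h3 : κ ^ (2 / 3 : ℝ) * e ≤ ε := by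
    calc κ ^ (2 / 3 : ℝ) * e ≤ ε / (e + 1) * e := by gcongr
      _ ≤ ε / (e + 1) * (e + 1) := by gcongr; linarith
      _ = ε := by field_simp
  exact ⟨κ, hκ0, h3, (mul_le_mul_of_nonneg_right h2 he).trans h3⟩

theorem main_abs (Fr : Frame W m C) (hν : 0 < ν) (hT : 0 < T) {F F1 : ℝ → K}
    (hF1 : MemLp F1 2 (volume.restrict (Ioc 0 T)))
    (hF : ∀ a b, 0 ≤ a → a ≤ b → b ≤ T → F b - F a = ∫ s in a..b, F1 s)
    (hcomp : ∀ R : ℝ, TotallyBounded {v : H | ∃ z, (v, z) ∈ W ∧ ‖z‖ ≤ R})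
    {x0 : H} {z0 : K} (h0 : (x0, z0) ∈ W) {g0 : H}
    (hc : ∀ p ∈ W, ⟪F 0 - ν • z0 + m x0, p.2⟫_ℝ = ⟪g0, p.1⟫_ℝ) {ε : ℝ} (hε : 0 < ε) :
    ∃ (u u1 : ℝ → H) (z z1 : ℝ → K) (lam : ℝ → ℝ) (g1 : ℝ → K) (c1 : ℝ),
      u 0 = x0 ∧ (∀ t ∈ Icc 0 T, (u t, z t) ∈ W) ∧
      MemLp u1 2 (volume.restrict (Ioc 0 T)) ∧ MemLp z1 2 (volume.restrict (Ioc 0 T)) ∧
      MemLp g1 2 (volume.restrict (Ioc 0 T)) ∧
      (∀ a b, 0 ≤ a → a ≤ b → b ≤ T → u b - u a = ∫ s in a..b, u1 s) ∧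
      (∀ a b, 0 ≤ a → a ≤ b → b ≤ T → z b - z a = ∫ s in a..b, z1 s) ∧
      (∀ a b, 0 ≤ a → a ≤ b → b ≤ T →
        (-(lam b • z b)) - (-(lam a • z a)) = ∫ s in a..b, g1 s) ∧
      (∀ᵐ s ∂(volume.restrict (Ioc 0 T)), (u1 s, z1 s) ∈ W ∧ ‖u1 s‖ ≤ c1) ∧
      (∀ p ∈ W, ∀ t ∈ Icc 0 T, ⟪u t - u 0, p.1⟫_ℝ
        = ∫ s in (0 : ℝ)..t, ⟪F s - (ν + lam s) • z s + m (u s), p.2⟫_ℝ) ∧
      ContinuousOn lam (Icc 0 T) ∧ (∀ t, 0 ≤ lam t) ∧ lam 0 = 0 ∧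
      volume {t ∈ Icc 0 T | lam t ≠ 0} ≤ ENNReal.ofReal ε ∧
      ∫ t in (0 : ℝ)..T, lam t ^ 5 ≤ ε ∧
      ∫ t in (0 : ℝ)..T, ‖lam t • z t‖ ^ (5 / 3 : ℝ) ≤ ε ∧
      (∀ t ∈ Icc 0 T, ‖u t‖ ^ 2 / 2 + ν * ∫ s in (0 : ℝ)..t, ‖z s‖ ^ 2
        ≤ ‖u 0‖ ^ 2 / 2 + ∫ s in (0 : ℝ)..t, ⟪F s, z s⟫_ℝ) := by
  have h0T : (0 : ℝ) ∈ Icc 0 T := ⟨le_rfl, hT.le⟩
  have hTT : T ∈ Icc 0 T := ⟨hT.le, le_rfl⟩
  have hFc := prim_cont hF1 hF
  set e := ec ν T ‖x0‖ F with he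
  have he0 : 0 ≤ e := ec_nonneg hν hT.le _
  obtain ⟨κ, hκ0, hκ1, hκ2⟩ := exists_kappa he0 hε
  set S : ℝ := 1 + ‖z0‖ + Real.sqrt (2 * e / (ν * ε)) with hS
  have hsq0 := Real.sqrt_nonneg (2 * e / (ν * ε))
  have hS0 : 0 < S := by have := norm_nonneg z0; linarith
  have hSz : ‖z0‖ ≤ S := by linarith
  have hS2 : 2 * e / (ν * ε) ≤ S ^ 2 := by
    have h1 : Real.sqrt (2 * e / (ν * ε)) ≤ S := by have := norm_nonneg z0; linarith
    calc 2 * e / (ν * ε) = (Real.sqrt (2 * e / (ν * ε))) ^ 2 :=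
          (Real.sq_sqrt (by positivity)).symm
      _ ≤ S ^ 2 := by gcongr
  have V := visc_muf (ν := ν) hκ0 hS0 hν
  have hμ0 : muf κ S ‖z0‖ = 0 := muf_zero hSz
  obtain ⟨u, u', z, c1, c2, hu0, Sl⟩ := exists_sln Fr V hν hT hFc
    (Φ := ∫ s in (0 : ℝ)..T, ‖F1 s‖ ^ 2)
    (intervalIntegral.integral_nonneg hT.le (fun s _ => by positivity))
    (prim_shift hF1 hF) hcomp h0 (g0 := g0) (by
      intro p hp
      rw [hμ0, add_zero]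
      exact hc p hp)
  rw [← he] at Sl
  obtain ⟨u1, z1, k1, k2, k3, k4, k5⟩ := Sl.derivs Fr.closedW hT
  obtain ⟨hstr, g1, k6, k7⟩ := Sl.stress V hν hT
  have hμcont : Continuous (muf κ S) := by unfold muf; fun_prop
  have hlamc : ContinuousOn (fun t => muf κ S ‖z t‖) (Icc 0 T) :=
    hμcont.comp_continuousOn Sl.zc.norm
  have hz2 : ContinuousOn (fun t => ‖z t‖ ^ 2) (Icc 0 T) := Sl.zc.norm.pow 2
  have hdis : ContinuousOn (fun t => muf κ S ‖z t‖ * ‖z t‖ ^ 2) (Icc 0 T) := hlamc.mul hz2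
  have hl0 : ∀ t, 0 ≤ muf κ S ‖z t‖ := fun t => muf_nonneg hκ0.le _
  have hFz : ContinuousOn (fun t => ⟪F t, z t⟫_ℝ) (Icc 0 T) := hFc.inner Sl.zc
  have hI := Sl.dissip
  -- the energy inequality
  have hen : ∀ t ∈ Icc 0 T, ‖u t‖ ^ 2 / 2 + ν * (∫ s in (0 : ℝ)..t, ‖z s‖ ^ 2)
      + (∫ s in (0 : ℝ)..t, muf κ S ‖z s‖ * ‖z s‖ ^ 2)
      = ‖u 0‖ ^ 2 / 2 + ∫ s in (0 : ℝ)..t, ⟪F s, z s⟫_ℝ := by
    intro t ht
    rw [← Sl.energy t ht]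
    have e1 : (fun s => (ν + muf κ S ‖z s‖) * ‖z s‖ ^ 2)
        = fun s => ν * ‖z s‖ ^ 2 + muf κ S ‖z s‖ * ‖z s‖ ^ 2 := by
      funext s; ring
    rw [e1, intervalIntegral.integral_add
      ((ii_of_cont hz2 le_rfl ht.1 ht.2).const_mul ν) (ii_of_cont hdis le_rfl ht.1 ht.2),
      intervalIntegral.integral_const_mul]
    ring
  have hdn : ∀ t ∈ Icc 0 T, 0 ≤ ∫ s in (0 : ℝ)..t, muf κ S ‖z s‖ * ‖z s‖ ^ 2 := by
    intro t ht
    exact intervalIntegral.integral_nonneg ht.1 (fun s _ => mul_nonneg (hl0 s) (by positivity))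
  -- the bound of the dissipation
  have hz2int : ∫ s in (0 : ℝ)..T, ‖z s‖ ^ 2 ≤ 2 * e / ν := by
    have h1 := hen T hTT
    have h2 := hdn T hTT
    have hF2 : ContinuousOn (fun s => ‖F s‖ ^ 2) (Icc 0 T) := hFc.norm.pow 2
    have h3 : ∫ s in (0 : ℝ)..T, ⟪F s, z s⟫_ℝ
        ≤ ∫ s in (0 : ℝ)..T, (ν / 2 * ‖z s‖ ^ 2 + ‖F s‖ ^ 2 / (2 * ν)) := by
      refine intervalIntegral.integral_mono_on hT.le (ii_of_cont hFz le_rfl hT.le le_rfl)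
        (((ii_of_cont hz2 le_rfl hT.le le_rfl).const_mul _).add
          ((ii_of_cont hF2 le_rfl hT.le le_rfl).div_const _)) ?_
      intro s _
      have h4 : ⟪F s, z s⟫_ℝ ≤ ‖F s‖ * ‖z s‖ := real_inner_le_norm _ _
      have h : 0 ≤ (ν * ‖z s‖ - ‖F s‖) ^ 2 / (2 * ν) := by positivity
      have e : (ν * ‖z s‖ - ‖F s‖) ^ 2 / (2 * ν)
          = ν / 2 * ‖z s‖ ^ 2 - ‖F s‖ * ‖z s‖ + ‖F s‖ ^ 2 / (2 * ν) := by
        field_simp; ring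
      linarith
    rw [intervalIntegral.integral_add ((ii_of_cont hz2 le_rfl hT.le le_rfl).const_mul _)
      ((ii_of_cont hF2 le_rfl hT.le le_rfl).div_const _),
      intervalIntegral.integral_const_mul, intervalIntegral.integral_div] at h3
    have h5 : 0 ≤ ‖u T‖ ^ 2 / 2 := by positivity
    rw [hu0] at h1
    have h6 : ν / 2 * (∫ s in (0 : ℝ)..T, ‖z s‖ ^ 2) ≤ e := by
      rw [he]
      unfold ec
      linarith
    rw [le_div_iff₀ hν]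
    linarith
  refine ⟨u, u1, z, z1, fun t => muf κ S ‖z t‖, g1, c1, hu0, Sl.mem, k1, k2, k6, k3, k4, k7, k5,
    ?_, hlamc, hl0, ?_, ?_, ?_, ?_, ?_⟩
  · intro p hp t ht
    exact Sl.weak p hp 0 t le_rfl ht.1 ht.2
  · have hz0 : z 0 = z0 := grad_unique Fr (by
      have := Sl.mem 0 h0T
      rwa [hu0] at this) h0
    show muf κ S ‖z 0‖ = 0
    rw [hz0]; exact hμ0
  · -- Chebyshev
    have hsub : {t ∈ Icc 0 T | muf κ S ‖z t‖ ≠ 0} ⊆ {t | S ^ 2 ≤ ‖z t‖ ^ 2} ∩ Icc 0 T := by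
      rintro t ⟨ht, hne⟩
      refine ⟨?_, ht⟩
      have : S < ‖z t‖ := by
        by_contra hcon
        exact hne (muf_zero (not_lt.mp hcon))
      show S ^ 2 ≤ ‖z t‖ ^ 2
      gcongr
    refine (measure_mono hsub).trans ((Measure.le_restrict_apply _ _).trans ?_)
    have hint : Integrable (fun t => ‖z t‖ ^ 2) (volume.restrict (Icc 0 T)) :=
      hz2.integrableOn_Icc
    have h1 := mul_meas_ge_le_integral_of_nonneg (μ := volume.restrict (Icc 0 T))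
      (f := fun t => ‖z t‖ ^ 2) (Eventually.of_forall fun t => by positivity) hint (S ^ 2)
    have h2 : ∫ t in Icc 0 T, ‖z t‖ ^ 2 = ∫ t in (0 : ℝ)..T, ‖z t‖ ^ 2 := by
      rw [intervalIntegral.integral_of_le hT.le, integral_Icc_eq_integral_Ioc]
    rw [h2] at h1
    have hfin : (volume.restrict (Icc 0 T)) {t | S ^ 2 ≤ ‖z t‖ ^ 2} ≠ ⊤ := by
      have : IsFiniteMeasure (volume.restrict (Icc 0 T) : Measure ℝ) := by
        rw [isFiniteMeasure_restrict]; simp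
      exact measure_ne_top _ _
    rw [← ENNReal.ofReal_toReal hfin]
    refine ENNReal.ofReal_le_ofReal ?_
    have h3 : S ^ 2 * ((volume.restrict (Icc 0 T)) {t | S ^ 2 ≤ ‖z t‖ ^ 2}).toReal ≤ 2 * e / ν :=
      h1.trans hz2int
    have h4 : 2 * e / ν ≤ S ^ 2 * ε := by
      rw [div_le_iff₀ (by positivity)] at hS2
      rw [div_le_iff₀ hν]
      linarith
    exact le_of_mul_le_mul_left (h3.trans h4) (by positivity)
  · calc ∫ t in (0 : ℝ)..T, (muf κ S ‖z t‖) ^ 5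
        ≤ ∫ t in (0 : ℝ)..T, κ ^ 4 * (muf κ S ‖z t‖ * ‖z t‖ ^ 2) := by
          refine intervalIntegral.integral_mono_on hT.le
            (ii_of_cont (hlamc.pow 5) le_rfl hT.le le_rfl)
            ((ii_of_cont hdis le_rfl hT.le le_rfl).const_mul _) ?_
          intro s _
          exact cost5 hκ0 (norm_nonneg _)
      _ = κ ^ 4 * ∫ t in (0 : ℝ)..T, muf κ S ‖z t‖ * ‖z t‖ ^ 2 := by
          rw [intervalIntegral.integral_const_mul]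
      _ ≤ κ ^ 4 * e := by gcongr
      _ ≤ ε := hκ2
  · have hstn : ContinuousOn (fun t => ‖muf κ S ‖z t‖ • z t‖ ^ (5 / 3 : ℝ)) (Icc 0 T) :=
      hstr.norm.rpow_const (fun t _ => Or.inr (by norm_num))
    calc ∫ t in (0 : ℝ)..T, ‖muf κ S ‖z t‖ • z t‖ ^ (5 / 3 : ℝ)
        ≤ ∫ t in (0 : ℝ)..T, κ ^ (2 / 3 : ℝ) * (muf κ S ‖z t‖ * ‖z t‖ ^ 2) := by
          refine intervalIntegral.integral_mono_on hT.le
            (ii_of_cont hstn le_rfl hT.le le_rfl)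
            ((ii_of_cont hdis le_rfl hT.le le_rfl).const_mul _) ?_
          intro s _
          rw [norm_smul, Real.norm_eq_abs, abs_of_nonneg (hl0 s)]
          exact cost53 hκ0 (norm_nonneg _)
      _ = κ ^ (2 / 3 : ℝ) * ∫ t in (0 : ℝ)..T, muf κ S ‖z t‖ * ‖z t‖ ^ 2 := by
          rw [intervalIntegral.integral_const_mul]
      _ ≤ κ ^ (2 / 3 : ℝ) * e := by gcongr
      _ ≤ ε := hκ1
  · intro t ht
    have := hen t ht
    have := hdn t ht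
    linarith

end H772R2.NSR
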