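import Mathlib
import Pool.Agent.H772R2.NS.Space3
import Pool.Agent.H772R2.NSR.Gal
import Pool.Agent.Helper793.Sob

/-!
The concrete frame: bounded open sets in three dimensional space.
-/

set_option linter.unusedSectionVars false

open MeasureTheory Set Filter Topology Metric
open scoped InnerProductSpace NNReal ENNReal ContDiff

namespace H772R2.NSR

open H772R2.NS

/-- Poincare inequality. -/
theorem exists_poinc {Ω : Set E3} (hΩ : MeasurableSet Ω) (hb : Bornology.IsBounded Ω) :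
    ∃ c : ℝ, 0 ≤ c ∧ ∀ p ∈ graphW Ω, ‖p.1‖ ≤ c * ‖p.2‖ := by
  have hfin : volume Ω < ⊤ := hb.measure_lt_top
  set V : ℝ≥0∞ := (volume Ω) ^ (1 / (2 : ℝ≥0∞).toReal - 1 / (6 : ℝ≥0∞).toReal) with hV
  have hVfin : V ≠ ⊤ := by
    rw [hV]
    refine (ENNReal.rpow_lt_top_of_nonneg ?_ hfin.ne).ne
    norm_num
  refine ⟨(CS : ℝ) * V.toReal, by positivity, ?_⟩
  have hpre : ∀ p ∈ preW Ω, ‖p.1‖ ≤ (CS : ℝ) * V.toReal * ‖p.2‖ := by
    rintro p ⟨φ, h1, h2, h3⟩
    have h6 : eLpNorm φ 6 (volume.restrict Ω) ≤ CS * eLpNorm (jac φ) 2 (volume.restrict Ω) := by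
      calc eLpNorm φ 6 (volume.restrict Ω) ≤ eLpNorm φ 6 (volume : Measure E3) :=
            eLpNorm_mono_measure _ Measure.restrict_le_self
        _ ≤ CS * eLpNorm (fderiv ℝ φ) 2 (volume : Measure E3) :=
            CS_spec φ (h1.smooth.of_le (by simp)) h1.compact
        _ ≤ CS * eLpNorm (jac φ) 2 (volume : Measure E3) := by
            gcongr
            exact eLpNorm_mono (fun x => norm_fderiv_le_jac x)
        _ = CS * eLpNorm (jac φ) 2 (volume.restrict Ω) := by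
            rw [h1.eLpNorm_jac_restrict hΩ]
    have h7 : eLpNorm φ 2 (volume.restrict Ω) ≤ eLpNorm φ 6 (volume.restrict Ω) * V := by
      have := eLpNorm_le_eLpNorm_mul_rpow_measure_univ (μ := volume.restrict Ω) (p := 2) (q := 6)
        (by norm_num) (f := φ) h1.smooth.continuous.aestronglyMeasurable
      rwa [Measure.restrict_apply_univ] at this
    have h8 : ‖p.1‖ₑ ≤ CS * V * ‖p.2‖ₑ := by
      rw [Lp.enorm_def, Lp.enorm_def, eLpNorm_congr_ae h2, eLpNorm_congr_ae h3]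
      refine h7.trans ?_
      calc eLpNorm φ 6 (volume.restrict Ω) * V
          ≤ (CS * eLpNorm (jac φ) 2 (volume.restrict Ω)) * V := by gcongr
        _ = _ := by ring
    have h9 := ENNReal.toReal_mono (ENNReal.mul_lt_top (ENNReal.mul_lt_top (by simp)
      hVfin.lt_top) enorm_lt_top).ne h8
    simpa [ENNReal.toReal_mul, toReal_enorm] using h9
  intro p hp
  have hcl : IsClosed {p : L2V Ω × L2M Ω | ‖p.1‖ ≤ (CS : ℝ) * V.toReal * ‖p.2‖} :=
    isClosed_le (by fun_prop) (by fun_prop)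
  have hp' : p ∈ closure (preW Ω : Set (L2V Ω × L2M Ω)) := by
    have := hp
    unfold graphW at this
    rwa [← SetLike.mem_coe, Submodule.topologicalClosure_coe] at this
  exact closure_minimal (fun q hq => hpre q hq) hcl hp'

/-- parallelogram law for the tensor square. -/
theorem tensL_para {Ω : Set E3} (hΩ : MeasurableSet Ω) {p q : L2V Ω × L2M Ω}
    (hp : p ∈ graphW Ω) (hq : q ∈ graphW Ω) :
    tensL (p.1 + q.1) + tensL (p.1 - q.1) = (2 : ℝ) • tensL p.1 + (2 : ℝ) • tensL q.1 := by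
  have h1 := tensL_coe hΩ ((graphW Ω).add_mem hp hq)
  have h2 := tensL_coe hΩ ((graphW Ω).sub_mem hp hq)
  have h3 := tensL_coe hΩ hp
  have h4 := tensL_coe hΩ hq
  apply Lp.ext
  have k1 := Lp.coeFn_add (tensL (p.1 + q.1)) (tensL (p.1 - q.1))
  have k2 := Lp.coeFn_add ((2 : ℝ) • tensL p.1) ((2 : ℝ) • tensL q.1)
  have k3 := Lp.coeFn_smul (2 : ℝ) (tensL p.1)
  have k4 := Lp.coeFn_smul (2 : ℝ) (tensL q.1)
  have k5 := Lp.coeFn_add p.1 q.1
  have k6 := Lp.coeFn_sub p.1 q.1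
  filter_upwards [h1, h2, h3, h4, k1, k2, k3, k4, k5, k6] with x a1 a2 a3 a4 b1 b2 b3 b4 b5 b6
  rw [b1, b2]
  simp only [Pi.add_apply]
  rw [b3, b4]
  simp only [Pi.smul_apply]
  rw [a3, a4]
  have a1' : (tensL (p.1 + q.1)) x = tens ((p.1 + q.1) x) := a1
  have a2' : (tensL (p.1 - q.1)) x = tens ((p.1 - q.1) x) := a2
  rw [a1', a2', b5, b6]
  ext r
  simp only [PiLp.add_apply, PiLp.smul_apply, tens_apply, Pi.add_apply, Pi.sub_apply,
    PiLp.sub_apply, smul_eq_mul]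
  ring

theorem exists_frame {Ω : Set E3} (hΩ : IsOpen Ω) (hb : Bornology.IsBounded Ω) :
    ∃ C : ℝ, Frame (graphW Ω) (tensL (Ω := Ω)) C := by
  obtain ⟨cP, hcP0, hcP⟩ := exists_poinc hΩ.measurableSet hb
  set cS : ℝ := (CS : ℝ) ^ 3 with hcS
  have hcS0 : 0 ≤ cS := by positivity
  refine ⟨cP + cS + 81 * cS ^ 2 * cP + 1, ?_⟩
  have hm := hΩ.measurableSet
  have hort : ∀ p ∈ graphW Ω, ⟪tensL p.1, p.2⟫_ℝ = 0 := fun p hp => inner_tensL_zero hm hp
  have hC1 : cP ≤ cP + cS + 81 * cS ^ 2 * cP + 1 := by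
    have : 0 ≤ 81 * cS ^ 2 * cP := by positivity
    linarith
  have hC2 : cS ≤ cP + cS + 81 * cS ^ 2 * cP + 1 := by
    have : 0 ≤ 81 * cS ^ 2 * cP := by positivity
    linarith
  have hC3 : 81 * cS ^ 2 * cP ≤ cP + cS + 81 * cS ^ 2 * cP + 1 := by linarith
  constructor
  · positivity
  · exact graphW_closed Ω
  · intro p hp h0
    refine graphW_uniq hΩ p.2 ?_
    have : p = (p.1, p.2) := rfl
    rw [this, h0] at hp
    exact hp
  · intro p hp
    exact (hcP p hp).trans (mul_le_mul_of_nonneg_right hC1 (norm_nonneg _))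
  · exact hort
  · intro p hp q hq
    -- b = q, w = p - q
    have hw : p - q ∈ graphW Ω := (graphW Ω).sub_mem hp hq
    have h1 := hort _ ((graphW Ω).add_mem hq hw)
    have h2 := hort _ ((graphW Ω).sub_mem hq hw)
    have h3 := hort _ hq
    have h4 := hort _ hw
    have hpar := tensL_para hm hq hw
    have e1 : q.1 + (p - q).1 = p.1 := by simp
    have e2 : (q + (p - q)) = p := by simp
    rw [e1] at hpar
    rw [e2] at h1
    have e3 : tensL (q - (p - q)).1 = (2 : ℝ) • tensL q.1 + (2 : ℝ) • tensL (p - q).1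
        - tensL p.1 := by
      rw [← hpar]
      simp
    rw [e3] at h2
    have e4 : (q - (p - q)).2 = q.2 - (p.2 - q.2) := rfl
    have e5 : (p - q).2 = p.2 - q.2 := rfl
    have e6 : (p - q).1 = p.1 - q.1 := rfl
    rw [e5, e6] at h4
    rw [e4, e6] at h2
    simp only [inner_add_left, inner_sub_left, inner_sub_right, real_inner_smul_left] at h2 h4 ⊢
    linarith
  · intro p hp
    refine (norm_tensL_sq_le hm hp).trans ?_
    exact mul_le_mul_of_nonneg_right hC2 (by positivity)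
  · intro p hp q hq
    set k : ℝ := Real.sqrt (Real.sqrt (cS * cP)) with hk
    have hk0 : 0 ≤ k := Real.sqrt_nonneg _
    have hk4 : k ^ 4 = cS * cP := by
      have : k ^ 4 = (k ^ 2) ^ 2 := by ring
      rw [this, hk, Real.sq_sqrt (Real.sqrt_nonneg _), Real.sq_sqrt (by positivity)]
    have hn : ∀ r ∈ graphW Ω, n4 r.1 ≤ k * ‖r.2‖ := by
      intro r hr
      have h0 : 0 ≤ n4 r.1 := ENNReal.toReal_nonneg
      have h1 := n4_pow hm hr
      have h2 : n4 r.1 ^ 4 ≤ (k * ‖r.2‖) ^ 4 := by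
        rw [mul_pow, hk4]
        calc n4 r.1 ^ 4 ≤ cS * (‖r.1‖ * ‖r.2‖ ^ 3) := h1
          _ ≤ cS * ((cP * ‖r.2‖) * ‖r.2‖ ^ 3) := by
              have := hcP r hr
              gcongr
          _ = cS * cP * ‖r.2‖ ^ 4 := by ring
      exact (pow_le_pow_iff_left₀ h0 (by positivity) (by norm_num)).mp h2
    have h1 := dist_tensL_le hm hq hp
    have hpq : p - q ∈ graphW Ω := (graphW Ω).sub_mem hp hq
    have h0 : 0 ≤ n4 (p - q).1 := ENNReal.toReal_nonneg
    have h0' : 0 ≤ n4 q.1 := ENNReal.toReal_nonneg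
    have h2 : 2 * n4 q.1 + n4 (p - q).1 ≤ 3 * k * (‖p.2‖ + ‖q.2‖) := by
      have a1 := hn q hq
      have a2 := hn _ hpq
      have a3 : ‖(p - q).2‖ ≤ ‖p.2‖ + ‖q.2‖ := norm_sub_le _ _
      have a4 : k * ‖(p - q).2‖ ≤ k * (‖p.2‖ + ‖q.2‖) := by gcongr
      have a5 : 0 ≤ k * ‖p.2‖ := by positivity
      nlinarith
    have h3 := n4_pow hm hpq
    calc ‖tensL p.1 - tensL q.1‖ ^ 4
        ≤ (n4 (p - q).1 * (3 * k * (‖p.2‖ + ‖q.2‖))) ^ 4 := by
          refine pow_le_pow_left₀ (norm_nonneg _) (h1.trans ?_) 4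
          gcongr
      _ = n4 (p - q).1 ^ 4 * (81 * (cS * cP) * (‖p.2‖ + ‖q.2‖) ^ 4) := by
          rw [← hk4]; ring
      _ ≤ (cS * (‖(p - q).1‖ * ‖(p - q).2‖ ^ 3)) * (81 * (cS * cP) * (‖p.2‖ + ‖q.2‖) ^ 4) := by
          gcongr
      _ = 81 * cS ^ 2 * cP * (‖p.1 - q.1‖ * ‖p.2 - q.2‖ ^ 3 * (‖p.2‖ + ‖q.2‖) ^ 4) := by
          rw [show (p - q).1 = p.1 - q.1 from rfl, show (p - q).2 = p.2 - q.2 from rfl]
          ring
      _ ≤ _ := mul_le_mul_of_nonneg_right hC3 (by positivity)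

end H772R2.NSR
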