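import Mathlib
import Pool.Agent.H772R2.NSR.Conc

/-!
Rellich: bounded sets of `H¹_{0,σ}(Ω)` are totally bounded in `L²(Ω)`, `Ω` bounded.
-/

set_option linter.unusedSectionVars false

open MeasureTheory Set Filter Topology Metric
open scoped InnerProductSpace NNReal ENNReal ContDiff

namespace H772R2.NSR

open H772R2.NS

theorem coord_test {Ω : Set E3} {φ : E3 → E3} (h : NS.IsTest Ω φ) (i : Fin 3) :
    Pool.Agent.Helper793.QEig.IsTest Ω (fun x => φ x i) := by
  refine ⟨contDiff_coord h.smooth i, hasCompactSupport_coord h.compact i, ?_⟩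
  refine Subset.trans (closure_mono ?_) h.supp
  intro x hx h0
  apply hx
  simp only
  rw [h0]
  rfl

theorem coord_fderiv_le {φ : E3 → E3} (h : ContDiff ℝ ∞ φ) (i : Fin 3) :
    eLpNorm (fderiv ℝ (fun x => φ x i)) 2 (volume : Measure E3)
      ≤ eLpNorm (jac φ) 2 (volume : Measure E3) := by
  refine eLpNorm_mono fun x => ?_
  refine le_trans ?_ (norm_fderiv_le_jac x)
  refine ContinuousLinearMap.opNorm_le_bound _ (norm_nonneg _) fun v => ?_
  rw [fderiv_coord h]
  exact (PiLp.norm_apply_le (fderiv ℝ φ x v) i).trans (ContinuousLinearMap.le_opNorm _ _)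

/-- the vector function with given components. -/
noncomputable def vecOf (ψ : Fin 3 → E3 → ℝ) (x : E3) : E3 := WithLp.toLp 2 fun i => ψ i x

theorem vecOf_apply (ψ : Fin 3 → E3 → ℝ) (x : E3) (i : Fin 3) : vecOf ψ x i = ψ i x := rfl

theorem norm_le_sum (w : E3) : ‖w‖ ≤ ∑ i, ‖w i‖ := by
  have h : ‖w‖ ^ 2 ≤ (∑ i, ‖w i‖) ^ 2 := by
    rw [norm_sq_E3]
    have h1 : ∀ i, w i ^ 2 = ‖w i‖ ^ 2 := fun i => by rw [Real.norm_eq_abs, sq_abs]
    simp_rw [h1]
    exact Finset.sum_sq_le_sq_sum_of_nonneg (fun i _ => norm_nonneg _)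
  exact (pow_le_pow_iff_left₀ (norm_nonneg _) (by positivity) (by norm_num)).mp h

open Classical in
/-- the class of a vector function. -/
noncomputable def clsV (Ω : Set E3) (ψ : Fin 3 → E3 → ℝ) : L2V Ω :=
  if h : MemLp (vecOf ψ) 2 (volume.restrict Ω) then h.toLp _ else 0

theorem rellich_W {Ω : Set E3} (hΩ : IsOpen Ω) (hb : Bornology.IsBounded Ω) (R : ℝ) :
    TotallyBounded {v : L2V Ω | ∃ z, (v, z) ∈ graphW Ω ∧ ‖z‖ ≤ R} := by
  have hm := hΩ.measurableSet
  set M : ℝ≥0 := R.toNNReal + 1 with hM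
  set A : Set (L2V Ω) := {v | ∃ φ, NS.IsTest Ω φ ∧ v =ᵐ[volume.restrict Ω] φ ∧
    eLpNorm (jac φ) 2 (volume : Measure E3) ≤ M} with hA
  have hAtb : TotallyBounded A := by
    rw [Metric.totallyBounded_iff]
    intro ε hε
    obtain ⟨T, hTf, hT, hTc⟩ := Pool.Agent.Helper793.Sob.rellich (N := 3) (by norm_num) hb M
      (ε := ε / 4) (by positivity)
    refine ⟨clsV Ω '' (Set.pi univ (fun _ : Fin 3 => T)),
      (Set.Finite.pi fun _ => hTf).image _, ?_⟩
    rintro v ⟨φ, h1, h2, h3⟩
    have hch : ∀ i : Fin 3, ∃ ψ ∈ T, eLpNorm (fun x => φ x i - ψ x) 2 (volume : Measure E3)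
        ≤ ENNReal.ofReal (ε / 4) := fun i =>
      hTc _ (coord_test h1 i) ((coord_fderiv_le h1.smooth i).trans h3)
    choose ψ hψT hψ using hch
    simp only [mem_iUnion]
    refine ⟨clsV Ω ψ, ⟨ψ, fun i _ => hψT i, rfl⟩, ?_⟩
    have hψm : ∀ i, MemLp (ψ i) 2 (volume.restrict Ω) := fun i =>
      (((hT _ (hψT i)).1.1.continuous.memLp_of_hasCompactSupport
        (hT _ (hψT i)).1.2.1 (p := 2) (μ := (volume : Measure E3)))).restrict Ω
    have hvm : MemLp (vecOf ψ) 2 (volume.restrict Ω) := by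
      have hc : Continuous (vecOf ψ) := by
        unfold vecOf
        refine (PiLp.continuous_toLp 2 _).comp ?_
        exact continuous_pi (fun i => (hT _ (hψT i)).1.1.continuous)
      have hcs : HasCompactSupport (vecOf ψ) := by
        have hK : IsCompact (⋃ i, tsupport (ψ i)) :=
          isCompact_iUnion fun i => (hT _ (hψT i)).1.2.1
        refine HasCompactSupport.intro hK fun x hx => ?_
        ext i
        rw [vecOf_apply]
        have : x ∉ tsupport (ψ i) := fun h => hx (mem_iUnion.mpr ⟨i, h⟩)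
        exact image_eq_zero_of_notMem_tsupport this
      exact (hc.memLp_of_hasCompactSupport hcs).restrict Ω
    have hcoe : (clsV Ω ψ : E3 → E3) =ᵐ[volume.restrict Ω] vecOf ψ := by
      unfold clsV
      rw [dif_pos hvm]
      exact hvm.coeFn_toLp
    have hφm : ∀ i, AEStronglyMeasurable (fun x => φ x i) (volume.restrict Ω) := fun i =>
      (contDiff_coord h1.smooth i).continuous.aestronglyMeasurable
    have key : ‖v - clsV Ω ψ‖ₑ ≤ ENNReal.ofReal (3 * (ε / 4)) := by
      rw [Lp.enorm_def]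
      have e1 : eLpNorm (v - clsV Ω ψ : L2V Ω) 2 (volume.restrict Ω)
          = eLpNorm (fun x => φ x - vecOf ψ x) 2 (volume.restrict Ω) := by
        apply eLpNorm_congr_ae
        refine (Lp.coeFn_sub _ _).trans ?_
        exact h2.sub hcoe
      rw [e1]
      calc eLpNorm (fun x => φ x - vecOf ψ x) 2 (volume.restrict Ω)
          ≤ eLpNorm (∑ i : Fin 3, fun x => ‖φ x i - ψ i x‖) 2 (volume.restrict Ω) := by
            refine eLpNorm_mono_real fun x => ?_
            rw [Finset.sum_apply]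
            exact norm_le_sum _
        _ ≤ ∑ i : Fin 3, eLpNorm (fun x => ‖φ x i - ψ i x‖) 2 (volume.restrict Ω) :=
            eLpNorm_sum_le (fun i _ => ((hφm i).sub (hψm i).1).norm) (by norm_num)
        _ ≤ ∑ _i : Fin 3, ENNReal.ofReal (ε / 4) := by
            refine Finset.sum_le_sum fun i _ => ?_
            rw [eLpNorm_norm]
            exact (eLpNorm_mono_measure _ Measure.restrict_le_self).trans (hψ i)
        _ = ENNReal.ofReal (3 * (ε / 4)) := by
            rw [Finset.sum_const, Finset.card_univ, Fintype.card_fin,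
              ENNReal.ofReal_mul (by norm_num)]
            simp
    rw [mem_ball, dist_eq_norm]
    have h5 := ENNReal.toReal_mono ENNReal.ofReal_ne_top key
    rw [toReal_enorm, ENNReal.toReal_ofReal (by positivity)] at h5
    linarith
  refine hAtb.closure.subset ?_
  rintro v ⟨z, hz, hzR⟩
  rw [Metric.mem_closure_iff]
  intro ε hε
  have hp' : (v, z) ∈ closure (preW Ω : Set (L2V Ω × L2M Ω)) := by
    have := hz
    unfold graphW at this
    rwa [← SetLike.mem_coe, Submodule.topologicalClosure_coe] at this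
  rw [Metric.mem_closure_iff] at hp'
  obtain ⟨q, hq, hd⟩ := hp' (min ε 1) (lt_min hε one_pos)
  rw [Prod.dist_eq, max_lt_iff] at hd
  obtain ⟨φ, h1, h2, h3⟩ := hq
  refine ⟨q.1, ⟨φ, h1, h2, ?_⟩, hd.1.trans_le (min_le_left _ _)⟩
  have hq2 : ‖q.2‖ ≤ R + 1 := by
    have h4 : dist z q.2 < 1 := hd.2.trans_le (min_le_right _ _)
    rw [dist_eq_norm] at h4
    have h5 : ‖q.2‖ ≤ ‖z‖ + ‖z - q.2‖ := by
      have := norm_sub_le z (z - q.2)
      simpa using this
    linarith
  have hR0 : 0 ≤ R := (norm_nonneg _).trans hzR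
  rw [← h1.eLpNorm_jac_restrict hm, ← eLpNorm_congr_ae h3, ← Lp.enorm_def]
  have h6 : ‖q.2‖ₑ = ENNReal.ofReal ‖q.2‖ := (ofReal_norm _).symm
  rw [h6]
  refine (ENNReal.ofReal_le_ofReal hq2).trans (le_of_eq ?_)
  rw [hM, ENNReal.ofReal]
  congr 1
  rw [Real.toNNReal_add hR0 (by norm_num)]
  simp

end H772R2.NSR
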