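import Mathlib
import Pool.Agent.H772R2.NS.Pub

/-!
Public definitions: strong solutions of the three dimensional Navier-Stokes equations.
-/

open MeasureTheory Set
open scoped InnerProductSpace ENNReal ContDiff

namespace H772R2.NS.Pub

/-- `g ∈ H¹(0,T; E)` with derivative `g'`: `g' ∈ L²(0,T; E)` and `g(b) - g(a) = ∫_a^b g'` for
`0 ≤ a ≤ b ≤ T`. -/
structure IsH1 {E : Type} [NormedAddCommGroup E] [InnerProductSpace ℝ E] (T : ℝ)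
    (g g' : ℝ → E) : Prop where
  memLp : MemLp g' 2 (volume.restrict (Ioc 0 T))
  prim : ∀ a b, 0 ≤ a → a ≤ b → b ≤ T → g b - g a = ∫ s in a..b, g' s

/-- The right-hand side of the weak form of the Navier-Stokes equations, at the state `v` with
gradient `z`, viscosity `ν` and force `f` given by `⟨f, φ⟩ = (Φ, ∇φ)`:
`(v, (v·∇)φ) - ν (z, ∇φ) + (Φ, ∇φ)`. -/
noncomputable def rhs {Ω : Set R3} (ν : ℝ) (v : L2 Ω R3) (z Φ : L2 Ω Mat) (φ : R3 → R3) : ℝ :=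
  (∫ x in Ω, ⟪v.fn x, fderiv ℝ φ x (v.fn x)⟫_ℝ) - ν * (∫ x in Ω, ⟪z.fn x, jac φ x⟫_ℝ)
    + ∫ x in Ω, ⟪Φ.fn x, jac φ x⟫_ℝ

/-- `u` is a strong solution on `[0,T]` of the Navier-Stokes equations in `Ω` with viscosity `ν`,
zero boundary values and force `f(t)` given by `⟨f(t), φ⟩ = (F(t), ∇φ)`; `G = ∇u`, `u' = ∂_t u`
and `G' = ∇∂_t u`:
* `u(t) ∈ V = H¹_{0,σ}(Ω)` with gradient `G(t)`, for every `t ∈ [0,T]`;
* `u ∈ H¹(0,T; L²)`, `∇u ∈ H¹(0,T; L²)` and `∂_t u(t) ∈ V` with gradient `G'(t)` for almost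
  every `t`, so that `∂_t u ∈ L²(0,T; V)`;
* `∂_t u ∈ L^∞(0,T; L²)`;
* the equations hold in the weak sense, integrated in time. -/
structure IsStrong (Ω : Set R3) (ν T : ℝ) (F : ℝ → L2 Ω Mat) (u u' : ℝ → L2 Ω R3)
    (G G' : ℝ → L2 Ω Mat) : Prop where
  grad : ∀ t ∈ Icc 0 T, (u t, G t) ∈ H1graph Ω
  gradDeriv : ∀ᵐ t ∂(volume.restrict (Ioc 0 T)), (u' t, G' t) ∈ H1graph Ω
  hu : IsH1 T u u'
  hG : IsH1 T G G'
  bdd : ∃ M, ∀ᵐ t ∂(volume.restrict (Ioc 0 T)), ‖u' t‖ ≤ M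
  eqn : ∀ φ, IsTest Ω φ → ∀ t ∈ Icc 0 T,
    (∫ x in Ω, ⟪(u t).fn x, φ x⟫_ℝ) - (∫ x in Ω, ⟪(u 0).fn x, φ x⟫_ℝ)
      = ∫ s in (0 : ℝ)..t, rhs ν (u s) (G s) (F s) φ

end H772R2.NS.Pub
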