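import Mathlib
import Pool.Agent.H772R2.NS.PubBridge
import Pool.Agent.H772R2.NSR.PubR
import Pool.Agent.H772R2.NSR.Abs
import Pool.Agent.H772R2.NSR.Rell

/-!
The theorem in terms of the public definitions.
-/

set_option linter.unusedSectionVars false

open MeasureTheory Set Filter Topology Metric
open scoped InnerProductSpace NNReal ENNReal ContDiff

namespace H772R2.NSR

open H772R2.NS H772R2.NS.Pub

variable {Ω : Set R3}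

theorem pub_inner (v : L2V (Ω : Set E3)) {φ : E3 → E3} {p : L2V (Ω : Set E3)}
    (h : p =ᵐ[volume.restrict (Ω : Set E3)] φ) :
    (∫ x in Ω, ⟪L2.fn (Ω := Ω) (E := R3) v x, (φ : R3 → R3) x⟫_ℝ) = ⟪v, p⟫_ℝ := by
  rw [L2.inner_def]
  refine integral_congr_ae (μ := (volume : Measure E3).restrict (Ω : Set E3)) ?_
  filter_upwards [h] with x hx
  rw [hx]
  rfl

theorem pub_inner_jac (z : L2M (Ω : Set E3)) {φ : E3 → E3} {p : L2M (Ω : Set E3)}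
    (h : p =ᵐ[volume.restrict (Ω : Set E3)] NS.jac φ) :
    (∫ x in Ω, ⟪L2.fn (Ω := Ω) (E := Mat) z x, Pub.jac φ x⟫_ℝ) = ⟪z, p⟫_ℝ := by
  rw [L2.inner_def]
  refine integral_congr_ae (μ := (volume : Measure E3).restrict (Ω : Set E3)) ?_
  filter_upwards [h] with x hx
  rw [hx]
  have h1 : (Pub.jac φ x : M3) = NS.jac φ x := jac_eq φ x
  exact congrArg (fun y : M3 => ⟪z x, y⟫_ℝ) h1

theorem pub_rhs (hΩ : MeasurableSet (Ω : Set E3)) (ν : ℝ) {v : L2V (Ω : Set E3)}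
    {z : L2M (Ω : Set E3)} (Φ : L2M (Ω : Set E3)) (hv : (v, z) ∈ graphW (Ω : Set E3))
    {φ : E3 → E3} {p : L2M (Ω : Set E3)} (h : p =ᵐ[volume.restrict (Ω : Set E3)] NS.jac φ) :
    Pub.rhs (Ω := Ω) ν v z Φ φ = ⟪Φ - ν • z + tensL v, p⟫_ℝ := by
  have e1 : (∫ x in Ω, ⟪L2.fn (Ω := Ω) (E := R3) v x,
      fderiv ℝ (φ : R3 → R3) x (L2.fn (Ω := Ω) (E := R3) v x)⟫_ℝ) = ⟪tensL v, p⟫_ℝ := by
    rw [L2.inner_def]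
    refine integral_congr_ae (μ := (volume : Measure E3).restrict (Ω : Set E3)) ?_
    filter_upwards [h, tensL_coe hΩ hv] with x hx hx2
    have hx2' : (tensL v) x = tens (v x) := hx2
    rw [hx, hx2']
    refine Eq.trans (Pub.inner_fderiv φ x (v x)) ?_
    rw [inner_M3]
    rfl
  have e2 := pub_inner_jac z h
  have e3 := pub_inner_jac Φ h
  unfold Pub.rhs
  refine Eq.trans (congrArg₂ (· + ·) (congrArg₂ (· - ·) e1 (congrArg (ν * ·) e2)) e3) ?_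
  simp only [inner_add_left, inner_sub_left, real_inner_smul_left]
  ring

/-- the pair of classes of a test field. -/
theorem exists_pair {φ : E3 → E3} (h : NS.IsTest (Ω : Set E3) φ) :
    ∃ p ∈ graphW (Ω : Set E3), p.1 =ᵐ[volume.restrict (Ω : Set E3)] φ ∧
      p.2 =ᵐ[volume.restrict (Ω : Set E3)] NS.jac φ := by
  have h1 : MemLp φ 2 (volume.restrict (Ω : Set E3)) := (h.memLp 2).restrict _
  have h2 : MemLp (NS.jac φ) 2 (volume.restrict (Ω : Set E3)) := (h.jac_memLp 2).restrict _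
  refine ⟨(h1.toLp φ, h2.toLp _), Submodule.le_topologicalClosure _ ?_, h1.coeFn_toLp,
    h2.coeFn_toLp⟩
  exact ⟨φ, h, h1.coeFn_toLp, h2.coeFn_toLp⟩

/-- the compatibility condition extends to `H¹_{0,σ}`. -/
theorem compat_ext {w : L2M (Ω : Set E3)} {h : L2V (Ω : Set E3)}
    (hc : ∀ p ∈ preW (Ω : Set E3), ⟪w, p.2⟫_ℝ = ⟪h, p.1⟫_ℝ) :
    ∀ p ∈ graphW (Ω : Set E3), ⟪w, p.2⟫_ℝ = ⟪h, p.1⟫_ℝ := by
  intro p hp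
  have := graphW_induction (fun p : L2V (Ω : Set E3) × L2M (Ω : Set E3) =>
    ⟪w, p.2⟫_ℝ - ⟪h, p.1⟫_ℝ) (by fun_prop) (fun q hq => by
      show ⟪w, q.2⟫_ℝ - ⟪h, q.1⟫_ℝ = 0
      rw [hc q hq, sub_self]) hp
  exact sub_eq_zero.mp this

theorem main_mid {Ω : Set E3} (hΩ : IsOpen Ω) (hb : Bornology.IsBounded Ω) {ν T : ℝ}
    (hν : 0 < ν) (hT : 0 < T) {u0 : L2V Ω} {z0 : L2M Ω} (h0 : (u0, z0) ∈ graphW Ω)
    {F F' : ℝ → L2M Ω} (hF1 : MemLp F' 2 (volume.restrict (Ioc 0 T)))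
    (hF : ∀ a b, 0 ≤ a → a ≤ b → b ≤ T → F b - F a = ∫ s in a..b, F' s)
    (hc : ∃ h : L2V Ω, ∀ φ : E3 → E3, NS.IsTest Ω φ →
      Pub.rhs (Ω := Ω) ν u0 z0 (F 0) φ
        = ∫ x in (show Set R3 from Ω), ⟪L2.fn (Ω := Ω) (E := R3) h x, (φ : R3 → R3) x⟫_ℝ)
    {ε : ℝ} (hε : 0 < ε) :
    ∃ (u u1 : ℝ → L2V Ω) (z z1 : ℝ → L2M Ω) (lam : ℝ → ℝ) (g1 : ℝ → L2M Ω) (c1 : ℝ),
      u 0 = u0 ∧ (∀ t ∈ Icc 0 T, (u t, z t) ∈ graphW Ω) ∧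
      MemLp u1 2 (volume.restrict (Ioc 0 T)) ∧ MemLp z1 2 (volume.restrict (Ioc 0 T)) ∧
      MemLp g1 2 (volume.restrict (Ioc 0 T)) ∧
      (∀ a b, 0 ≤ a → a ≤ b → b ≤ T → u b - u a = ∫ s in a..b, u1 s) ∧
      (∀ a b, 0 ≤ a → a ≤ b → b ≤ T → z b - z a = ∫ s in a..b, z1 s) ∧
      (∀ a b, 0 ≤ a → a ≤ b → b ≤ T →
        (-(lam b • z b)) - (-(lam a • z a)) = ∫ s in a..b, g1 s) ∧
      (∀ᵐ s ∂(volume.restrict (Ioc 0 T)), (u1 s, z1 s) ∈ graphW Ω ∧ ‖u1 s‖ ≤ c1) ∧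
      (∀ φ : E3 → E3, NS.IsTest Ω φ → ∀ t ∈ Icc 0 T,
        (∫ x in (show Set R3 from Ω), ⟪L2.fn (Ω := Ω) (E := R3) (u t) x, (φ : R3 → R3) x⟫_ℝ)
          - (∫ x in (show Set R3 from Ω), ⟪L2.fn (Ω := Ω) (E := R3) (u 0) x, (φ : R3 → R3) x⟫_ℝ)
        = ∫ s in (0 : ℝ)..t, Pub.rhs (Ω := Ω) ν (u s) (z s) (F s - lam s • z s) φ) ∧
      ContinuousOn lam (Icc 0 T) ∧ (∀ t, 0 ≤ lam t) ∧ lam 0 = 0 ∧
      volume {t ∈ Icc 0 T | lam t ≠ 0} ≤ ENNReal.ofReal ε ∧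
      ∫ t in (0 : ℝ)..T, lam t ^ 5 ≤ ε ∧
      ∫ t in (0 : ℝ)..T, ‖lam t • z t‖ ^ (5 / 3 : ℝ) ≤ ε ∧
      (∀ t ∈ Icc 0 T, ‖u t‖ ^ 2 / 2 + ν * ∫ s in (0 : ℝ)..t, ‖z s‖ ^ 2
        ≤ ‖u 0‖ ^ 2 / 2 + ∫ s in (0 : ℝ)..t, ⟪F s, z s⟫_ℝ) := by
  obtain ⟨C, Fr⟩ := exists_frame hΩ hb
  obtain ⟨g0, hg0⟩ := hc
  have hm : MeasurableSet Ω := hΩ.measurableSet
  have hcomp : ∀ p ∈ graphW Ω, ⟪F 0 - ν • z0 + tensL u0, p.2⟫_ℝ = ⟪g0, p.1⟫_ℝ := by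
    refine compat_ext ?_
    rintro p ⟨φ, k1, k2, k3⟩
    rw [← pub_rhs hm ν (F 0) h0 k3, ← pub_inner (Ω := Ω) g0 k2]
    exact hg0 φ k1
  obtain ⟨u, u1, z, z1, lam, g1, c1, a1, a2, a3, a4, a5, a6, a7, a8, a9, a10, a11, a12, a13, a14,
    a15, a16, a17⟩ := main_abs (W := graphW Ω) Fr hν hT hF1 hF (rellich_W hΩ hb) h0 hcomp hε
  refine ⟨u, u1, z, z1, lam, g1, c1, a1, a2, a3, a4, a5, a6, a7, a8, a9, ?_, a11, a12, a13, a14,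
    a15, a16, a17⟩
  intro φ hφ t ht
  obtain ⟨p, hp, hp1, hp2⟩ := exists_pair (Ω := Ω) hφ
  have h1 := a10 p hp t ht
  have e1 := pub_inner (Ω := Ω) (u t) hp1
  have e2 := pub_inner (Ω := Ω) (u 0) hp1
  have h2 : ⟪u t - u 0, p.1⟫_ℝ = ⟪u t, p.1⟫_ℝ - ⟪u 0, p.1⟫_ℝ := inner_sub_left _ _ _
  have e3 : ∫ s in (0 : ℝ)..t, Pub.rhs (Ω := Ω) ν (u s) (z s) (F s - lam s • z s) φ
      = ∫ s in (0 : ℝ)..t, ⟪F s - (ν + lam s) • z s + tensL (u s), p.2⟫_ℝ := by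
    refine intervalIntegral.integral_congr ?_
    intro s hs
    rw [uIcc_of_le ht.1] at hs
    have hs' : s ∈ Icc 0 T := ⟨hs.1, hs.2.trans ht.2⟩
    have k1 := pub_rhs hm ν (F s - lam s • z s) (a2 s hs') hp2
    refine k1.trans ?_
    have e4 : F s - lam s • z s - ν • z s + tensL (u s)
        = F s - (ν + lam s) • z s + tensL (u s) := by
      rw [add_smul]; abel
    exact congrArg (fun w => ⟪w, p.2⟫_ℝ) e4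
  refine (congrArg₂ (· - ·) e1 e2).trans ?_
  refine Eq.trans ?_ e3.symm
  rw [← h1, h2]

theorem main_pub {Ω : Set R3} (hΩ : IsOpen Ω)
    (hb : Bornology.IsBounded Ω) {ν T : ℝ} (hν : 0 < ν) (hT : 0 < T)
    {u0 : L2 Ω R3} {z0 : L2 Ω Mat} (h0 : (u0, z0) ∈ Pub.H1graph Ω)
    {F F' : ℝ → L2 Ω Mat} (hF : IsH1 T F F')
    (hc : ∃ h : L2 Ω R3, ∀ φ, Pub.IsTest Ω φ →
      Pub.rhs ν u0 z0 (F 0) φ = ∫ x in Ω, ⟪h.fn x, φ x⟫_ℝ) {ε : ℝ} (hε : 0 < ε) :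
    ∃ (u u' : ℝ → L2 Ω R3) (G G' : ℝ → L2 Ω Mat) (lam : ℝ → ℝ) (g' : ℝ → L2 Ω Mat),
      u 0 = u0 ∧ IsStrong Ω ν T (fun t => F t - lam t • G t) u u' G G' ∧
      ContinuousOn lam (Icc 0 T) ∧ (∀ t, 0 ≤ lam t) ∧ lam 0 = 0 ∧
      volume {t ∈ Icc 0 T | lam t ≠ 0} ≤ ENNReal.ofReal ε ∧
      ∫ t in (0 : ℝ)..T, lam t ^ 5 ≤ ε ∧
      IsH1 T (fun t => -(lam t • G t)) g' ∧
      ∫ t in (0 : ℝ)..T, ‖lam t • G t‖ ^ (5 / 3 : ℝ) ≤ ε ∧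
      ∀ t ∈ Icc 0 T, ‖u t‖ ^ 2 / 2 + ν * ∫ s in (0 : ℝ)..t, ‖G s‖ ^ 2
        ≤ ‖u 0‖ ^ 2 / 2 + ∫ s in (0 : ℝ)..t, ⟪F s, G s⟫_ℝ := by
  obtain ⟨g0, hg0⟩ := hc
  obtain ⟨u, u1, z, z1, lam, g1, c1, a1, a2, a3, a4, a5, a6, a7, a8, a9, a10, a11, a12, a13, a14,
    a15, a16, a17⟩ := main_mid (Ω := Ω) (F := F) (F' := F') (u0 := u0) (z0 := z0) hΩ hb hν hT
      (mem_pub.mpr h0) hF.memLp hF.prim ⟨g0, fun φ hφ => hg0 φ ((isTest_iff φ).mpr hφ)⟩ hε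
  refine ⟨u, u1, z, z1, lam, g1, a1, ?_, a11, a12, a13, a14, a15, ⟨a5, a8⟩, a16, a17⟩
  constructor
  · intro t ht
    exact mem_pub.mp (a2 t ht)
  · filter_upwards [a9] with t ht
    exact mem_pub.mp ht.1
  · exact ⟨a3, a6⟩
  · exact ⟨a4, a7⟩
  · refine ⟨c1, ?_⟩
    filter_upwards [a9] with t ht
    exact ht.2
  · intro φ hφ t ht
    exact a10 φ ((isTest_iff φ).mp hφ) t ht

end H772R2.NSR
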